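import Mathlib

/-!
# The parameters
-/

set_option autoImplicit false
open Filter

namespace Pool.Agent.X9.SQ

lemma ev_log_ge (a : ℝ) : ∀ᶠ y : ℝ in atTop, a ≤ Real.log y :=
  Real.tendsto_log_atTop.eventually_ge_atTop a

lemma ev_lin (a b : ℝ) (hb : 0 < b) : ∀ᶠ y : ℝ in atTop, a ≤ b * y := by
  filter_upwards [eventually_ge_atTop (a / b)] with y hy
  rw [div_le_iff₀ hb] at hy
  linarith

lemma ev_log_pow (n : ℕ) (a b : ℝ) (hb : 0 < b) : ∀ᶠ y : ℝ in atTop, a * Real.log y ^ n ≤ b * y := by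
  have h := Real.isLittleO_pow_log_id_atTop (n := n)
  have h1 := h.def (show 0 < b / (|a| + 1) by positivity)
  filter_upwards [h1, eventually_ge_atTop (1 : ℝ)] with y hy hy1
  have hlog : 0 ≤ Real.log y := Real.log_nonneg hy1
  rw [Real.norm_of_nonneg (by positivity), id, Real.norm_of_nonneg (by linarith)] at hy
  have h2 : a * Real.log y ^ n ≤ (|a| + 1) * Real.log y ^ n := by
    apply mul_le_mul_of_nonneg_right _ (by positivity)
    linarith [le_abs_self a]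
  have h3 : (|a| + 1) * Real.log y ^ n ≤ (|a| + 1) * (b / (|a| + 1) * y) := by
    apply mul_le_mul_of_nonneg_left hy (by positivity)
  have h4 : (|a| + 1) * (b / (|a| + 1) * y) = b * y := by field_simp
  linarith

/-- sizes of the two bounds for the primes -/
lemma par_ab (c1 c2 : ℝ) (h1 : 0 < c1) (h11 : c1 ≤ 1) (h2 : c2 = c1 ^ 2 / 10 ^ 8) :
    ∀ᶠ y : ℝ in atTop, 16 ≤ ⌊c1 * y⌋₊ ∧ 1 ≤ ⌊c2 * y ^ 2⌋₊ ∧ 200 * ⌊c2 * y ^ 2⌋₊ ≤ ⌊c1 * y⌋₊ ^ 2 ∧
      c1 * y / 2 ≤ ⌊c1 * y⌋₊ ∧ (⌊c2 * y ^ 2⌋₊ : ℝ) ≤ c2 * y ^ 2 ∧ c2 * y ^ 2 ≤ y ^ 2 ∧ 10 ≤ y := by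
  have hc2 : 0 < c2 := by rw [h2]; positivity
  filter_upwards [ev_lin 17 c1 h1, ev_lin 1 c2 hc2, eventually_ge_atTop (10 : ℝ)] with y g1 g2 g3
  have hy0 : 0 ≤ y := by linarith
  have g4 : (16 : ℝ) ≤ ⌊c1 * y⌋₊ := by
    have := Nat.lt_floor_add_one (c1 * y)
    linarith
  have g5 : c1 * y / 2 ≤ ⌊c1 * y⌋₊ := by
    have := Nat.lt_floor_add_one (c1 * y)
    linarith
  have g6 : (⌊c2 * y ^ 2⌋₊ : ℝ) ≤ c2 * y ^ 2 := Nat.floor_le (by positivity)
  refine ⟨by exact_mod_cast g4, ?_, ?_, g5, g6, ?_, g3⟩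
  · apply Nat.le_floor
    push_cast
    nlinarith
  · have g7 : (200 : ℝ) * ⌊c2 * y ^ 2⌋₊ ≤ (⌊c1 * y⌋₊ : ℝ) ^ 2 := by
      have g8 : (c1 * y / 2) ^ 2 ≤ (⌊c1 * y⌋₊ : ℝ) ^ 2 := by
        apply pow_le_pow_left₀ (by positivity) g5
      have g9 : (200 : ℝ) * (c2 * y ^ 2) ≤ (c1 * y / 2) ^ 2 := by
        rw [h2]
        nlinarith [mul_nonneg (sq_nonneg c1) (sq_nonneg y)]
      linarith
    exact_mod_cast g7
  · have : c2 ≤ 1 := by
      rw [h2]
      have : c1 ^ 2 ≤ 1 := by nlinarith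
      linarith
    nlinarith [sq_nonneg y]

/-- the range for `j` -/
lemma par_d (a : ℝ) (ha : 0 < a) : ∀ᶠ y : ℝ in atTop, ∀ Z : ℕ, 1 ≤ Z → (Z : ℝ) ≤ y ^ 2 →
    2 * Real.exp (16 * (1 + Real.log Z)) * (8 * ((Z : ℝ) + 1)) ^ (64 * (1 + Real.log Z) + 3 : ℝ) < ⌊Real.exp (a * y)⌋₊ := by
  filter_upwards [ev_log_ge 1, ev_log_pow 2 1000 a ha, eventually_ge_atTop (10 : ℝ)] with y g1 g2 g3
  intro Z hZ1 hZ2
  have hy0 : (0 : ℝ) < y := by linarith
  obtain ⟨w, hw⟩ : ∃ w : ℝ, w = Real.log y := ⟨_, rfl⟩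
  rw [← hw] at g1 g2
  have hZr : (1 : ℝ) ≤ Z := by exact_mod_cast hZ1
  have hlZ0 : 0 ≤ Real.log Z := Real.log_nonneg hZr
  have hlZ : Real.log Z ≤ 2 * w := by
    have h1 := Real.log_le_log (by linarith) hZ2
    rw [Real.log_pow] at h1
    rw [hw]
    push_cast at h1
    exact h1
  have h8 : 8 * ((Z : ℝ) + 1) ≤ Real.exp (3 * w) := by
    have h1 : Real.exp (3 * w) = y ^ 3 := by
      rw [hw]
      have : 3 * Real.log y = Real.log (y ^ 3) := by rw [Real.log_pow]; push_cast; ring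
      rw [this, Real.exp_log (by positivity)]
    rw [h1]
    nlinarith [mul_pos hy0 hy0]
  have h9 : (8 * ((Z : ℝ) + 1)) ^ (64 * (1 + Real.log Z) + 3 : ℝ) ≤ Real.exp (3 * w * (64 * (1 + 2 * w) + 3)) := by
    calc (8 * ((Z : ℝ) + 1)) ^ (64 * (1 + Real.log Z) + 3 : ℝ) ≤ (Real.exp (3 * w)) ^ (64 * (1 + Real.log Z) + 3 : ℝ) :=
          Real.rpow_le_rpow (by positivity) h8 (by positivity)
      _ = Real.exp (3 * w * (64 * (1 + Real.log Z) + 3)) := by rw [← Real.exp_mul]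
      _ ≤ _ := by
        apply Real.exp_le_exp.2
        apply mul_le_mul_of_nonneg_left _ (by linarith)
        linarith
  have h10 : 2 * Real.exp (16 * (1 + Real.log Z)) ≤ Real.exp (1 + 16 * (1 + 2 * w)) := by
    rw [Real.exp_add]
    apply mul_le_mul _ _ (by positivity) (Real.exp_pos _).le
    · have := Real.add_one_le_exp (1 : ℝ)
      linarith
    · apply Real.exp_le_exp.2
      linarith
  have h11 : 2 * Real.exp (16 * (1 + Real.log Z)) * (8 * ((Z : ℝ) + 1)) ^ (64 * (1 + Real.log Z) + 3 : ℝ) ≤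
      Real.exp (700 * w ^ 2) := by
    calc _ ≤ Real.exp (1 + 16 * (1 + 2 * w)) * Real.exp (3 * w * (64 * (1 + 2 * w) + 3)) :=
          mul_le_mul h10 h9 (by positivity) (Real.exp_pos _).le
      _ = Real.exp (1 + 16 * (1 + 2 * w) + 3 * w * (64 * (1 + 2 * w) + 3)) := (Real.exp_add _ _).symm
      _ ≤ _ := by
        apply Real.exp_le_exp.2
        nlinarith
  have h12 : Real.exp (700 * w ^ 2) + 1 ≤ Real.exp (a * y) := by
    have h13 : Real.exp (700 * w ^ 2 + 1) ≤ Real.exp (a * y) := by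
      apply Real.exp_le_exp.2
      nlinarith
    rw [Real.exp_add] at h13
    have h14 := Real.add_one_le_exp (1 : ℝ)
    have h15 : 1 ≤ Real.exp (700 * w ^ 2) := Real.one_le_exp (by positivity)
    nlinarith
  have h16 := Nat.lt_floor_add_one (Real.exp (a * y))
  linarith

/-- size of the modulus -/
lemma par_e (δ c1 : ℝ) (hδ : 0 < δ) (h1 : 0 < c1) (h11 : c1 ≤ δ / 5112) : ∀ᶠ y : ℝ in atTop, ∀ K : ℝ, 0 < K →
    Real.log K ≤ 18 * ⌊c1 * y⌋₊ → ∀ j : ℝ, 0 ≤ j → j ≤ ⌊Real.exp (δ / 284 * y)⌋₊ → (j * (4 * K)) ^ 71 ≤ Real.exp (δ * y) := by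
  filter_upwards [ev_lin 142 (δ / 2) (by positivity), eventually_ge_atTop (0 : ℝ)] with y g1 g2
  intro K hK hlK j hj0 hj
  have h2 : j ≤ Real.exp (δ / 284 * y) := hj.trans (Nat.floor_le (Real.exp_pos _).le)
  have h3 : (⌊c1 * y⌋₊ : ℝ) ≤ c1 * y := Nat.floor_le (by positivity)
  have h4 : K ≤ Real.exp (δ / 284 * y) := by
    rw [← Real.exp_log hK]
    apply Real.exp_le_exp.2
    have : c1 * y ≤ δ / 5112 * y := mul_le_mul_of_nonneg_right h11 g2
    linarith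
  have h5 : (4 : ℝ) ≤ Real.exp 2 := by
    have h6 : Real.exp 2 = Real.exp 1 * Real.exp 1 := by rw [← Real.exp_add]; norm_num
    have := Real.add_one_le_exp (1 : ℝ)
    rw [h6]
    nlinarith
  calc (j * (4 * K)) ^ 71 ≤ (Real.exp (δ / 284 * y) * (Real.exp 2 * Real.exp (δ / 284 * y))) ^ 71 := by gcongr
    _ = Real.exp (71 * (δ / 284 * y + (2 + δ / 284 * y))) := by
      rw [← Real.exp_add, ← Real.exp_add, ← Real.exp_nat_mul]
      norm_num
    _ ≤ Real.exp (δ * y) := by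
      apply Real.exp_le_exp.2
      linarith

/-- the final inequality -/
lemma par_f (ε C c1 c2 : ℝ) (hε : 0 < ε) (hε1 : ε ≤ 1 / 100) (hC : 0 < C) (h1 : 0 < c1) (h11 : c1 ≤ 1)
    (h2 : c2 = c1 ^ 2 / 10 ^ 8) : ∀ᶠ y : ℝ in atTop,
    ∀ V : ℝ, 0 ≤ V → V ≤ 300 * (c2 * y ^ 2) / ((c1 * y / 2) * (Real.log y / 2)) → ∀ k : ℕ, (k : ℝ) ≤ 8 * V + 3 →
    ∀ Z : ℕ, (Z : ℝ) ≤ y ^ 2 →
    25 * Real.exp ((1 - ε) * y) ≤ Real.exp ((1 - ε / 2) * y) * (Real.exp (-(2 * V)) / 2) -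
      C * ((Z : ℝ) + 1) ^ (16 * k) * Real.exp (24 / 25 * y) := by
  filter_upwards [ev_log_ge 1, ev_log_ge (1 / ε), ev_log_pow 1 144 (1 / 200) (by norm_num),
    ev_lin (Real.log C) (1 / 100) (by norm_num), ev_lin 4 (ε / 4) (by positivity), eventually_ge_atTop (10 : ℝ)]
    with y g1 g2 g3 g4 g5 g6
  intro V hV0 hV k hk Z hZ
  have hy0 : (0 : ℝ) < y := by linarith
  obtain ⟨w, hw⟩ : ∃ w : ℝ, w = Real.log y := ⟨_, rfl⟩
  rw [← hw] at g1 g2 g3 hV
  rw [pow_one] at g3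
  have hw0 : 0 < w := by linarith
  have hVw : V * w ≤ 1200 / 10 ^ 8 * y := by
    have h3 : 300 * (c2 * y ^ 2) / ((c1 * y / 2) * (w / 2)) * w = 1200 / 10 ^ 8 * c1 * y := by
      rw [h2]; field_simp; ring
    have h4 : V * w ≤ 300 * (c2 * y ^ 2) / ((c1 * y / 2) * (w / 2)) * w := mul_le_mul_of_nonneg_right hV hw0.le
    rw [h3] at h4
    have h5 : c1 * y ≤ 1 * y := mul_le_mul_of_nonneg_right h11 hy0.le
    nlinarith
  have hVε : V ≤ ε / 8 * y := by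
    have h3 : 1 ≤ ε * w := by
      rw [div_le_iff₀ hε] at g2
      linarith
    have h4 : V ≤ V * (ε * w) := by nlinarith
    have h5 : V * (ε * w) = ε * (V * w) := by ring
    have h6 : ε * (V * w) ≤ ε * (1200 / 10 ^ 8 * y) := mul_le_mul_of_nonneg_left hVw hε.le
    have h7 : ε * (1200 / 10 ^ 8 * y) ≤ ε / 8 * y := by
      have : 0 ≤ ε * y := by positivity
      nlinarith
    linarith
  -- main term
  have hmain : 26 * Real.exp ((1 - ε) * y) ≤ Real.exp ((1 - ε / 2) * y) * (Real.exp (-(2 * V)) / 2) := by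
    have h3 : Real.exp ((1 - ε / 2) * y) * (Real.exp (-(2 * V)) / 2) = Real.exp ((1 - ε / 2) * y - 2 * V) / 2 := by
      rw [Real.exp_sub, Real.exp_neg]; field_simp
    have h4 : Real.exp ((1 - ε) * y + 4) ≤ Real.exp ((1 - ε / 2) * y - 2 * V) := by
      apply Real.exp_le_exp.2
      linarith
    rw [Real.exp_add] at h4
    have h5 : (52 : ℝ) ≤ Real.exp 4 := by
      have h6 : Real.exp 4 = (Real.exp 1) ^ 4 := by rw [← Real.exp_nat_mul]; norm_num
      rw [h6]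
      have h7 := Real.exp_one_gt_d9
      calc (52 : ℝ) ≤ 2.7 ^ 4 := by norm_num
        _ ≤ Real.exp 1 ^ 4 := by
          apply pow_le_pow_left₀ (by norm_num)
          linarith
    rw [h3]
    have h6 := mul_le_mul_of_nonneg_left h5 (Real.exp_pos ((1 - ε) * y)).le
    linarith
  -- error
  have hZe : (Z : ℝ) + 1 ≤ Real.exp (3 * w) := by
    have h3 : Real.exp (3 * w) = y ^ 3 := by
      rw [hw]
      have : 3 * Real.log y = Real.log (y ^ 3) := by rw [Real.log_pow]; push_cast; ring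
      rw [this, Real.exp_log (by positivity)]
    rw [h3]
    nlinarith [mul_pos hy0 hy0]
  have hZ0 : (0 : ℝ) ≤ Z := Nat.cast_nonneg Z
  have herr : C * ((Z : ℝ) + 1) ^ (16 * k) * Real.exp (24 / 25 * y) ≤ Real.exp ((1 - ε) * y) := by
    have h3 : ((Z : ℝ) + 1) ^ (16 * k) ≤ Real.exp (1 / 100 * y) := by
      calc ((Z : ℝ) + 1) ^ (16 * k) ≤ (Real.exp (3 * w)) ^ (16 * k) := by gcongr
        _ = Real.exp (48 * (k * w)) := by
          rw [← Real.exp_nat_mul]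
          congr 1
          push_cast
          ring
        _ ≤ Real.exp (1 / 100 * y) := by
          apply Real.exp_le_exp.2
          have h4 : (k : ℝ) * w ≤ (8 * V + 3) * w := mul_le_mul_of_nonneg_right hk hw0.le
          nlinarith
    have h4 : C ≤ Real.exp (1 / 100 * y) := by
      rw [← Real.exp_log hC]
      exact Real.exp_le_exp.2 g4
    calc C * ((Z : ℝ) + 1) ^ (16 * k) * Real.exp (24 / 25 * y) ≤
          Real.exp (1 / 100 * y) * Real.exp (1 / 100 * y) * Real.exp (24 / 25 * y) := by gcongr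
      _ = Real.exp (1 / 100 * y + 1 / 100 * y + 24 / 25 * y) := by rw [← Real.exp_add, ← Real.exp_add]
      _ ≤ _ := by
        apply Real.exp_le_exp.2
        nlinarith
  linarith

end Pool.Agent.X9.SQ
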