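import Pool.Agent.X9.SQ.MainS
import Pool.Agent.X9.SQ.Par

/-!
# All prime factors of `2 ^ (x + y) + 2 ^ (z + w) + 1` are larger than `c (log n) ^ 2`
-/

set_option autoImplicit false
open Finset Filter

namespace Pool.Agent.X9.SQ
open Pool.Agent.W65.FS Pool.Agent.TH696.FA

lemma log_lcm3 (Y : ℕ) : Real.log ((Nat.lcmUpto Y ^ 3 : ℕ) : ℝ) ≤ 18 * Y := by
  push_cast
  rw [Real.log_pow, ← Chebyshev.psi_eq_log_lcmUpto]
  have h1 := Chebyshev.psi_le_const_mul_self (x := (Y : ℝ)) (by positivity)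
  have h4 : Real.log 4 ≤ 2 := by
    have : Real.log 4 = 2 * Real.log 2 := by
      rw [show (4 : ℝ) = 2 ^ 2 by norm_num, Real.log_pow]; norm_num
    rw [this]
    have := Real.log_two_lt_d9
    linarith
  have hY : (0 : ℝ) ≤ Y := Nat.cast_nonneg Y
  have h5 : (Real.log 4 + 4) * Y ≤ 6 * Y := mul_le_mul_of_nonneg_right (by linarith) hY
  push_cast
  linarith

/-- one value of `n` -/
lemma one_step (Lb Z : ℕ) (hLb : 16 ≤ Lb) (hZ : 200 * Z ≤ Lb ^ 2) :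
    (∀ l ∈ (Ioc Lb Z).filter Nat.Prime, l.Prime ∧ 16 ≤ l ∧ l ≤ Z ∧ ¬ l ∣ 4 * Nat.lcmUpto Lb ^ 3 ∧
      100 * (Z : ℝ) / (l : ℝ) ^ 2 ≤ 1 / 2 ∧
      50 * (((Finset.range (Z + 1)).filter (fun q => q.Prime ∧ q ≠ 2 ∧ l ∣ orderOf (2 : ZMod q))).card : ℝ) * (l : ℝ) ^ 2 ≤
      100 * (Z : ℝ) / (l : ℝ) ^ 2 * ((l : ℝ) ^ 3 - l)) ∧
    ∑ l ∈ (Ioc Lb Z).filter Nat.Prime, 100 * (Z : ℝ) / (l : ℝ) ^ 2 ≤ 300 * Z / (Lb * Real.log Lb) := by
  constructor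
  · intro l hl
    rw [Finset.mem_filter, Finset.mem_Ioc] at hl
    obtain ⟨⟨hl1, hl2⟩, hlp⟩ := hl
    have hlr : (16 : ℝ) ≤ l := by exact_mod_cast (by omega : 16 ≤ l)
    have hlpos : (0 : ℝ) < l := by linarith
    refine ⟨hlp, by omega, hl2, ?_, ?_, ?_⟩
    · intro h
      rcases hlp.dvd_mul.1 h with h | h
      · have := Nat.le_of_dvd (by norm_num) h
        omega
      · have := prime_dvd_lcmUpto l Lb hlp (hlp.dvd_of_dvd_pow h)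
        omega
    · rw [div_le_div_iff₀ (by positivity) (by norm_num)]
      have h1 : 200 * Z ≤ l ^ 2 := hZ.trans (Nat.pow_le_pow_left hl1.le 2)
      have h2 : (200 : ℝ) * Z ≤ (l : ℝ) ^ 2 := by exact_mod_cast h1
      linarith
    · have h1 := card_q Z l hlp.pos
      have h2 : (((Finset.range (Z + 1)).filter (fun q => q.Prime ∧ q ≠ 2 ∧ l ∣ orderOf (2 : ZMod q))).card : ℝ) ≤ (Z : ℝ) / l := by
        refine le_trans ?_ Nat.cast_div_le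
        exact_mod_cast h1
      calc 50 * (((Finset.range (Z + 1)).filter (fun q => q.Prime ∧ q ≠ 2 ∧ l ∣ orderOf (2 : ZMod q))).card : ℝ) * (l : ℝ) ^ 2
          ≤ 50 * ((Z : ℝ) / l) * (l : ℝ) ^ 2 := by gcongr
        _ = 50 * (Z : ℝ) * (l : ℝ) := by field_simp
        _ ≤ 100 * (Z : ℝ) / (l : ℝ) ^ 2 * ((l : ℝ) ^ 3 - l) := by
          rw [div_mul_eq_mul_div, le_div_iff₀ (by positivity)]
          have hZ0 : (0 : ℝ) ≤ Z := Nat.cast_nonneg Z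
          have h3 : (l : ℝ) * (l : ℝ) ^ 2 ≤ 2 * ((l : ℝ) ^ 3 - l) := by nlinarith [mul_pos hlpos hlpos]
          calc 50 * (Z : ℝ) * l * (l : ℝ) ^ 2 = (50 * Z) * ((l : ℝ) * (l : ℝ) ^ 2) := by ring
            _ ≤ (50 * Z) * (2 * ((l : ℝ) ^ 3 - l)) := by gcongr
            _ = _ := by ring
  · have h1 := tail_prime Lb (by omega) Z
    calc ∑ l ∈ (Ioc Lb Z).filter Nat.Prime, 100 * (Z : ℝ) / (l : ℝ) ^ 2 =
        100 * (Z : ℝ) * ∑ l ∈ (Ioc Lb Z).filter Nat.Prime, 1 / (l : ℝ) ^ 2 := by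
          rw [Finset.mul_sum]
          apply Finset.sum_congr rfl
          intro l _
          ring
      _ ≤ 100 * (Z : ℝ) * (3 / (Lb * Real.log Lb)) := by gcongr
      _ = _ := by ring

/-- a prime `q ≤ Z` does not divide -/
lemma no_small (Lb Z K : ℕ) (hK : K = Nat.lcmUpto Lb ^ 3) (hZ : 200 * Z ≤ Lb ^ 2) (N : ℕ)
    (h1 : Nat.Coprime N (2 * (2 ^ K - 1)))
    (h2 : ∀ l ∈ (Ioc Lb Z).filter Nat.Prime, ∀ q ∈ Finset.range (Z + 1), q.Prime → q ≠ 2 →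
      l ∣ orderOf (2 : ZMod q) → orderOf (2 : ZMod q) ∣ K * l → ¬ q ∣ N) (q : ℕ) (hq : q.Prime) (hqN : q ∣ N) : Z < q := by
  by_contra hle
  push Not at hle
  have hcop : Nat.Coprime q (2 * (2 ^ K - 1)) := Nat.Coprime.coprime_dvd_left hqN h1
  rw [Nat.Prime.coprime_iff_not_dvd hq] at hcop
  have hq2 : q ≠ 2 := by
    rintro rfl
    exact hcop (dvd_mul_right _ _)
  have : Fact q.Prime := ⟨hq⟩
  have h20 : (2 : ZMod q) ≠ 0 := by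
    intro h
    have h3 : ((2 : ℕ) : ZMod q) = 0 := by exact_mod_cast h
    rw [ZMod.natCast_eq_zero_iff] at h3
    exact hq2 ((Nat.prime_dvd_prime_iff_eq hq Nat.prime_two).1 h3)
  obtain ⟨d, hd⟩ : ∃ d : ℕ, d = orderOf (2 : ZMod q) := ⟨_, rfl⟩
  have hdq : d ∣ q - 1 := by rw [hd]; exact orderOf_dvd_iff_pow_eq_one.2 (ZMod.pow_card_sub_one_eq_one h20)
  have hq1 := hq.two_le
  have hdpos : 0 < d := Nat.pos_of_dvd_of_pos hdq (by omega)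
  have hdle : d ≤ q - 1 := Nat.le_of_dvd (by omega) hdq
  rcases order_split Lb d hdpos (by omega) with h | ⟨l, hl, hLl, hld, hdl⟩
  · apply hcop
    apply Dvd.dvd.mul_left
    rw [← hK, hd] at h
    have h3 : (2 : ZMod q) ^ K = 1 := orderOf_dvd_iff_pow_eq_one.1 h
    have h4 : ((2 ^ K - 1 : ℕ) : ZMod q) = 0 := by
      rw [Nat.cast_sub Nat.one_le_two_pow]
      push_cast
      rw [h3]
      ring
    exact (ZMod.natCast_eq_zero_iff _ _).1 h4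
  · have hle2 : l ≤ d := Nat.le_of_dvd hdpos hld
    apply h2 l _ q _ hq hq2 _ _ hqN
    · rw [Finset.mem_filter, Finset.mem_Ioc]
      exact ⟨⟨hLl, by omega⟩, hl⟩
    · rw [Finset.mem_range]
      omega
    · rw [← hd]; exact hld
    · rw [← hd, hK]; exact hdl

theorem fin1_small (ε : ℝ) (hε : 0 < ε) (hε1 : ε ≤ 1 / 100) : ∃ c : ℝ, 0 < c ∧ ∃ n0 : ℕ, ∀ n : ℕ, n0 ≤ n → Odd n →
    ∃ S : Finset (ℕ × ℕ × ℕ × ℕ), (n : ℝ) ^ (1 - ε) ≤ (S.card : ℝ) ∧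
      ∀ x y z w : ℕ, (x, y, z, w) ∈ S → n = x ^ 2 + y ^ 2 + z ^ 2 + w ^ 2 ∧
        ∀ q : ℕ, q.Prime → q ∣ 2 ^ (x + y) + 2 ^ (z + w) + 1 → c * Real.log n ^ 2 < q := by
  classical
  obtain ⟨C, hC, δ, hδ, n1, hmain⟩ := main_sieve (ε / 2) (by positivity)
  obtain ⟨c1, hc1⟩ : ∃ c1 : ℝ, c1 = min 1 (δ / 5112) := ⟨_, rfl⟩
  have hc1pos : 0 < c1 := by rw [hc1]; exact lt_min one_pos (by positivity)
  have hc11 : c1 ≤ 1 := by rw [hc1]; exact min_le_left _ _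
  have hc1δ : c1 ≤ δ / 5112 := by rw [hc1]; exact min_le_right _ _
  obtain ⟨c2, hc2⟩ : ∃ c2 : ℝ, c2 = c1 ^ 2 / 10 ^ 8 := ⟨_, rfl⟩
  have hc2pos : 0 < c2 := by rw [hc2]; positivity
  have hev := (par_ab c1 c2 hc1pos hc11 hc2).and ((par_d (δ / 284) (by positivity)).and
    ((par_e δ c1 hδ hc1pos hc1δ).and ((par_f ε C c1 c2 hε hε1 hC hc1pos hc11 hc2).and
      ((ev_log_ge 1).and (ev_log_ge (2 * Real.log (2 / c1)))))))
  have htend : Tendsto (fun n : ℕ => Real.log (n : ℝ)) atTop atTop :=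
    Real.tendsto_log_atTop.comp tendsto_natCast_atTop_atTop
  have hev2 := htend.eventually hev
  rw [Filter.eventually_atTop] at hev2
  obtain ⟨n2, hn2⟩ := hev2
  refine ⟨c2, hc2pos, n1 + n2 + 1, ?_⟩
  intro n hn hno
  obtain ⟨⟨gLb, gZ1, gZL, gLbr, gZr, gZy, gy⟩, gd, ge, gf, gl1, gl2⟩ := hn2 n (by omega)
  have hnpos : (0 : ℝ) < n := by exact_mod_cast hno.pos
  obtain ⟨y, hy⟩ : ∃ y : ℝ, y = Real.log (n : ℝ) := ⟨_, rfl⟩
  rw [← hy] at gLb gZ1 gZL gLbr gZr gZy gy gd ge gf gl1 gl2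
  have hexp : Real.exp y = n := by rw [hy, Real.exp_log hnpos]
  have hrp : ∀ a : ℝ, (n : ℝ) ^ a = Real.exp (a * y) := by
    intro a
    rw [Real.rpow_def_of_pos hnpos, ← hy, mul_comm]
  obtain ⟨Lb, hLb⟩ : ∃ Lb : ℕ, Lb = ⌊c1 * y⌋₊ := ⟨_, rfl⟩
  obtain ⟨Z, hZ⟩ : ∃ Z : ℕ, Z = ⌊c2 * y ^ 2⌋₊ := ⟨_, rfl⟩
  rw [← hLb] at gLb gZL gLbr ge
  rw [← hZ] at gZ1 gZL gZr
  have hZy2 : (Z : ℝ) ≤ y ^ 2 := gZr.trans gZy
  obtain ⟨J, hJ⟩ : ∃ J : ℕ, J = ⌊Real.exp (δ / 284 * y)⌋₊ := ⟨_, rfl⟩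
  have gd' := gd Z gZ1 hZy2
  rw [← hJ] at gd' ge
  obtain ⟨K, hK⟩ : ∃ K : ℕ, K = Nat.lcmUpto Lb ^ 3 := ⟨_, rfl⟩
  have hKpos : 0 < K := by rw [hK]; exact pow_pos (Nat.lcmUpto_pos Lb) 3
  obtain ⟨hP, hsum⟩ := one_step Lb Z gLb gZL
  rw [← hK] at hP
  obtain ⟨P, hPd⟩ : ∃ P : Finset ℕ, P = (Ioc Lb Z).filter Nat.Prime := ⟨_, rfl⟩
  rw [← hPd] at hP hsum
  -- the choice of j
  obtain ⟨j, hj1, hj2, hj3⟩ := exists_j Z P (fun l hl => ⟨(hP l hl).1, (hP l hl).2.1, (hP l hl).2.2.1⟩) (4 * K)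
    (fun l hl => (hP l hl).2.2.2.1) J gZ1 gd'
  -- the parameter V
  have hy0 : 0 < y := by linarith
  have hLbpos : (0 : ℝ) < Lb := by exact_mod_cast (by omega : 0 < Lb)
  have hlogLb : Real.log y / 2 ≤ Real.log Lb := by
    have h1 : Real.log (c1 * y / 2) ≤ Real.log Lb := Real.log_le_log (by positivity) gLbr
    have h2 : Real.log (c1 * y / 2) = Real.log y - Real.log (2 / c1) := by
      rw [← Real.log_div hy0.ne' (by positivity)]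
      congr 1
      field_simp
    linarith
  obtain ⟨V, hV⟩ : ∃ V : ℝ, V = 300 * Z / (Lb * Real.log Lb) := ⟨_, rfl⟩
  have hlogLb0 : 0 < Real.log Lb := by linarith
  have hV0 : 0 ≤ V := by rw [hV]; positivity
  have hVle : V ≤ 300 * (c2 * y ^ 2) / ((c1 * y / 2) * (Real.log y / 2)) := by
    rw [hV]
    apply div_le_div₀ (by positivity) (by linarith) (by positivity)
    apply mul_le_mul gLbr hlogLb (by linarith) hLbpos.le
  rw [← hV] at hsum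
  obtain ⟨k, hk, hsv⟩ := hmain V hV0
  have hfin := gf V hV0 hVle k hk Z hZy2
  have hsize : ((j * (4 * K) : ℕ) : ℝ) ^ 71 ≤ (n : ℝ) ^ δ := by
    have h1 := ge (K : ℝ) (by exact_mod_cast hKpos) (by rw [hK]; exact log_lcm3 Lb) (j : ℝ) (Nat.cast_nonneg j)
      (by exact_mod_cast hj2)
    rw [hrp]
    push_cast
    exact h1
  obtain ⟨S, hS1, hS2⟩ := hsv n K j (by omega) hno hKpos (by omega) hsize Z P (fun _ => Finset.range (Z + 1))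
    (fun l hl => ⟨(hP l hl).1, (hP l hl).2.2.1, (hP l hl).2.2.2.1, by
      have := hj3 l hl
      rw [← Nat.cast_mul] at this
      exact this⟩) (fun l => 100 * (Z : ℝ) / (l : ℝ) ^ 2)
    (fun l hl => ⟨(hP l hl).2.2.2.2.1, (hP l hl).2.2.2.2.2⟩) hsum
  refine ⟨S, ?_, ?_⟩
  · rw [hrp] at hS1
    rw [hrp (24 / 25)] at hS1
    rw [hrp]
    linarith
  · intro x y' z w hxyzw
    obtain ⟨g1, g2, g3⟩ := hS2 x y' z w hxyzw
    refine ⟨g1, fun q hq hqN => ?_⟩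
    have h1 := no_small Lb Z K hK gZL _ g2 (by rw [← hPd]; exact g3) q hq hqN
    have h2 : c2 * y ^ 2 < Z + 1 := by rw [hZ]; exact Nat.lt_floor_add_one _
    have h3 : ((Z + 1 : ℕ) : ℝ) ≤ q := by exact_mod_cast h1
    push_cast at h3
    rw [← hy]
    linarith

theorem fin1 (ε : ℝ) (hε : 0 < ε) : ∃ c : ℝ, 0 < c ∧ ∃ n0 : ℕ, ∀ n : ℕ, n0 ≤ n → Odd n →
    ∃ S : Finset (ℕ × ℕ × ℕ × ℕ), (n : ℝ) ^ (1 - ε) ≤ (S.card : ℝ) ∧
      ∀ x y z w : ℕ, (x, y, z, w) ∈ S → n = x ^ 2 + y ^ 2 + z ^ 2 + w ^ 2 ∧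
        ∀ q : ℕ, q.Prime → q ∣ 2 ^ (x + y) + 2 ^ (z + w) + 1 → c * Real.log n ^ 2 < q := by
  obtain ⟨c, hc, n0, h⟩ := fin1_small (min ε (1 / 100)) (lt_min hε (by norm_num)) (min_le_right _ _)
  refine ⟨c, hc, n0, fun n hn hno => ?_⟩
  obtain ⟨S, h1, h2⟩ := h n hn hno
  refine ⟨S, le_trans ?_ h1, h2⟩
  apply Real.rpow_le_rpow_of_exponent_le (by exact_mod_cast hno.pos)
  have := min_le_left ε (1 / 100)
  linarith

end Pool.Agent.X9.SQ
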