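import Pool.Agent.X9.SQ.Pure2
import Pool.Agent.W65.FS.Dist

/-!
# Integers `j` with `N(jD)` free of prime factors from a given set
-/

set_option autoImplicit false
open Finset

namespace Pool.Agent.X9.SQ
open Pool.Agent.W65.FS

/-- an arithmetic progression in an interval -/
lemma ap_count (J m a : ℕ) (hm : 0 < m) :
    |((((Ioc 0 J).filter (fun x => x ≡ a [MOD m])).card : ℕ) : ℝ) - (J : ℝ) / m| ≤ 1 := by
  have h := Nat.Ioc_filter_modEq_card 0 J hm a
  have hm' : (0 : ℚ) < m := by exact_mod_cast hm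
  obtain ⟨A, hA⟩ : ∃ A : ℤ, A = ⌊((J : ℚ) - a) / m⌋ := ⟨_, rfl⟩
  obtain ⟨B, hB⟩ : ∃ B : ℤ, B = ⌊(((0 : ℕ) : ℚ) - a) / m⌋ := ⟨_, rfl⟩
  rw [← hA, ← hB] at h
  have hA1 : (A : ℚ) ≤ ((J : ℚ) - a) / m := by rw [hA]; exact Int.floor_le _
  have hA2 : ((J : ℚ) - a) / m < A + 1 := by rw [hA]; exact Int.lt_floor_add_one _
  have hB1 : (B : ℚ) ≤ (((0 : ℕ) : ℚ) - a) / m := by rw [hB]; exact Int.floor_le _
  have hB2 : (((0 : ℕ) : ℚ) - a) / m < B + 1 := by rw [hB]; exact Int.lt_floor_add_one _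
  have hBA : B ≤ A := by
    rw [hA, hB]
    apply Int.floor_le_floor
    apply div_le_div_of_nonneg_right _ hm'.le
    push_cast
    have : (0 : ℚ) ≤ J := Nat.cast_nonneg J
    linarith
  rw [max_eq_left (by omega)] at h
  have h2 : ((((Ioc 0 J).filter (fun x => x ≡ a [MOD m])).card : ℕ) : ℚ) = (A : ℚ) - B := by
    have : ((((Ioc 0 J).filter (fun x => x ≡ a [MOD m])).card : ℤ) : ℚ) = ((A - B : ℤ) : ℚ) := by rw [h]
    push_cast at this
    exact_mod_cast this
  have h3 : |((((Ioc 0 J).filter (fun x => x ≡ a [MOD m])).card : ℕ) : ℚ) - (J : ℚ) / m| ≤ 1 := by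
    rw [h2, abs_le]
    have e : ((J : ℚ) - a) / m - (((0 : ℕ) : ℚ) - a) / m = (J : ℚ) / m := by
      push_cast; field_simp; ring
    constructor <;> linarith
  have h4 := (Rat.cast_le (K := ℝ)).2 h3
  push_cast at h4
  exact_mod_cast h4

/-- residues modulo several primes -/
lemma ap_count_T (J : ℕ) (T : Finset ℕ) (hT : ∀ l ∈ T, l.Prime) (A : ℕ → Finset ℕ) (hA : ∀ l ∈ T, ∀ a ∈ A l, a < l) :
    |((((Ioc 0 J).filter (fun x => ∀ l ∈ T, x % l ∈ A l)).card : ℕ) : ℝ) - (∏ l ∈ T, ((A l).card : ℝ) / l) * J| ≤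
      ∏ l ∈ T, ((A l).card : ℝ) := by
  classical
  obtain ⟨m, hm⟩ : ∃ m : ℕ, m = ∏ l ∈ T, l := ⟨_, rfl⟩
  have hmpos : 0 < m := by rw [hm]; exact Finset.prod_pos fun l hl => (hT l hl).pos
  have h1 : ((Ioc 0 J).filter (fun x => ∀ l ∈ T, x % l ∈ A l)).card =
      ∑ c ∈ T.pi A, ((Ioc 0 J).filter (fun x => ∀ l (h : l ∈ T), x % l = c l h)).card := by
    rw [Finset.card_eq_sum_card_fiberwise (f := fun x => fun l (_ : l ∈ T) => x % l) (t := T.pi A)]
    · apply Finset.sum_congr rfl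
      intro c hc
      congr 1
      ext X
      rw [Finset.mem_filter, Finset.mem_filter, Finset.mem_filter]
      constructor
      · rintro ⟨⟨h1, _⟩, h2⟩
        refine ⟨h1, fun l hl => ?_⟩
        exact congrFun (congrFun h2 l) hl
      · rintro ⟨h1, h2⟩
        refine ⟨⟨h1, fun l hl => ?_⟩, ?_⟩
        · rw [h2 l hl]
          exact (Finset.mem_pi.1 hc) l hl
        · funext l hl
          exact h2 l hl
    · intro X hX
      rw [Finset.mem_coe, Finset.mem_filter] at hX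
      rw [Finset.mem_coe, Finset.mem_pi]
      intro l hl
      exact hX.2 l hl
  have h2 : ∀ c ∈ T.pi A, |((((Ioc 0 J).filter (fun x => ∀ l (h : l ∈ T), x % l = c l h)).card : ℕ) : ℝ) - (J : ℝ) / m| ≤ 1 := by
    intro c hc
    have hcm := fun l hl => (Finset.mem_pi.1 hc) l hl
    obtain ⟨x, _, hx⟩ := crt_exists 1 0 T (fun l hl => ⟨hT l hl, fun h => (hT l hl).one_lt.ne' (Nat.dvd_one.1 h)⟩)
      (fun l => if h : l ∈ T then (c l h : ℤ) else 0)
    obtain ⟨a, ha⟩ : ∃ a : ℕ, (a : ℤ) = x % m := ⟨(x % m).toNat, Int.toNat_of_nonneg (Int.emod_nonneg _ (by exact_mod_cast hmpos.ne'))⟩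
    have e : (Ioc 0 J).filter (fun y => ∀ l (h : l ∈ T), y % l = c l h) = (Ioc 0 J).filter (fun y => y ≡ a [MOD m]) := by
      apply Finset.filter_congr
      intro y _
      have hxa : (m : ℤ) ∣ x - a := by rw [ha]; exact Int.dvd_self_sub_emod
      constructor
      · intro h
        have h3 : ∀ l ∈ T, (l : ℤ) ∣ (y : ℤ) - a := by
          intro l hl
          have h4 := hx l hl
          rw [dif_pos hl] at h4
          have h5 : (l : ℤ) ∣ (y : ℤ) - c l hl := by
            rw [← h l hl]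
            push_cast
            exact Int.dvd_self_sub_emod
          have h6 : (l : ℤ) ∣ x - a := (Int.natCast_dvd_natCast.2 (by rw [hm]; exact Finset.dvd_prod_of_mem _ hl)).trans hxa
          have e2 : (y : ℤ) - a = (y - c l hl) - (x - c l hl) + (x - a) := by ring
          rw [e2]
          exact dvd_add (dvd_sub h5 h4) h6
        have h4 := (dvd_all 1 T (fun l hl => ⟨hT l hl, fun h => (hT l hl).one_lt.ne' (Nat.dvd_one.1 h)⟩) ((y : ℤ) - a)).2
          ⟨by simp, h3⟩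
        rw [one_mul, ← hm] at h4
        exact ((Nat.modEq_iff_dvd).2 h4).symm
      · intro h l hl
        have h3 : (m : ℤ) ∣ (y : ℤ) - a := (Nat.modEq_iff_dvd).1 h.symm
        have hlm : (l : ℤ) ∣ m := Int.natCast_dvd_natCast.2 (by rw [hm]; exact Finset.dvd_prod_of_mem _ hl)
        have h4 := hx l hl
        rw [dif_pos hl] at h4
        have e2 : (y : ℤ) - c l hl = (y - a) - (x - a) + (x - c l hl) := by ring
        have h5 : (l : ℤ) ∣ (y : ℤ) - c l hl := by
          rw [e2]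
          exact dvd_add (dvd_sub (hlm.trans h3) (hlm.trans hxa)) h4
        have h6 : y ≡ c l hl [MOD l] := ((Nat.modEq_iff_dvd).2 h5).symm
        have h7 : c l hl % l = c l hl := Nat.mod_eq_of_lt (hA l hl _ (hcm l hl))
        rw [← h7]
        exact h6
    rw [e]
    exact ap_count J m a hmpos
  have h3 : (∏ l ∈ T, ((A l).card : ℝ) / l) * J = ∑ c ∈ T.pi A, (J : ℝ) / m := by
    rw [Finset.sum_const, nsmul_eq_mul, Finset.card_pi, Finset.prod_div_distrib, hm]
    push_cast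
    ring
  rw [h1, h3]
  push_cast
  rw [← Finset.sum_sub_distrib]
  refine (Finset.abs_sum_le_sum_abs _ _).trans ((Finset.sum_le_sum h2).trans ?_)
  rw [Finset.sum_const, nsmul_eq_mul, mul_one, Finset.card_pi]
  push_cast
  exact le_refl _

end Pool.Agent.X9.SQ
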