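import Mathlib

/-!
# The sum of `1 / p ^ 2` over the primes `p > z`

(Adapted from `Pool.Agent.W880.GM.Exc` of the starting library.)
-/

set_option autoImplicit false
open Finset

namespace Pool.Agent.X9.SQ

/-- Chebyshev's function -/
noncomputable def th (N : ℕ) : ℝ := ∑ p ∈ (range (N + 1)).filter Nat.Prime, Real.log p

lemma th_le (N : ℕ) : th N ≤ N * Real.log 4 := by
  have h1 := primorial_le_four_pow N
  have h2 : th N = Real.log (primorial N) := by
    unfold th primorial
    push_cast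
    rw [Real.log_prod]
    intro p hp
    have := (mem_filter.1 hp).2.pos
    positivity
  rw [h2]
  have h3 : ((primorial N : ℕ) : ℝ) ≤ (4 : ℝ) ^ N := by exact_mod_cast h1
  have h4 : (0 : ℝ) < primorial N := by exact_mod_cast primorial_pos N
  calc Real.log (primorial N) ≤ Real.log ((4 : ℝ) ^ N) := Real.log_le_log h4 h3
    _ = N * Real.log 4 := by rw [Real.log_pow]

lemma th_nonneg (N : ℕ) : 0 ≤ th N := by
  unfold th
  refine sum_nonneg fun p hp => Real.log_natCast_nonneg p

lemma th_succ (N : ℕ) : th (N + 1) = th N + if (N + 1).Prime then Real.log ((N + 1 : ℕ) : ℝ) else 0 := by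
  unfold th
  rw [sum_filter, sum_filter, sum_range_succ]

lemma log_four_le : Real.log 4 ≤ 3 / 2 := by
  have h : (4 : ℝ) = 2 ^ 2 := by norm_num
  rw [h, Real.log_pow]
  have := Real.log_two_lt_d9
  push_cast
  linarith

lemma tail_aux (z : ℕ) (hz : 1 ≤ z) (N : ℕ) (hN : z ≤ N) :
    ∑ p ∈ (Ioc z N).filter Nat.Prime, Real.log p / (p : ℝ) ^ 2 ≤
      th N / (N : ℝ) ^ 2 + 3 * (1 / (z : ℝ) - 1 / N) := by
  induction N, hN using Nat.le_induction with
  | base =>
    simp only [Ioc_self, filter_empty, sum_empty, sub_self, mul_zero, add_zero]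
    have := th_nonneg z
    positivity
  | succ N hN ih =>
    have hN1 : 1 ≤ N := hz.trans hN
    have hNR : (1 : ℝ) ≤ N := by exact_mod_cast hN1
    rw [sum_filter, ← Finset.insert_Ioc_right_eq_Ioc_add_one hN, sum_insert (by simp)]
    rw [sum_filter] at ih
    have h1 := th_succ N
    have h2 := th_le N
    have h3 := log_four_le
    have h5 : (if (N + 1).Prime then Real.log ((N + 1 : ℕ) : ℝ) / ((N + 1 : ℕ) : ℝ) ^ 2 else 0) =
        (th (N + 1) - th N) / ((N + 1 : ℕ) : ℝ) ^ 2 := by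
      rw [h1]
      split_ifs <;> simp
    rw [h5]
    have h6 : th N * (1 / (N : ℝ) ^ 2 - 1 / ((N : ℝ) + 1) ^ 2) ≤
        3 * (1 / (N : ℝ) - 1 / ((N : ℝ) + 1)) := by
      have h7 : 1 / (N : ℝ) ^ 2 - 1 / ((N : ℝ) + 1) ^ 2 =
        (2 * N + 1) / ((N : ℝ) ^ 2 * ((N : ℝ) + 1) ^ 2) := by
        field_simp
        ring
      have h8 : 1 / (N : ℝ) - 1 / ((N : ℝ) + 1) = 1 / (N * (N + 1)) := by
        field_simp
        ring
      rw [h7, h8]
      have h9 : th N ≤ N * (3 / 2) := by
        refine h2.trans ?_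
        exact mul_le_mul_of_nonneg_left h3 (by positivity)
      calc th N * ((2 * N + 1) / ((N : ℝ) ^ 2 * ((N : ℝ) + 1) ^ 2))
          ≤ (N * (3 / 2)) * ((2 * N + 1) / ((N : ℝ) ^ 2 * ((N : ℝ) + 1) ^ 2)) :=
            mul_le_mul_of_nonneg_right h9 (by positivity)
        _ ≤ 3 * (1 / (N * (N + 1))) := by
            rw [← sub_nonneg]
            have : 3 * (1 / ((N : ℝ) * (N + 1))) -
              (N * (3 / 2)) * ((2 * N + 1) / ((N : ℝ) ^ 2 * ((N : ℝ) + 1) ^ 2)) =
              (3 / 2) / (N * ((N : ℝ) + 1) ^ 2) := by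
              field_simp
              ring
            rw [this]
            positivity
    push_cast
    have h10 : th (N + 1) / ((N : ℝ) + 1) ^ 2 = (th (N + 1) - th N) / ((N : ℝ) + 1) ^ 2 +
      th N / ((N : ℝ) + 1) ^ 2 := by ring
    rw [h10]
    have h11 : th N / (N : ℝ) ^ 2 = th N * (1 / (N : ℝ) ^ 2) := by ring
    have h12 : th N / ((N : ℝ) + 1) ^ 2 = th N * (1 / ((N : ℝ) + 1) ^ 2) := by ring
    rw [h12]
    rw [h11] at ih
    linarith

lemma tail_prime (z : ℕ) (hz : 2 ≤ z) (N : ℕ) :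
    ∑ p ∈ (Ioc z N).filter Nat.Prime, 1 / (p : ℝ) ^ 2 ≤ 3 / (z * Real.log z) := by
  have hzR : (2 : ℝ) ≤ z := by exact_mod_cast hz
  have hlog : 0 < Real.log z := Real.log_pos (by linarith)
  rcases le_or_gt N z with h | h
  · rw [Ioc_eq_empty (by omega)]
    simp only [filter_empty, sum_empty]
    positivity
  · have hN : (0 : ℝ) < N := by
      have : 0 < N := by omega
      exact_mod_cast this
    have h1 := tail_aux z (by omega) N h.le
    have h2 : th N / (N : ℝ) ^ 2 ≤ 3 * (1 / N) := by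
      have := th_le N
      have h3 := log_four_le
      rw [div_le_iff₀ (by positivity)]
      have h4 : th N ≤ N * (3 / 2) := this.trans (mul_le_mul_of_nonneg_left h3 hN.le)
      refine h4.trans ?_
      have h5 : 3 * (1 / (N : ℝ)) * (N : ℝ) ^ 2 = 3 * N := by field_simp
      rw [h5]
      nlinarith
    have h3 : ∑ p ∈ (Ioc z N).filter Nat.Prime, Real.log p / (p : ℝ) ^ 2 ≤ 3 / z := by
      refine h1.trans ?_
      have : 3 / (z : ℝ) = 3 * (1 / N) + 3 * (1 / (z : ℝ) - 1 / N) := by ring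
      rw [this]
      linarith
    have h4 : Real.log z * ∑ p ∈ (Ioc z N).filter Nat.Prime, 1 / (p : ℝ) ^ 2 ≤ 3 / z := by
      refine le_trans ?_ h3
      rw [mul_sum]
      refine sum_le_sum fun p hp => ?_
      rw [mem_filter, mem_Ioc] at hp
      have h5 : Real.log z ≤ Real.log p :=
        Real.log_le_log (by linarith) (by exact_mod_cast hp.1.1.le)
      rw [mul_one_div]
      gcongr
    rw [show (3 : ℝ) / (z * Real.log z) = (3 / z) / Real.log z by field_simp]
    rw [le_div_iff₀ hlog]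
    linarith

end Pool.Agent.X9.SQ
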