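import Pool.Agent.X9.SQ.Tail

/-!
# The sum of `p ^ (-κ)` over the primes `p ≤ N`
-/

set_option autoImplicit false
open Finset

namespace Pool.Agent.X9.SQ

/-- `∑ m ^ (-κ) ≤ N ^ (1 - κ) / (1 - κ)` -/
lemma sum_pow_le (κ : ℝ) (h0 : 0 < κ) (h1 : κ < 1) (N : ℕ) :
    ∑ m ∈ Icc 1 N, (m : ℝ) ^ (-κ) ≤ (N : ℝ) ^ (1 - κ) / (1 - κ) := by
  have hk : 0 < 1 - κ := by linarith
  induction N with
  | zero =>
    simp only [Finset.Icc_eq_empty_of_lt zero_lt_one, Finset.sum_empty]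
    positivity
  | succ N ih =>
    rw [← Finset.insert_Icc_right_eq_Icc_add_one (by omega), Finset.sum_insert (by simp)]
    have hN : (0 : ℝ) < (N : ℝ) + 1 := by positivity
    have h2 := rpow_one_add_le_one_add_mul_self (s := -1 / ((N : ℝ) + 1))
      (by rw [le_div_iff₀ hN]; have : (0 : ℝ) ≤ N := Nat.cast_nonneg N; linarith) hk.le (by linarith)
    have e1 : 1 + -1 / ((N : ℝ) + 1) = N / ((N : ℝ) + 1) := by field_simp; ring
    rw [e1, Real.div_rpow (Nat.cast_nonneg N) hN.le] at h2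
    have hp : 0 < ((N : ℝ) + 1) ^ (1 - κ) := Real.rpow_pos_of_pos hN _
    rw [div_le_iff₀ hp] at h2
    have e2 : ((N : ℝ) + 1) ^ (1 - κ) = ((N : ℝ) + 1) * ((N : ℝ) + 1) ^ (-κ) := by
      rw [sub_eq_add_neg, Real.rpow_add hN, Real.rpow_one]
    have h3 : (N : ℝ) ^ (1 - κ) ≤ ((N : ℝ) + 1) ^ (1 - κ) - (1 - κ) * ((N : ℝ) + 1) ^ (-κ) := by
      refine h2.trans (le_of_eq ?_)
      rw [e2]
      field_simp
      ring
    push_cast
    have h4 : (N : ℝ) ^ (1 - κ) / (1 - κ) ≤ (((N : ℝ) + 1) ^ (1 - κ) - (1 - κ) * ((N : ℝ) + 1) ^ (-κ)) / (1 - κ) :=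
      div_le_div_of_nonneg_right h3 hk.le
    have h5 : (((N : ℝ) + 1) ^ (1 - κ) - (1 - κ) * ((N : ℝ) + 1) ^ (-κ)) / (1 - κ) =
        ((N : ℝ) + 1) ^ (1 - κ) / (1 - κ) - ((N : ℝ) + 1) ^ (-κ) := by
      field_simp
    linarith

lemma diff_le (κ : ℝ) (h0 : 0 < κ) (h1 : κ < 1) (N : ℕ) (hN : 1 ≤ N) :
    (N : ℝ) ^ (-κ) - ((N : ℝ) + 1) ^ (-κ) ≤ κ * (N : ℝ) ^ (-κ) / N := by
  have hNr : (1 : ℝ) ≤ N := by exact_mod_cast hN
  have hN0 : (0 : ℝ) < N := by linarith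
  have hN1 : (0 : ℝ) < (N : ℝ) + 1 := by linarith
  have h2 := rpow_one_add_le_one_add_mul_self (s := 1 / (N : ℝ))
    (by have : 0 < 1 / (N : ℝ) := by positivity
        linarith) h0.le h1.le
  have e1 : 1 + 1 / (N : ℝ) = ((N : ℝ) + 1) / N := by field_simp
  rw [e1, Real.div_rpow hN1.le hN0.le, div_le_iff₀ (Real.rpow_pos_of_pos hN0 _)] at h2
  -- (N+1)^κ ≤ (1 + κ/N) N^κ
  have pN : 0 < (N : ℝ) ^ κ := Real.rpow_pos_of_pos hN0 _
  have pN1 : 0 < ((N : ℝ) + 1) ^ κ := Real.rpow_pos_of_pos hN1 _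
  have hle : (N : ℝ) ^ κ ≤ ((N : ℝ) + 1) ^ κ := Real.rpow_le_rpow hN0.le (by linarith) h0.le
  rw [Real.rpow_neg hN0.le, Real.rpow_neg hN1.le]
  have e2 : ((N : ℝ) ^ κ)⁻¹ - (((N : ℝ) + 1) ^ κ)⁻¹ =
      ((((N : ℝ) + 1) ^ κ) - (N : ℝ) ^ κ) * (((N : ℝ) ^ κ)⁻¹ * (((N : ℝ) + 1) ^ κ)⁻¹) := by
    field_simp
  have h3 : ((N : ℝ) + 1) ^ κ - (N : ℝ) ^ κ ≤ κ / N * (N : ℝ) ^ κ := by
    have : (1 + κ * (1 / (N : ℝ))) * (N : ℝ) ^ κ = (N : ℝ) ^ κ + κ / N * (N : ℝ) ^ κ := by ring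
    linarith
  rw [e2]
  calc ((((N : ℝ) + 1) ^ κ) - (N : ℝ) ^ κ) * (((N : ℝ) ^ κ)⁻¹ * (((N : ℝ) + 1) ^ κ)⁻¹)
      ≤ (κ / N * (N : ℝ) ^ κ) * (((N : ℝ) ^ κ)⁻¹ * ((N : ℝ) ^ κ)⁻¹) := by
        apply mul_le_mul h3 _ (by positivity) (by positivity)
        apply mul_le_mul_of_nonneg_left _ (by positivity)
        exact inv_anti₀ pN hle
    _ = κ * ((N : ℝ) ^ κ)⁻¹ / N := by field_simp

lemma th_le' (N : ℕ) : th N ≤ 3 / 2 * N := by
  have h1 := th_le N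
  have h2 := log_four_le
  have h3 : (N : ℝ) * Real.log 4 ≤ N * (3 / 2) := mul_le_mul_of_nonneg_left h2 (Nat.cast_nonneg N)
  linarith

/-- partial summation -/
lemma log_sum_aux (κ : ℝ) (h0 : 0 < κ) (h1 : κ < 1) (N : ℕ) (hN : 1 ≤ N) :
    ∑ p ∈ (Icc 1 N).filter Nat.Prime, Real.log p * (p : ℝ) ^ (-κ) ≤
      th N * (N : ℝ) ^ (-κ) + 3 / 2 * κ * ∑ m ∈ Ico 1 N, (m : ℝ) ^ (-κ) := by
  induction N, hN using Nat.le_induction with
  | base =>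
    have e : (Icc 1 1).filter Nat.Prime = ∅ := by
      ext p
      simp only [Finset.mem_filter, Finset.mem_Icc, Finset.notMem_empty, iff_false, not_and]
      intro h hp
      have := hp.two_le
      omega
    rw [e, Finset.sum_empty]
    have := th_nonneg 1
    positivity
  | succ N hN ih =>
    have hNr : (1 : ℝ) ≤ N := by exact_mod_cast hN
    have hN0 : (0 : ℝ) < N := by linarith
    rw [Finset.sum_filter] at ih ⊢
    rw [← Finset.insert_Icc_right_eq_Icc_add_one (by omega), Finset.sum_insert (by simp), Finset.sum_Ico_succ_top hN]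
    have h2 := th_succ N
    have h3 : (if (N + 1).Prime then Real.log ((N + 1 : ℕ) : ℝ) * ((N + 1 : ℕ) : ℝ) ^ (-κ) else 0) =
        (th (N + 1) - th N) * ((N + 1 : ℕ) : ℝ) ^ (-κ) := by
      rw [h2]
      split_ifs <;> simp
    rw [h3]
    have h4 := diff_le κ h0 h1 N hN
    have h5 : th N * ((N : ℝ) ^ (-κ) - ((N : ℝ) + 1) ^ (-κ)) ≤ (3 / 2 * N) * (κ * (N : ℝ) ^ (-κ) / N) := by
      have h6 : 0 ≤ κ * (N : ℝ) ^ (-κ) / N := by positivity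
      calc th N * ((N : ℝ) ^ (-κ) - ((N : ℝ) + 1) ^ (-κ)) ≤ th N * (κ * (N : ℝ) ^ (-κ) / N) :=
            mul_le_mul_of_nonneg_left h4 (th_nonneg N)
        _ ≤ _ := mul_le_mul_of_nonneg_right (th_le' N) h6
    have h7 : (3 / 2 * (N : ℝ)) * (κ * (N : ℝ) ^ (-κ) / N) = 3 / 2 * κ * (N : ℝ) ^ (-κ) := by field_simp
    push_cast at ih ⊢
    have h10 : th N * (N : ℝ) ^ (-κ) - th N * ((N : ℝ) + 1) ^ (-κ) ≤ 3 / 2 * κ * (N : ℝ) ^ (-κ) := by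
      rw [← mul_sub, ← h7]
      exact h5
    linarith

lemma log_sum (κ : ℝ) (h0 : 0 < κ) (h1 : κ < 1) (N : ℕ) (hN : 1 ≤ N) :
    ∑ p ∈ (Icc 1 N).filter Nat.Prime, Real.log p * (p : ℝ) ^ (-κ) ≤ 3 / 2 * (N : ℝ) ^ (1 - κ) / (1 - κ) := by
  have hk : 0 < 1 - κ := by linarith
  have hNr : (1 : ℝ) ≤ N := by exact_mod_cast hN
  have hN0 : (0 : ℝ) < N := by linarith
  have h2 := log_sum_aux κ h0 h1 N hN
  have h3 := sum_pow_le κ h0 h1 N
  have h4 : ∑ m ∈ Ico 1 N, (m : ℝ) ^ (-κ) ≤ ∑ m ∈ Icc 1 N, (m : ℝ) ^ (-κ) := by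
    apply Finset.sum_le_sum_of_subset_of_nonneg
    · intro m hm
      rw [Finset.mem_Ico] at hm
      exact Finset.mem_Icc.2 ⟨hm.1, hm.2.le⟩
    · intro m _ _
      positivity
  have e2 : (N : ℝ) ^ (1 - κ) = N * (N : ℝ) ^ (-κ) := by
    rw [sub_eq_add_neg, Real.rpow_add hN0, Real.rpow_one]
  have h5 : th N * (N : ℝ) ^ (-κ) ≤ 3 / 2 * (N : ℝ) ^ (1 - κ) := by
    rw [e2]
    have := mul_le_mul_of_nonneg_right (th_le' N) (show 0 ≤ (N : ℝ) ^ (-κ) by positivity)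
    linarith
  have h6 : 3 / 2 * κ * ∑ m ∈ Ico 1 N, (m : ℝ) ^ (-κ) ≤ 3 / 2 * κ * ((N : ℝ) ^ (1 - κ) / (1 - κ)) :=
    mul_le_mul_of_nonneg_left (h4.trans h3) (by positivity)
  have h7 : 3 / 2 * (N : ℝ) ^ (1 - κ) + 3 / 2 * κ * ((N : ℝ) ^ (1 - κ) / (1 - κ)) =
      3 / 2 * (N : ℝ) ^ (1 - κ) / (1 - κ) := by
    field_simp
    ring
  linarith

/-- **the sum over the primes** -/
theorem prime_pow_sum (κ : ℝ) (h0 : 0 < κ) (h1 : κ < 1) (N : ℕ) (hN : 2 ≤ N) :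
    ∑ p ∈ (Icc 1 N).filter Nat.Prime, (p : ℝ) ^ (-κ) ≤ 5 / (1 - κ) ^ 2 * ((N : ℝ) ^ (1 - κ) / Real.log N) := by
  have hk : 0 < 1 - κ := by linarith
  have hNr : (2 : ℝ) ≤ N := by exact_mod_cast hN
  have hN0 : (0 : ℝ) < N := by linarith
  have hlog : 0 < Real.log N := Real.log_pos (by linarith)
  obtain ⟨M, hM⟩ : ∃ M : ℕ, M = Nat.sqrt N := ⟨_, rfl⟩
  have hM1 : (M : ℝ) ≤ (N : ℝ) ^ (1 / 2 : ℝ) := by
    rw [← Real.sqrt_eq_rpow]
    apply Real.le_sqrt_of_sq_le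
    have : M ^ 2 ≤ N := by rw [hM, pow_two]; exact Nat.sqrt_le N
    exact_mod_cast this
  -- splitting
  have hsplit : ∑ p ∈ (Icc 1 N).filter Nat.Prime, (p : ℝ) ^ (-κ) ≤
      ∑ m ∈ Icc 1 M, (m : ℝ) ^ (-κ) + 2 / Real.log N * ∑ p ∈ (Icc 1 N).filter Nat.Prime, Real.log p * (p : ℝ) ^ (-κ) := by
    rw [← Finset.sum_filter_add_sum_filter_not ((Icc 1 N).filter Nat.Prime) (fun p => p ≤ M)]
    apply add_le_add
    · apply Finset.sum_le_sum_of_subset_of_nonneg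
      · intro p hp
        rw [Finset.mem_filter, Finset.mem_filter, Finset.mem_Icc] at hp
        exact Finset.mem_Icc.2 ⟨hp.1.1.1, hp.2⟩
      · intro m _ _
        positivity
    · rw [Finset.mul_sum]
      refine le_trans ?_ (Finset.sum_le_sum_of_subset_of_nonneg (Finset.filter_subset (fun p => ¬ p ≤ M) _) ?_)
      · apply Finset.sum_le_sum
        intro p hp
        rw [Finset.mem_filter, Finset.mem_filter, Finset.mem_Icc] at hp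
        have hpM : M < p := by omega
        have hNp : N < p ^ 2 := by
          have h2 : N < (M + 1) ^ 2 := by rw [hM, pow_two]; exact Nat.lt_succ_sqrt N
          exact h2.trans_le (Nat.pow_le_pow_left hpM 2)
        have h3 : Real.log N ≤ 2 * Real.log p := by
          have h4 : (N : ℝ) ≤ (p : ℝ) ^ 2 := by exact_mod_cast hNp.le
          have h5 := Real.log_le_log hN0 h4
          rw [Real.log_pow] at h5
          exact_mod_cast h5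
        have h6 : 0 ≤ (p : ℝ) ^ (-κ) := by positivity
        have h7 : 1 ≤ 2 / Real.log N * Real.log p := by
          rw [div_mul_eq_mul_div, le_div_iff₀ hlog]
          linarith
        calc (p : ℝ) ^ (-κ) = 1 * (p : ℝ) ^ (-κ) := (one_mul _).symm
          _ ≤ (2 / Real.log N * Real.log p) * (p : ℝ) ^ (-κ) := mul_le_mul_of_nonneg_right h7 h6
          _ = _ := by ring
      · intro p hp _
        rw [Finset.mem_filter, Finset.mem_Icc] at hp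
        have : 0 ≤ Real.log p := Real.log_nonneg (by exact_mod_cast hp.1.1)
        positivity
  have hA := sum_pow_le κ h0 h1 M
  have hB := log_sum κ h0 h1 N (by omega)
  -- first part
  have hA2 : (M : ℝ) ^ (1 - κ) ≤ (N : ℝ) ^ ((1 - κ) / 2) := by
    calc (M : ℝ) ^ (1 - κ) ≤ ((N : ℝ) ^ (1 / 2 : ℝ)) ^ (1 - κ) := Real.rpow_le_rpow (Nat.cast_nonneg M) hM1 hk.le
      _ = _ := by rw [← Real.rpow_mul hN0.le]; congr 1; ring
  have hA3 : (N : ℝ) ^ ((1 - κ) / 2) ≤ 2 / (1 - κ) * ((N : ℝ) ^ (1 - κ) / Real.log N) := by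
    have h2 := Real.log_le_rpow_div hN0.le (show 0 < (1 - κ) / 2 by linarith)
    have h3 : (N : ℝ) ^ (1 - κ) = (N : ℝ) ^ ((1 - κ) / 2) * (N : ℝ) ^ ((1 - κ) / 2) := by
      rw [← Real.rpow_add hN0]; congr 1; ring
    have h4 : 0 < (N : ℝ) ^ ((1 - κ) / 2) := Real.rpow_pos_of_pos hN0 _
    rw [← mul_div_assoc, le_div_iff₀ hlog, h3]
    have h5 : (N : ℝ) ^ ((1 - κ) / 2) / ((1 - κ) / 2) = 2 / (1 - κ) * (N : ℝ) ^ ((1 - κ) / 2) := by
      field_simp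
    rw [h5] at h2
    calc (N : ℝ) ^ ((1 - κ) / 2) * Real.log N ≤ (N : ℝ) ^ ((1 - κ) / 2) * (2 / (1 - κ) * (N : ℝ) ^ ((1 - κ) / 2)) :=
          mul_le_mul_of_nonneg_left h2 h4.le
      _ = _ := by ring
  obtain ⟨W, hW⟩ : ∃ W : ℝ, W = (N : ℝ) ^ (1 - κ) / Real.log N := ⟨_, rfl⟩
  have hW0 : 0 ≤ W := by rw [hW]; positivity
  rw [← hW] at hA3 ⊢
  have h5 : ∑ m ∈ Icc 1 M, (m : ℝ) ^ (-κ) ≤ 2 / (1 - κ) ^ 2 * W := by
    refine hA.trans ?_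
    rw [div_le_iff₀ hk]
    refine (hA2.trans hA3).trans (le_of_eq ?_)
    field_simp
  have h6 : 2 / Real.log N * ∑ p ∈ (Icc 1 N).filter Nat.Prime, Real.log p * (p : ℝ) ^ (-κ) ≤ 3 / (1 - κ) * W := by
    calc _ ≤ 2 / Real.log N * (3 / 2 * (N : ℝ) ^ (1 - κ) / (1 - κ)) := mul_le_mul_of_nonneg_left hB (by positivity)
      _ = 3 / (1 - κ) * W := by rw [hW]; field_simp
  have h7 : 3 / (1 - κ) * W ≤ 3 / (1 - κ) ^ 2 * W := by
    apply mul_le_mul_of_nonneg_right _ hW0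
    apply div_le_div_of_nonneg_left (by norm_num) (by positivity)
    nlinarith
  calc _ ≤ 2 / (1 - κ) ^ 2 * W + 3 / (1 - κ) ^ 2 * W := by linarith
    _ = _ := by ring

end Pool.Agent.X9.SQ
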