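import Pool.Agent.X9.SQ.Par

/-!
# The parameters for a range `y ^ a` of the primes
-/

set_option autoImplicit false
open Filter

namespace Pool.Agent.X9.SQ

lemma exp_log_mul (y b : ℝ) (hy : 0 < y) : Real.exp (b * Real.log y) = y ^ b := by
  rw [Real.rpow_def_of_pos hy, mul_comm]

/-- the range for `j` -/
lemma par_d2 (a b : ℝ) (ha : 0 ≤ a) (hb : 0 < b) : ∀ᶠ y : ℝ in atTop, ∀ Z : ℕ, 1 ≤ Z → (Z : ℝ) ≤ y ^ a →
    2 * Real.exp (16 * (1 + Real.log Z)) * (8 * ((Z : ℝ) + 1)) ^ (64 * (1 + Real.log Z) + 3 : ℝ) < ⌊Real.exp (b * y)⌋₊ := by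
  filter_upwards [ev_log_ge 1, ev_log_pow 2 (1000 * (a + 1) ^ 2) b hb, eventually_ge_atTop (16 : ℝ)] with y g1 g2 g3
  intro Z hZ1 hZ2
  have hy0 : (0 : ℝ) < y := by linarith
  obtain ⟨w, hw⟩ : ∃ w : ℝ, w = Real.log y := ⟨_, rfl⟩
  rw [← hw] at g1 g2
  have hZr : (1 : ℝ) ≤ Z := by exact_mod_cast hZ1
  have hlZ0 : 0 ≤ Real.log Z := Real.log_nonneg hZr
  have hlZ : Real.log Z ≤ a * w := by
    have h1 := Real.log_le_log (by linarith) hZ2
    rw [Real.log_rpow hy0] at h1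
    rw [hw]
    exact h1
  have h8 : 8 * ((Z : ℝ) + 1) ≤ Real.exp ((a + 1) * w) := by
    rw [hw, exp_log_mul y _ hy0, Real.rpow_add hy0, Real.rpow_one]
    have h2 : 1 ≤ y ^ a := Real.one_le_rpow (by linarith) ha
    nlinarith
  have h9 : (8 * ((Z : ℝ) + 1)) ^ (64 * (1 + Real.log Z) + 3 : ℝ) ≤ Real.exp ((a + 1) * w * (64 * (1 + a * w) + 3)) := by
    calc (8 * ((Z : ℝ) + 1)) ^ (64 * (1 + Real.log Z) + 3 : ℝ) ≤ (Real.exp ((a + 1) * w)) ^ (64 * (1 + Real.log Z) + 3 : ℝ) :=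
          Real.rpow_le_rpow (by positivity) h8 (by positivity)
      _ = Real.exp ((a + 1) * w * (64 * (1 + Real.log Z) + 3)) := by rw [← Real.exp_mul]
      _ ≤ _ := by
        apply Real.exp_le_exp.2
        apply mul_le_mul_of_nonneg_left _ (by positivity)
        linarith
  have h10 : 2 * Real.exp (16 * (1 + Real.log Z)) ≤ Real.exp (1 + 16 * (1 + a * w)) := by
    rw [Real.exp_add]
    apply mul_le_mul _ _ (by positivity) (Real.exp_pos _).le
    · have := Real.add_one_le_exp (1 : ℝ)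
      linarith
    · apply Real.exp_le_exp.2
      linarith
  have h11 : 2 * Real.exp (16 * (1 + Real.log Z)) * (8 * ((Z : ℝ) + 1)) ^ (64 * (1 + Real.log Z) + 3 : ℝ) ≤
      Real.exp (200 * (a + 1) ^ 2 * w ^ 2) := by
    calc _ ≤ Real.exp (1 + 16 * (1 + a * w)) * Real.exp ((a + 1) * w * (64 * (1 + a * w) + 3)) :=
          mul_le_mul h10 h9 (by positivity) (Real.exp_pos _).le
      _ = Real.exp (1 + 16 * (1 + a * w) + (a + 1) * w * (64 * (1 + a * w) + 3)) := (Real.exp_add _ _).symm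
      _ ≤ _ := by
        apply Real.exp_le_exp.2
        obtain ⟨t, ht⟩ : ∃ t : ℝ, t = (a + 1) * w := ⟨_, rfl⟩
        have ht1 : 1 ≤ t := by rw [ht]; nlinarith
        have haw : a * w ≤ t := by rw [ht]; linarith
        have haw0 : 0 ≤ a * w := by positivity
        have e : 200 * (a + 1) ^ 2 * w ^ 2 = 200 * t ^ 2 := by rw [ht]; ring
        rw [e, ← ht]
        have h12 : t * (64 * (1 + a * w) + 3) ≤ t * (64 * (1 + t) + 3) := by
          apply mul_le_mul_of_nonneg_left _ (by linarith)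
          linarith
        nlinarith
  have h12 : Real.exp (200 * (a + 1) ^ 2 * w ^ 2) + 1 ≤ Real.exp (b * y) := by
    have h13 : Real.exp (200 * (a + 1) ^ 2 * w ^ 2 + 1) ≤ Real.exp (b * y) := by
      apply Real.exp_le_exp.2
      have h14 : 1 ≤ (a + 1) ^ 2 * w ^ 2 := by
        have h15 : 1 ≤ (a + 1) * w := by nlinarith
        calc (1 : ℝ) ≤ ((a + 1) * w) ^ 2 := one_le_pow₀ h15
          _ = _ := by ring
      nlinarith
    rw [Real.exp_add] at h13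
    have h14 := Real.add_one_le_exp (1 : ℝ)
    have h15 : 1 ≤ Real.exp (200 * (a + 1) ^ 2 * w ^ 2) := Real.one_le_exp (by positivity)
    nlinarith
  have h16 := Nat.lt_floor_add_one (Real.exp (b * y))
  linarith

/-- the final inequality -/
lemma par_f2 (ε C a : ℝ) (hε : 0 < ε) (hε1 : ε ≤ 1 / 100) (hC : 0 < C) (ha : 0 ≤ a) : ∀ᶠ y : ℝ in atTop,
    ∀ V : ℝ, 0 ≤ V → V * Real.log y ≤ 1 / (25600 * (a + 1)) * y → ∀ k : ℕ, (k : ℝ) ≤ 8 * V + 3 →
    ∀ Z : ℕ, (Z : ℝ) ≤ y ^ a →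
    25 * Real.exp ((1 - ε) * y) ≤ Real.exp ((1 - ε / 2) * y) * (Real.exp (-(2 * V)) / 2) -
      C * ((Z : ℝ) + 1) ^ (16 * k) * Real.exp (24 / 25 * y) := by
  filter_upwards [ev_log_ge 1, ev_log_ge (1 / ε), ev_log_pow 1 (48 * (a + 1)) (1 / 200) (by norm_num),
    ev_lin (Real.log C) (1 / 100) (by norm_num), ev_lin 4 (ε / 4) (by positivity), eventually_ge_atTop (10 : ℝ)]
    with y g1 g2 g3 g4 g5 g6
  intro V hV0 hV k hk Z hZ
  have hy0 : (0 : ℝ) < y := by linarith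
  obtain ⟨w, hw⟩ : ∃ w : ℝ, w = Real.log y := ⟨_, rfl⟩
  rw [← hw] at g1 g2 g3 hV
  rw [pow_one] at g3
  have hw0 : 0 < w := by linarith
  have ha1 : 0 < a + 1 := by linarith
  have hVw : (a + 1) * (V * w) ≤ 1 / 25600 * y := by
    have h4 := mul_le_mul_of_nonneg_left hV ha1.le
    have e : (a + 1) * (1 / (25600 * (a + 1)) * y) = 1 / 25600 * y := by field_simp
    rw [e] at h4
    exact h4
  have hVw' : V * w ≤ 1 / 25600 * y := by
    have : V * w ≤ (a + 1) * (V * w) := by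
      have : 0 ≤ a * (V * w) := by positivity
      linarith
    linarith
  have hVε : V ≤ ε / 8 * y := by
    have h3 : 1 ≤ ε * w := by
      rw [div_le_iff₀ hε] at g2
      linarith
    have h4 : V ≤ V * (ε * w) := by nlinarith
    have h5 : V * (ε * w) = ε * (V * w) := by ring
    have h6 : ε * (V * w) ≤ ε * (1 / 25600 * y) := mul_le_mul_of_nonneg_left hVw' hε.le
    have h7 : ε * (1 / 25600 * y) ≤ ε / 8 * y := by
      have : 0 ≤ ε * y := by positivity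
      nlinarith
    linarith
  -- main term
  have hmain : 26 * Real.exp ((1 - ε) * y) ≤ Real.exp ((1 - ε / 2) * y) * (Real.exp (-(2 * V)) / 2) := by
    have h3 : Real.exp ((1 - ε / 2) * y) * (Real.exp (-(2 * V)) / 2) = Real.exp ((1 - ε / 2) * y - 2 * V) / 2 := by
      rw [Real.exp_sub, Real.exp_neg]; field_simp
    have h4 : Real.exp ((1 - ε) * y + 4) ≤ Real.exp ((1 - ε / 2) * y - 2 * V) := by
      apply Real.exp_le_exp.2
      linarith
    rw [Real.exp_add] at h4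
    have h5 : (52 : ℝ) ≤ Real.exp 4 := by
      have h6 : Real.exp 4 = (Real.exp 1) ^ 4 := by rw [← Real.exp_nat_mul]; norm_num
      rw [h6]
      have h7 := Real.exp_one_gt_d9
      calc (52 : ℝ) ≤ 2.7 ^ 4 := by norm_num
        _ ≤ Real.exp 1 ^ 4 := by
          apply pow_le_pow_left₀ (by norm_num)
          linarith
    rw [h3]
    have h6 := mul_le_mul_of_nonneg_left h5 (Real.exp_pos ((1 - ε) * y)).le
    linarith
  -- error
  have hZe : (Z : ℝ) + 1 ≤ Real.exp ((a + 1) * w) := by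
    rw [hw, exp_log_mul y _ hy0, Real.rpow_add hy0, Real.rpow_one]
    have h2 : 1 ≤ y ^ a := Real.one_le_rpow (by linarith) ha
    nlinarith
  have hZ0 : (0 : ℝ) ≤ Z := Nat.cast_nonneg Z
  have herr : C * ((Z : ℝ) + 1) ^ (16 * k) * Real.exp (24 / 25 * y) ≤ Real.exp ((1 - ε) * y) := by
    have h3 : ((Z : ℝ) + 1) ^ (16 * k) ≤ Real.exp (1 / 100 * y) := by
      calc ((Z : ℝ) + 1) ^ (16 * k) ≤ (Real.exp ((a + 1) * w)) ^ (16 * k) := by gcongr
        _ = Real.exp (16 * ((a + 1) * (k * w))) := by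
          rw [← Real.exp_nat_mul]
          congr 1
          push_cast
          ring
        _ ≤ Real.exp (1 / 100 * y) := by
          apply Real.exp_le_exp.2
          have h4 : (a + 1) * ((k : ℝ) * w) ≤ (a + 1) * ((8 * V + 3) * w) := by
            apply mul_le_mul_of_nonneg_left _ ha1.le
            exact mul_le_mul_of_nonneg_right hk hw0.le
          nlinarith
    have h4 : C ≤ Real.exp (1 / 100 * y) := by
      rw [← Real.exp_log hC]
      exact Real.exp_le_exp.2 g4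
    calc C * ((Z : ℝ) + 1) ^ (16 * k) * Real.exp (24 / 25 * y) ≤
          Real.exp (1 / 100 * y) * Real.exp (1 / 100 * y) * Real.exp (24 / 25 * y) := by gcongr
      _ = Real.exp (1 / 100 * y + 1 / 100 * y + 24 / 25 * y) := by rw [← Real.exp_add, ← Real.exp_add]
      _ ≤ _ := by
        apply Real.exp_le_exp.2
        nlinarith
  linarith

/-- sizes: `Z = ⌊c y ^ a⌋` with `a (1 - κ) = 1` -/
lemma par_a2 (κ c1 M : ℝ) (hκ : 1 / 2 ≤ κ) (hκ1 : κ < 1) (h1 : 0 < c1) (hM : 0 < M) :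
    ∃ c : ℝ, 0 < c ∧ ∀ᶠ y : ℝ in atTop, 16 ≤ ⌊c1 * y⌋₊ ∧ y ≤ ⌊c * y ^ (1 / (1 - κ))⌋₊ ∧
      (⌊c * y ^ (1 / (1 - κ))⌋₊ : ℝ) ≤ y ^ (1 / (1 - κ)) ∧
      (⌊c * y ^ (1 / (1 - κ))⌋₊ : ℝ) ^ (1 - κ) ≤ ⌊c1 * y⌋₊ ∧
      M * (⌊c * y ^ (1 / (1 - κ))⌋₊ : ℝ) ^ (1 - κ) ≤ y ∧ 16 ≤ y := by
  have hk : 0 < 1 - κ := by linarith
  obtain ⟨s, hs⟩ : ∃ s : ℝ, s = min (min 1 (c1 / 2)) (1 / M) := ⟨_, rfl⟩
  have hs0 : 0 < s := by rw [hs]; positivity
  have hs1 : s ≤ 1 := by rw [hs]; exact (min_le_left _ _).trans (min_le_left _ _)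
  have hs2 : s ≤ c1 / 2 := by rw [hs]; exact (min_le_left _ _).trans (min_le_right _ _)
  have hs3 : s ≤ 1 / M := by rw [hs]; exact min_le_right _ _
  obtain ⟨a, ha⟩ : ∃ a : ℝ, a = 1 / (1 - κ) := ⟨_, rfl⟩
  have ha2 : 2 ≤ a := by
    rw [ha, le_div_iff₀ hk]
    linarith
  have hak : a * (1 - κ) = 1 := by rw [ha]; field_simp
  rw [← ha]
  refine ⟨s ^ a, Real.rpow_pos_of_pos hs0 _, ?_⟩
  have hc1 : s ^ a ≤ 1 := Real.rpow_le_one hs0.le hs1 (by linarith)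
  have hc0 : 0 < s ^ a := Real.rpow_pos_of_pos hs0 _
  filter_upwards [ev_lin 17 c1 h1, ev_lin 2 (s ^ a) hc0, eventually_ge_atTop (16 : ℝ)] with y g1 g2 g3
  have hy0 : 0 < y := by linarith
  have hya : 0 < y ^ a := Real.rpow_pos_of_pos hy0 _
  have hfl : (⌊s ^ a * y ^ a⌋₊ : ℝ) ≤ s ^ a * y ^ a := Nat.floor_le (by positivity)
  have h4 : (16 : ℝ) ≤ ⌊c1 * y⌋₊ := by
    have := Nat.lt_floor_add_one (c1 * y)
    linarith
  have h5 : c1 / 2 * y ≤ ⌊c1 * y⌋₊ := by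
    have := Nat.lt_floor_add_one (c1 * y)
    linarith
  have h6 : (⌊s ^ a * y ^ a⌋₊ : ℝ) ^ (1 - κ) ≤ s * y := by
    calc (⌊s ^ a * y ^ a⌋₊ : ℝ) ^ (1 - κ) ≤ (s ^ a * y ^ a) ^ (1 - κ) :=
          Real.rpow_le_rpow (Nat.cast_nonneg _) hfl hk.le
      _ = s * y := by
        rw [Real.mul_rpow hc0.le hya.le, ← Real.rpow_mul hs0.le, ← Real.rpow_mul hy0.le, hak, Real.rpow_one, Real.rpow_one]
  refine ⟨by exact_mod_cast h4, ?_, ?_, ?_, ?_, g3⟩
  · have h7 : y ^ (2 : ℝ) ≤ y ^ a := Real.rpow_le_rpow_of_exponent_le (by linarith) ha2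
    rw [Real.rpow_two] at h7
    have h8 := Nat.lt_floor_add_one (s ^ a * y ^ a)
    have h9 : s ^ a * y ^ 2 ≤ s ^ a * y ^ a := mul_le_mul_of_nonneg_left h7 hc0.le
    have h10 : 2 * y ≤ s ^ a * y ^ 2 := by nlinarith
    linarith
  · refine hfl.trans ?_
    calc s ^ a * y ^ a ≤ 1 * y ^ a := mul_le_mul_of_nonneg_right hc1 hya.le
      _ = y ^ a := one_mul _
  · refine h6.trans ((mul_le_mul_of_nonneg_right hs2 hy0.le).trans h5)
  · calc M * (⌊s ^ a * y ^ a⌋₊ : ℝ) ^ (1 - κ) ≤ M * (s * y) := mul_le_mul_of_nonneg_left h6 hM.le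
      _ ≤ M * (1 / M * y) := by gcongr
      _ = y := by field_simp

end Pool.Agent.X9.SQ
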