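import Pool.Agent.TH696.FA.OrthCount
import Pool.Agent.W65.FS.Dist
import Pool.Agent.W65.FS.Local

/-!
# Distribution of the representations in a class in families of residue classes
-/

set_option autoImplicit false
open Finset

namespace Pool.Agent.X9.SQ
open Pool.Agent.W65.FS Pool.Agent.TH696.FA

/-- the representations in a class with prescribed residues -/
noncomputable def Nr (n M : ℕ) (v : Fin 4 → ℤ) (T : Finset ℕ) (c : (l : ℕ) → l ∈ T → (Fin 4 → ℤ)) : Finset (Fin 4 → ℤ) := by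
  classical
  exact (repsc n M v).filter (fun X => ∀ l (h : l ∈ T), red l X = c l h)

lemma Nr_eq (n M : ℕ) (h4 : 4 ∣ M) (v : Fin 4 → ℤ) (hv : GoodG n M v) (T : Finset ℕ)
    (hT : ∀ l ∈ T, l.Prime ∧ ¬ l ∣ M)
    (c : (l : ℕ) → l ∈ T → (Fin 4 → ℤ)) (hc : c ∈ T.pi (fun l => Gl n l)) :
    ∃ u : Fin 4 → ℤ, GoodG n (M * ∏ l ∈ T, l) u ∧ Nr n M v T c = repsc n (M * ∏ l ∈ T, l) u := by
  classical
  have hcm : ∀ l (h : l ∈ T), c l h ∈ Gl n l := fun l h => (Finset.mem_pi.1 hc) l h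
  have hT2 : ∀ l ∈ T, l.Prime ∧ ¬ l ∣ 2 * M := by
    intro l hl
    refine ⟨(hT l hl).1, fun h => ?_⟩
    rcases (Nat.Prime.dvd_mul (hT l hl).1).1 h with h | h
    · have h2 : l = 2 := (Nat.prime_dvd_prime_iff_eq (hT l hl).1 Nat.prime_two).1 h
      apply (hT l hl).2
      rw [h2]
      exact (by norm_num : 2 ∣ 4).trans h4
    · exact (hT l hl).2 h
  have hex : ∀ i : Fin 4, ∃ x : ℤ, (M : ℤ) ∣ x - v i ∧ ∀ l ∈ T, (l : ℤ) ∣ x - (if h : l ∈ T then c l h i else 0) :=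
    fun i => crt_exists M (v i) T hT (fun l => if h : l ∈ T then c l h i else 0)
  choose u hu1 hu2 using hex
  have hu3 : ∀ i l (h : l ∈ T), (l : ℤ) ∣ u i - c l h i := by
    intro i l h
    have := hu2 i l h
    rwa [dif_pos h] at this
  have hgu : GoodG n M u := goodG_congr n M h4 v u (fun i => by
    rw [← neg_sub]; exact (hu1 i).neg_right) hv
  refine ⟨u, ⟨?_, ?_⟩, ?_⟩
  · have e : (2 * ((M * ∏ l ∈ T, l : ℕ) : ℤ)) = (((2 * M) * ∏ l ∈ T, l : ℕ) : ℤ) := by push_cast; ring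
    rw [e, dvd_all (2 * M) T hT2]
    constructor
    · push_cast
      exact hgu.1
    · intro l h
      have h1 : (∑ i, u i ^ 2) - (n : ℤ) = ((∑ i, c l h i ^ 2) - n) + ∑ i, (u i - c l h i) * (u i + c l h i) := by
        simp only [Fin.sum_univ_four]; ring
      rw [h1]
      exact dvd_add ((mem_Gl n l _).1 (hcm l h)).2.1 (Finset.dvd_sum fun i _ => (hu3 i l h).mul_right _)
  · intro l hl hlD
    rcases (Nat.Prime.dvd_mul hl).1 hlD with h | h
    · exact hgu.2 l hl h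
    · obtain ⟨l', hl', hll⟩ := (hl.prime.dvd_finsetProd_iff _).1 h
      have hle : l = l' := (Nat.prime_dvd_prime_iff_eq hl (hT l' hl').1).1 hll
      subst hle
      obtain ⟨i, hi⟩ := ((mem_Gl n l _).1 (hcm l hl')).2.2
      refine ⟨i, fun h2 => hi ?_⟩
      have := dvd_sub h2 (hu3 i l hl')
      simpa using this
  · ext X
    unfold Nr
    rw [Finset.mem_filter, mem_repsc, mem_repsc]
    constructor
    · rintro ⟨⟨h1, h2⟩, h4⟩
      refine ⟨h1, fun i => ?_⟩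
      rw [dvd_all M T hT]
      constructor
      · have := dvd_sub (h2 i) (hu1 i)
        simpa using this
      · intro l h
        have h5 := (red_unique l (hT l h).1.pos X (c l h) ((mem_Gl n l _).1 (hcm l h)).1).1 (h4 l h) i
        have := dvd_sub h5 (hu3 i l h)
        simpa using this
    · rintro ⟨h1, h2⟩
      have h2' := fun i => (dvd_all M T hT _).1 (h2 i)
      refine ⟨⟨h1, fun i => ?_⟩, fun l h => ?_⟩
      · have := dvd_add (h2' i).1 (hu1 i)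
        simpa using this
      · rw [red_unique l (hT l h).1.pos X (c l h) ((mem_Gl n l _).1 (hcm l h)).1]
        intro i
        have := dvd_add ((h2' i).2 l h) (hu3 i l h)
        simpa using this

lemma sum_Nr (n M : ℕ) (v : Fin 4 → ℤ) (T : Finset ℕ) (S : ℕ → Finset (Fin 4 → ℤ)) :
    ∑ c ∈ T.pi S, (Nr n M v T c).card =
      ((by classical exact (repsc n M v).filter (fun X => ∀ l ∈ T, red l X ∈ S l)) : Finset (Fin 4 → ℤ)).card := by
  classical
  rw [Finset.card_eq_sum_card_fiberwise (f := fun X => fun l (_ : l ∈ T) => red l X) (t := T.pi S)]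
  · apply Finset.sum_congr rfl
    intro c hc
    congr 1
    ext X
    unfold Nr
    rw [Finset.mem_filter, Finset.mem_filter, Finset.mem_filter]
    constructor
    · rintro ⟨h1, h2⟩
      refine ⟨⟨h1, fun l hl => ?_⟩, ?_⟩
      · rw [h2 l hl]
        exact (Finset.mem_pi.1 hc) l hl
      · funext l hl
        exact h2 l hl
    · rintro ⟨⟨h1, _⟩, h2⟩
      refine ⟨h1, fun l hl => ?_⟩
      exact congrFun (congrFun h2 l) hl
  · intro X hX
    rw [Finset.mem_coe, Finset.mem_filter] at hX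
    rw [Finset.mem_coe, Finset.mem_pi]
    intro l hl
    exact hX.2 l hl

/-- **distribution** in a class modulo a multiple of 4 -/
theorem distG : ∃ C : ℝ, 0 < C ∧ ∀ (n M : ℕ), 1 ≤ n → 0 < M → 4 ∣ M →
    ∀ v : Fin 4 → ℤ, GoodG n M v → ∀ T : Finset ℕ, (∀ l ∈ T, l.Prime ∧ ¬ l ∣ M) →
    ∀ S : ℕ → Finset (Fin 4 → ℤ), (∀ l ∈ T, S l ⊆ Gl n l) →
      |((((by classical exact (repsc n M v).filter (fun X => ∀ l ∈ T, red l X ∈ S l)) : Finset (Fin 4 → ℤ)).card : ℕ) : ℝ) -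
        (∏ l ∈ T, (((S l).card : ℝ) / (Gl n l).card)) *
          ((((by classical exact (repsc n M v).filter (fun X => ∀ l ∈ T, red l X ∈ Gl n l)) : Finset (Fin 4 → ℤ)).card : ℕ) : ℝ)| ≤
      C * (M : ℝ) ^ 11 * ((∏ l ∈ T, l : ℕ) : ℝ) ^ 15 * (n : ℝ) ^ (19 / 20 : ℝ) := by
  classical
  obtain ⟨C, hC, h⟩ := class_boundG
  refine ⟨C, hC, ?_⟩
  intro n M hn hM h4 v hv T hT S hS
  have hTne : ∀ l ∈ T, l ≠ 2 := by
    intro l hl h2
    apply (hT l hl).2
    rw [h2]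
    exact (by norm_num : 2 ∣ 4).trans h4
  have hGpos : ∀ l ∈ T, (0 : ℝ) < (Gl n l).card := by
    intro l hl
    have h1 := count_lower l (hT l hl).1 (hTne l hl) n
    have h2 : (2 : ℝ) ≤ l := by exact_mod_cast (hT l hl).1.two_le
    have h3 : (0 : ℝ) < (l : ℝ) ^ 3 - l := by nlinarith [mul_pos (show (0:ℝ) < l by linarith) (show (0:ℝ) < l by linarith)]
    linarith
  obtain ⟨D, hD⟩ : ∃ D : ℕ, D = ∏ l ∈ T, l := ⟨_, rfl⟩
  have hDpos : 0 < D := by rw [hD]; exact Finset.prod_pos fun l hl => (hT l hl).1.pos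
  have hMD : 0 < M * D := Nat.mul_pos hM hDpos
  have h4D : 4 ∣ M * D := h4.mul_right _
  obtain ⟨E, hE⟩ : ∃ E : ℝ, E = C * ((M * D : ℕ) : ℝ) ^ 11 * (n : ℝ) ^ (19 / 20 : ℝ) := ⟨_, rfl⟩
  have hE0 : 0 ≤ E := by rw [hE]; positivity
  obtain ⟨Gs, hGs⟩ : ∃ Gs, Gs = T.pi (fun l => Gl n l) := ⟨_, rfl⟩
  obtain ⟨Ss, hSs⟩ : ∃ Ss, Ss = T.pi S := ⟨_, rfl⟩
  have hsub : Ss ⊆ Gs := by
    intro c hc
    rw [hSs, Finset.mem_pi] at hc
    rw [hGs, Finset.mem_pi]
    intro l hl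
    exact hS l hl (hc l hl)
  have hdiff : ∀ c ∈ Gs, ∀ c' ∈ Gs, |((Nr n M v T c).card : ℝ) - (Nr n M v T c').card| ≤ E := by
    intro c hc c' hc'
    rw [hGs] at hc hc'
    obtain ⟨u, hu1, hu2⟩ := Nr_eq n M h4 v hv T hT c hc
    obtain ⟨u', hu1', hu2'⟩ := Nr_eq n M h4 v hv T hT c' hc'
    rw [hu2, hu2', hE]
    rw [← hD] at hu1 hu1' ⊢
    exact h n (M * D) hn hMD h4D u u' hu1 hu1'
  have hsumS : (((repsc n M v).filter (fun X => ∀ l ∈ T, red l X ∈ S l)).card : ℝ) = ∑ c ∈ Ss, ((Nr n M v T c).card : ℝ) := by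
    have := sum_Nr n M v T S
    rw [hSs, ← Nat.cast_sum, this]
  have hsumG : (((repsc n M v).filter (fun X => ∀ l ∈ T, red l X ∈ Gl n l)).card : ℝ) = ∑ c ∈ Gs, ((Nr n M v T c).card : ℝ) := by
    have := sum_Nr n M v T (fun l => Gl n l)
    rw [hGs, ← Nat.cast_sum, this]
  have hcG : (Gs.card : ℝ) = ∏ l ∈ T, ((Gl n l).card : ℝ) := by
    rw [hGs, Finset.card_pi]; push_cast; rfl
  have hcS : (Ss.card : ℝ) = ∏ l ∈ T, ((S l).card : ℝ) := by
    rw [hSs, Finset.card_pi]; push_cast; rfl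
  have hG0 : (0 : ℝ) < Gs.card := by
    rw [hcG]
    exact Finset.prod_pos hGpos
  rw [Finset.prod_div_distrib, ← hcG, ← hcS]
  have e1 : ∑ c ∈ Ss, ((Nr n M v T c).card : ℝ) - ((Ss.card : ℝ) / Gs.card) * (∑ c ∈ Gs, ((Nr n M v T c).card : ℝ)) =
      (1 / (Gs.card : ℝ)) * ∑ c ∈ Ss, ∑ c' ∈ Gs, (((Nr n M v T c).card : ℝ) - (Nr n M v T c').card) := by
    simp_rw [Finset.sum_sub_distrib]
    simp only [Finset.sum_const, nsmul_eq_mul]
    rw [← Finset.mul_sum]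
    field_simp
  have e2 : |∑ c ∈ Ss, ∑ c' ∈ Gs, (((Nr n M v T c).card : ℝ) - (Nr n M v T c').card)| ≤ Ss.card * (Gs.card * E) := by
    refine (Finset.abs_sum_le_sum_abs _ _).trans ?_
    have : ∀ c ∈ Ss, |∑ c' ∈ Gs, (((Nr n M v T c).card : ℝ) - (Nr n M v T c').card)| ≤ Gs.card * E := by
      intro c hc
      refine (Finset.abs_sum_le_sum_abs _ _).trans ?_
      refine (Finset.sum_le_sum fun c' hc' => hdiff c (hsub hc) c' hc').trans ?_
      rw [Finset.sum_const, nsmul_eq_mul]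
    refine (Finset.sum_le_sum this).trans ?_
    rw [Finset.sum_const, nsmul_eq_mul]
  have hSle : (Ss.card : ℝ) ≤ (D : ℝ) ^ 4 := by
    rw [hcS, hD]
    push_cast
    rw [← Finset.prod_pow]
    apply Finset.prod_le_prod
    · intro l _; positivity
    · intro l hl
      have h1 : (S l).card ≤ l ^ 4 := (Finset.card_le_card (hS l hl)).trans (card_Gl_le n l)
      exact_mod_cast h1
  have hfin : |∑ c ∈ Ss, ((Nr n M v T c).card : ℝ) - ((Ss.card : ℝ) / Gs.card) * (∑ c ∈ Gs, ((Nr n M v T c).card : ℝ))| ≤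
      C * (M : ℝ) ^ 11 * ((∏ l ∈ T, l : ℕ) : ℝ) ^ 15 * (n : ℝ) ^ (19 / 20 : ℝ) := by
    rw [e1, abs_mul, abs_of_pos (by positivity), ← hD]
    calc 1 / (Gs.card : ℝ) * |∑ c ∈ Ss, ∑ c' ∈ Gs, (((Nr n M v T c).card : ℝ) - (Nr n M v T c').card)|
        ≤ 1 / (Gs.card : ℝ) * (Ss.card * (Gs.card * E)) := by gcongr
      _ = Ss.card * E := by field_simp
      _ ≤ (D : ℝ) ^ 4 * E := by gcongr
      _ = _ := by
        rw [hE]
        push_cast
        ring
  rw [← hsumS, ← hsumG] at hfin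
  convert hfin using 3

end Pool.Agent.X9.SQ
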