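import Pool.Agent.X9.SQ.Fin1
import Pool.Agent.X9.SQ.SumK
import Pool.Agent.X9.SQ.Par2

/-!
# Prime factors `q ≤ c (log n) ^ a` of `2 ^ (x + y) + 2 ^ (z + w) + 1` and the order of `2`
-/

set_option autoImplicit false
open Finset Filter

namespace Pool.Agent.X9.SQ
open Pool.Agent.W65.FS Pool.Agent.TH696.FA

/-- the primes `q ≤ Z` with `20 q ^ κ ≤ l` -/
noncomputable def QK (κ : ℝ) (Z l : ℕ) : Finset ℕ := by
  classical
  exact (Finset.range (Z + 1)).filter (fun q => 20 * (q : ℝ) ^ κ ≤ l)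

/-- the number of these primes for which `l` divides the order -/
noncomputable def aK (κ : ℝ) (Z l : ℕ) : ℕ := ((QK κ Z l).filter (fun q => q.Prime ∧ q ≠ 2 ∧ l ∣ orderOf (2 : ZMod q))).card

lemma order_dvd_sub (q : ℕ) (hq : q.Prime) (hq2 : q ≠ 2) : orderOf (2 : ZMod q) ∣ q - 1 := by
  have : Fact q.Prime := ⟨hq⟩
  have h20 : (2 : ZMod q) ≠ 0 := by
    intro h
    have h3 : ((2 : ℕ) : ZMod q) = 0 := by exact_mod_cast h
    rw [ZMod.natCast_eq_zero_iff] at h3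
    exact hq2 ((Nat.prime_dvd_prime_iff_eq hq Nat.prime_two).1 h3)
  exact orderOf_dvd_iff_pow_eq_one.2 (ZMod.pow_card_sub_one_eq_one h20)

lemma aK_le (κ : ℝ) (hκ : 1 / 2 ≤ κ) (hκ1 : κ < 1) (Z l : ℕ) (hl : l.Prime) : (aK κ Z l : ℝ) ≤ l / 400 := by
  classical
  have hl0 : (0 : ℝ) < l := by exact_mod_cast hl.pos
  obtain ⟨Z', hZ'⟩ : ∃ Z' : ℕ, Z' = ⌊((l : ℝ) / 20) ^ 2⌋₊ := ⟨_, rfl⟩
  have hsub : (QK κ Z l).filter (fun q => q.Prime ∧ q ≠ 2 ∧ l ∣ orderOf (2 : ZMod q)) ⊆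
      (Finset.range (Z' + 1)).filter (fun q => q.Prime ∧ q ≠ 2 ∧ l ∣ orderOf (2 : ZMod q)) := by
    intro q hq
    rw [Finset.mem_filter] at hq ⊢
    refine ⟨?_, hq.2⟩
    have h1 := hq.1
    unfold QK at h1
    rw [Finset.mem_filter] at h1
    have hq1 : (1 : ℝ) ≤ q := by exact_mod_cast hq.2.1.pos
    have h2 : (q : ℝ) ^ (1 / 2 : ℝ) ≤ (l : ℝ) / 20 := by
      have h3 : (q : ℝ) ^ (1 / 2 : ℝ) ≤ (q : ℝ) ^ κ := Real.rpow_le_rpow_of_exponent_le hq1 hκ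
      have h4 := h1.2
      linarith
    have h3 : (q : ℝ) ≤ ((l : ℝ) / 20) ^ 2 := by
      have h4 : ((q : ℝ) ^ (1 / 2 : ℝ)) ^ 2 ≤ ((l : ℝ) / 20) ^ 2 := pow_le_pow_left₀ (by positivity) h2 2
      have h5 : ((q : ℝ) ^ (1 / 2 : ℝ)) ^ 2 = q := by
        rw [← Real.rpow_natCast, ← Real.rpow_mul (by linarith)]
        norm_num
      rwa [h5] at h4
    rw [Finset.mem_range, Nat.lt_succ_iff, hZ']
    exact Nat.le_floor h3
  have h1 : aK κ Z l ≤ Z' / l := (Finset.card_le_card hsub).trans (card_q Z' l hl.pos)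
  have h2 : (aK κ Z l : ℝ) ≤ (Z' : ℝ) / l := by
    refine le_trans ?_ Nat.cast_div_le
    exact_mod_cast h1
  have h3 : (Z' : ℝ) ≤ ((l : ℝ) / 20) ^ 2 := by rw [hZ']; exact Nat.floor_le (by positivity)
  calc (aK κ Z l : ℝ) ≤ (Z' : ℝ) / l := h2
    _ ≤ ((l : ℝ) / 20) ^ 2 / l := div_le_div_of_nonneg_right h3 hl0.le
    _ = l / 400 := by field_simp; norm_num

/-- the sum of the densities -/
lemma sum_aK (κ : ℝ) (hκ : 1 / 2 ≤ κ) (hκ1 : κ < 1) (Lb Z : ℕ) (hZ : 2 ≤ Z) :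
    ∑ l ∈ (Ioc Lb Z).filter Nat.Prime, 100 * (aK κ Z l : ℝ) / l ≤
      5 * (5 / (1 - κ) ^ 2 * ((Z : ℝ) ^ (1 - κ) / Real.log Z)) := by
  classical
  obtain ⟨P, hP⟩ : ∃ P : Finset ℕ, P = (Ioc Lb Z).filter Nat.Prime := ⟨_, rfl⟩
  have hPp : ∀ l ∈ P, l.Prime := by
    intro l hl
    rw [hP, Finset.mem_filter] at hl
    exact hl.2
  have h1 : ∀ l ∈ P, 100 * (aK κ Z l : ℝ) / l =
      ∑ q ∈ (Icc 1 Z).filter Nat.Prime, (if q ≠ 2 ∧ l ∣ orderOf (2 : ZMod q) ∧ 20 * (q : ℝ) ^ κ ≤ l then 100 / (l : ℝ) else 0) := by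
    intro l _
    rw [← Finset.sum_filter, Finset.sum_const, nsmul_eq_mul]
    have e : ((Icc 1 Z).filter Nat.Prime).filter (fun q => q ≠ 2 ∧ l ∣ orderOf (2 : ZMod q) ∧ 20 * (q : ℝ) ^ κ ≤ l) =
        (QK κ Z l).filter (fun q => q.Prime ∧ q ≠ 2 ∧ l ∣ orderOf (2 : ZMod q)) := by
      ext q
      unfold QK
      rw [Finset.mem_filter, Finset.mem_filter, Finset.mem_filter, Finset.mem_filter, Finset.mem_Icc, Finset.mem_range]
      constructor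
      · rintro ⟨⟨⟨a1, a2⟩, a3⟩, a4, a5, a6⟩
        exact ⟨⟨by omega, a6⟩, a3, a4, a5⟩
      · rintro ⟨⟨a1, a2⟩, a3, a4, a5⟩
        exact ⟨⟨⟨a3.pos, by omega⟩, a3⟩, a4, a5, a2⟩
    rw [e]
    unfold aK
    ring
  rw [← hP, Finset.sum_congr rfl h1, Finset.sum_comm]
  have h2 : ∀ q ∈ (Icc 1 Z).filter Nat.Prime,
      ∑ l ∈ P, (if q ≠ 2 ∧ l ∣ orderOf (2 : ZMod q) ∧ 20 * (q : ℝ) ^ κ ≤ l then 100 / (l : ℝ) else 0) ≤
      5 * (q : ℝ) ^ (-κ) := by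
    intro q hq
    rw [Finset.mem_filter, Finset.mem_Icc] at hq
    have hqp := hq.2
    have hq1 : (1 : ℝ) ≤ q := by exact_mod_cast hqp.pos
    have hq0 : (0 : ℝ) < q := by linarith
    have hqk : 0 < (q : ℝ) ^ κ := Real.rpow_pos_of_pos hq0 _
    rw [← Finset.sum_filter]
    have hcard : (P.filter (fun l => q ≠ 2 ∧ l ∣ orderOf (2 : ZMod q) ∧ 20 * (q : ℝ) ^ κ ≤ l)).card ≤ 1 := by
      rw [Finset.card_le_one]
      intro l hl l' hl'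
      rw [Finset.mem_filter] at hl hl'
      by_contra hne
      have hcop : Nat.Coprime l l' := (Nat.coprime_primes (hPp l hl.1) (hPp l' hl'.1)).2 hne
      have hd : l * l' ∣ q - 1 := by
        apply (Nat.Coprime.mul_dvd_of_dvd_of_dvd hcop hl.2.2.1 hl'.2.2.1).trans
        exact order_dvd_sub q hqp hl.2.1
      have hle := Nat.le_of_dvd (by have := hqp.two_le; omega) hd
      have hle2 : l * l' < q := by have := hqp.two_le; omega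
      have hle3 : (l : ℝ) * l' < q := by exact_mod_cast hle2
      have h3 : (20 * (q : ℝ) ^ κ) * (20 * (q : ℝ) ^ κ) ≤ (l : ℝ) * l' :=
        mul_le_mul hl.2.2.2 hl'.2.2.2 (by positivity) (by positivity)
      have h4 : (q : ℝ) ≤ (q : ℝ) ^ κ * (q : ℝ) ^ κ := by
        rw [← Real.rpow_add hq0]
        calc (q : ℝ) = (q : ℝ) ^ (1 : ℝ) := (Real.rpow_one _).symm
          _ ≤ _ := Real.rpow_le_rpow_of_exponent_le hq1 (by linarith)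
      nlinarith
    have hterm : ∀ l ∈ P.filter (fun l => q ≠ 2 ∧ l ∣ orderOf (2 : ZMod q) ∧ 20 * (q : ℝ) ^ κ ≤ l),
        100 / (l : ℝ) ≤ 5 * (q : ℝ) ^ (-κ) := by
      intro l hl
      rw [Finset.mem_filter] at hl
      have hl0 : (0 : ℝ) < l := by exact_mod_cast (hPp l hl.1).pos
      rw [Real.rpow_neg hq0.le, div_le_iff₀ hl0]
      have h3 := hl.2.2.2
      have h4 : 5 * ((q : ℝ) ^ κ)⁻¹ * (20 * (q : ℝ) ^ κ) = 100 := by field_simp; norm_num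
      have h5 : 5 * ((q : ℝ) ^ κ)⁻¹ * (20 * (q : ℝ) ^ κ) ≤ 5 * ((q : ℝ) ^ κ)⁻¹ * l :=
        mul_le_mul_of_nonneg_left h3 (by positivity)
      linarith
    calc _ ≤ ∑ l ∈ P.filter (fun l => q ≠ 2 ∧ l ∣ orderOf (2 : ZMod q) ∧ 20 * (q : ℝ) ^ κ ≤ l), 5 * (q : ℝ) ^ (-κ) :=
          Finset.sum_le_sum hterm
      _ = (P.filter (fun l => q ≠ 2 ∧ l ∣ orderOf (2 : ZMod q) ∧ 20 * (q : ℝ) ^ κ ≤ l)).card * (5 * (q : ℝ) ^ (-κ)) := by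
          rw [Finset.sum_const, nsmul_eq_mul]
      _ ≤ 1 * (5 * (q : ℝ) ^ (-κ)) := by
          apply mul_le_mul_of_nonneg_right _ (by positivity)
          exact_mod_cast hcard
      _ = _ := one_mul _
  refine (Finset.sum_le_sum h2).trans ?_
  rw [← Finset.mul_sum]
  apply mul_le_mul_of_nonneg_left _ (by norm_num)
  exact prime_pow_sum κ (by linarith) hκ1 Z hZ

/-- a prime `q ≤ Z` with a large prime factor in the order does not divide -/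
lemma no_large (κ : ℝ) (hκ : 1 / 2 ≤ κ) (hκ1 : κ < 1) (Lb Z K : ℕ) (hK : K = Nat.lcmUpto Lb ^ 3)
    (hZ : (Z : ℝ) ^ (1 - κ) ≤ Lb) (N : ℕ)
    (h1 : Nat.Coprime N (2 * (2 ^ K - 1)))
    (h2 : ∀ l ∈ (Ioc Lb Z).filter Nat.Prime, ∀ q ∈ QK κ Z l, q.Prime → q ≠ 2 →
      l ∣ orderOf (2 : ZMod q) → orderOf (2 : ZMod q) ∣ K * l → ¬ q ∣ N) (q : ℕ) (hq : q.Prime) (hqN : q ∣ N)
    (hqZ : q ≤ Z) (l : ℕ) (hl : l.Prime) (hlo : l ∣ orderOf (2 : ZMod q)) : (l : ℝ) < 20 * (q : ℝ) ^ κ := by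
  by_contra hle
  push Not at hle
  have hcop : Nat.Coprime q (2 * (2 ^ K - 1)) := Nat.Coprime.coprime_dvd_left hqN h1
  rw [Nat.Prime.coprime_iff_not_dvd hq] at hcop
  have hq2 : q ≠ 2 := by
    rintro rfl
    exact hcop (dvd_mul_right _ _)
  have : Fact q.Prime := ⟨hq⟩
  obtain ⟨d, hd⟩ : ∃ d : ℕ, d = orderOf (2 : ZMod q) := ⟨_, rfl⟩
  have hdq : d ∣ q - 1 := by rw [hd]; exact order_dvd_sub q hq hq2
  have hq1 := hq.two_le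
  have hdpos : 0 < d := Nat.pos_of_dvd_of_pos hdq (by omega)
  have hdle : d ≤ q - 1 := Nat.le_of_dvd (by omega) hdq
  have hlo' : l ∣ d := by rw [hd]; exact hlo
  obtain ⟨e, he⟩ := hlo'
  have he1 : 1 ≤ e := by
    rcases Nat.eq_zero_or_pos e with h | h
    · rw [h, mul_zero] at he; omega
    · exact h
  -- `e ≤ Lb`
  have hqr : (1 : ℝ) ≤ q := by exact_mod_cast hq.pos
  have hq0 : (0 : ℝ) < q := by linarith
  have heLb : e ≤ Lb := by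
    have h3 : (l : ℝ) * e ≤ q := by
      have : l * e ≤ q := by rw [← he]; omega
      exact_mod_cast this
    have h4 : (q : ℝ) = (q : ℝ) ^ κ * (q : ℝ) ^ (1 - κ) := by
      rw [← Real.rpow_add hq0]
      simp
    have h5 : 0 < (q : ℝ) ^ κ := Real.rpow_pos_of_pos hq0 _
    have h6 : (q : ℝ) ^ κ * e ≤ (q : ℝ) ^ κ * (q : ℝ) ^ (1 - κ) := by
      rw [← h4]
      have h7 : (q : ℝ) ^ κ * e ≤ (l : ℝ) * e := by
        apply mul_le_mul_of_nonneg_right _ (Nat.cast_nonneg e)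
        linarith
      linarith
    have h7 : (e : ℝ) ≤ (q : ℝ) ^ (1 - κ) := le_of_mul_le_mul_left h6 h5
    have h8 : (q : ℝ) ^ (1 - κ) ≤ (Z : ℝ) ^ (1 - κ) :=
      Real.rpow_le_rpow hq0.le (by exact_mod_cast hqZ) (by linarith)
    exact_mod_cast h7.trans (h8.trans hZ)
  have heL : e ∣ Nat.lcmUpto Lb := dvd_lcmUpto e Lb he1 heLb
  by_cases hlLb : l ≤ Lb
  · apply hcop
    apply Dvd.dvd.mul_left
    have h3 : d ∣ K := by
      rw [he, hK]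
      have : Nat.lcmUpto Lb ^ 3 = Nat.lcmUpto Lb * Nat.lcmUpto Lb * Nat.lcmUpto Lb := by ring
      rw [this]
      exact (Nat.mul_dvd_mul (dvd_lcmUpto l Lb hl.pos hlLb) heL).mul_right _
    rw [hd] at h3
    have h4 : (2 : ZMod q) ^ K = 1 := orderOf_dvd_iff_pow_eq_one.1 h3
    have h5 : ((2 ^ K - 1 : ℕ) : ZMod q) = 0 := by
      rw [Nat.cast_sub Nat.one_le_two_pow]
      push_cast
      rw [h4]
      ring
    exact (ZMod.natCast_eq_zero_iff _ _).1 h5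
  · push Not at hlLb
    have hld : l ≤ d := Nat.le_of_dvd hdpos ⟨e, he⟩
    apply h2 l _ q _ hq hq2 _ _ hqN
    · rw [Finset.mem_filter, Finset.mem_Ioc]
      exact ⟨⟨hlLb, by omega⟩, hl⟩
    · unfold QK
      rw [Finset.mem_filter, Finset.mem_range]
      exact ⟨by omega, hle⟩
    · rw [← hd, he]; exact dvd_mul_right _ _
    · rw [← hd, he, hK, mul_comm l e]
      exact Nat.mul_dvd_mul_right (heL.trans (dvd_pow_self _ (by norm_num))) l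

theorem finA_small (κ : ℝ) (hκ : 1 / 2 ≤ κ) (hκ1 : κ < 1) (ε : ℝ) (hε : 0 < ε) (hε1 : ε ≤ 1 / 100) :
    ∃ c : ℝ, 0 < c ∧ ∃ n0 : ℕ, ∀ n : ℕ, n0 ≤ n → Odd n →
    ∃ S : Finset (ℕ × ℕ × ℕ × ℕ), (n : ℝ) ^ (1 - ε) ≤ (S.card : ℝ) ∧
      ∀ x y z w : ℕ, (x, y, z, w) ∈ S → n = x ^ 2 + y ^ 2 + z ^ 2 + w ^ 2 ∧
        ∀ q : ℕ, q.Prime → q ∣ 2 ^ (x + y) + 2 ^ (z + w) + 1 → (q : ℝ) ≤ c * Real.log n ^ (1 / (1 - κ)) →
          ∀ l : ℕ, l.Prime → l ∣ orderOf (2 : ZMod q) → (l : ℝ) < 20 * (q : ℝ) ^ κ := by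
  classical
  have hk : 0 < 1 - κ := by linarith
  obtain ⟨C, hC, δ, hδ, n1, hmain⟩ := main_sieve (ε / 2) (by positivity)
  obtain ⟨c1, hc1⟩ : ∃ c1 : ℝ, c1 = min 1 (δ / 5112) := ⟨_, rfl⟩
  have hc1pos : 0 < c1 := by rw [hc1]; exact lt_min one_pos (by positivity)
  have hc1δ : c1 ≤ δ / 5112 := by rw [hc1]; exact min_le_right _ _
  obtain ⟨a, ha⟩ : ∃ a : ℝ, a = 1 / (1 - κ) := ⟨_, rfl⟩
  have ha0 : 0 ≤ a := by rw [ha]; positivity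
  obtain ⟨M, hM⟩ : ∃ M : ℝ, M = 5 * (5 / (1 - κ) ^ 2) * (25600 * (a + 1)) := ⟨_, rfl⟩
  have hM0 : 0 < M := by rw [hM]; positivity
  obtain ⟨c, hc, hpa⟩ := par_a2 κ c1 M hκ hκ1 hc1pos hM0
  rw [← ha] at hpa ⊢
  have hev := hpa.and ((par_d2 a (δ / 284) ha0 (by positivity)).and
    ((par_e δ c1 hδ hc1pos hc1δ).and ((par_f2 ε C a hε hε1 hC ha0).and (ev_log_ge 1))))
  have htend : Tendsto (fun n : ℕ => Real.log (n : ℝ)) atTop atTop :=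
    Real.tendsto_log_atTop.comp tendsto_natCast_atTop_atTop
  have hev2 := htend.eventually hev
  rw [Filter.eventually_atTop] at hev2
  obtain ⟨n2, hn2⟩ := hev2
  refine ⟨c, hc, n1 + n2 + 1, ?_⟩
  intro n hn hno
  obtain ⟨⟨gLb, gyZ, gZy, gZk, gMy, gy⟩, gd, ge, gf, gl1⟩ := hn2 n (by omega)
  have hnpos : (0 : ℝ) < n := by exact_mod_cast hno.pos
  obtain ⟨y, hy⟩ : ∃ y : ℝ, y = Real.log (n : ℝ) := ⟨_, rfl⟩
  rw [← hy] at gLb gyZ gZy gZk gMy gy gd ge gf gl1 ⊢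
  have hrp : ∀ a : ℝ, (n : ℝ) ^ a = Real.exp (a * y) := by
    intro a
    rw [Real.rpow_def_of_pos hnpos, ← hy, mul_comm]
  obtain ⟨Lb, hLb⟩ : ∃ Lb : ℕ, Lb = ⌊c1 * y⌋₊ := ⟨_, rfl⟩
  obtain ⟨Z, hZ⟩ : ∃ Z : ℕ, Z = ⌊c * y ^ a⌋₊ := ⟨_, rfl⟩
  rw [← hLb] at gLb gZk ge
  rw [← hZ] at gyZ gZy gZk gMy
  have hZ16 : 16 ≤ Z := by
    have : (16 : ℝ) ≤ Z := by linarith
    exact_mod_cast this
  obtain ⟨J, hJ⟩ : ∃ J : ℕ, J = ⌊Real.exp (δ / 284 * y)⌋₊ := ⟨_, rfl⟩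
  have gd' := gd Z (by omega) gZy
  rw [← hJ] at gd' ge
  obtain ⟨K, hK⟩ : ∃ K : ℕ, K = Nat.lcmUpto Lb ^ 3 := ⟨_, rfl⟩
  have hKpos : 0 < K := by rw [hK]; exact pow_pos (Nat.lcmUpto_pos Lb) 3
  obtain ⟨P, hPd⟩ : ∃ P : Finset ℕ, P = (Ioc Lb Z).filter Nat.Prime := ⟨_, rfl⟩
  have hP : ∀ l ∈ P, l.Prime ∧ 16 ≤ l ∧ l ≤ Z ∧ ¬ l ∣ 4 * K := by
    intro l hl
    rw [hPd, Finset.mem_filter, Finset.mem_Ioc] at hl
    obtain ⟨⟨hl1, hl2⟩, hlp⟩ := hl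
    refine ⟨hlp, by omega, hl2, fun h => ?_⟩
    rcases hlp.dvd_mul.1 h with h | h
    · have := Nat.le_of_dvd (by norm_num) h
      omega
    · rw [hK] at h
      have := prime_dvd_lcmUpto l Lb hlp (hlp.dvd_of_dvd_pow h)
      omega
  obtain ⟨j, hj1, hj2, hj3⟩ := exists_j Z P (fun l hl => ⟨(hP l hl).1, (hP l hl).2.1, (hP l hl).2.2.1⟩) (4 * K)
    (fun l hl => (hP l hl).2.2.2) J (by omega) gd'
  have hy0 : 0 < y := by linarith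
  obtain ⟨V, hV⟩ : ∃ V : ℝ, V = 5 * (5 / (1 - κ) ^ 2 * ((Z : ℝ) ^ (1 - κ) / Real.log Z)) := ⟨_, rfl⟩
  have hlogZ : Real.log y ≤ Real.log Z := Real.log_le_log hy0 gyZ
  have hlogZ0 : 0 < Real.log Z := by linarith
  have hV0 : 0 ≤ V := by rw [hV]; positivity
  have hVw : V * Real.log y ≤ 1 / (25600 * (a + 1)) * y := by
    have h1 : V * Real.log y ≤ V * Real.log Z := mul_le_mul_of_nonneg_left hlogZ hV0
    have h2 : V * Real.log Z = 5 * (5 / (1 - κ) ^ 2) * (Z : ℝ) ^ (1 - κ) := by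
      rw [hV]; field_simp
    have h3 : 5 * (5 / (1 - κ) ^ 2) * (Z : ℝ) ^ (1 - κ) = 1 / (25600 * (a + 1)) * (M * (Z : ℝ) ^ (1 - κ)) := by
      rw [hM]; field_simp
    rw [h2, h3] at h1
    exact h1.trans (mul_le_mul_of_nonneg_left gMy (by positivity))
  have hsum := sum_aK κ hκ hκ1 Lb Z (by omega)
  rw [← hV, ← hPd] at hsum
  obtain ⟨k, hk', hsv⟩ := hmain V hV0
  have hfin := gf V hV0 hVw k hk' Z gZy
  have hsize : ((j * (4 * K) : ℕ) : ℝ) ^ 71 ≤ (n : ℝ) ^ δ := by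
    have h1 := ge (K : ℝ) (by exact_mod_cast hKpos) (by rw [hK]; exact log_lcm3 Lb) (j : ℝ) (Nat.cast_nonneg j)
      (by exact_mod_cast hj2)
    rw [hrp]
    push_cast
    exact h1
  obtain ⟨S, hS1, hS2⟩ := hsv n K j (by omega) hno hKpos (by omega) hsize Z P (fun l => QK κ Z l)
    (fun l hl => ⟨(hP l hl).1, (hP l hl).2.2.1, (hP l hl).2.2.2, by
      have := hj3 l hl
      rw [← Nat.cast_mul] at this
      exact this⟩) (fun l => 100 * (aK κ Z l : ℝ) / l)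
    (fun l hl => by
      have h1 := aK_le κ hκ hκ1 Z l (hP l hl).1
      have hlr : (16 : ℝ) ≤ l := by exact_mod_cast (hP l hl).2.1
      have hl0 : (0 : ℝ) < l := by linarith
      constructor
      · rw [div_le_div_iff₀ hl0 (by norm_num)]
        linarith
      · show 50 * (aK κ Z l : ℝ) * (l : ℝ) ^ 2 ≤ 100 * (aK κ Z l : ℝ) / l * ((l : ℝ) ^ 3 - l)
        rw [div_mul_eq_mul_div, le_div_iff₀ hl0]
        have ha0 : (0 : ℝ) ≤ aK κ Z l := Nat.cast_nonneg _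
        have h3 : (l : ℝ) ^ 3 ≤ 2 * ((l : ℝ) ^ 3 - l) := by nlinarith [mul_pos hl0 hl0]
        calc 50 * (aK κ Z l : ℝ) * (l : ℝ) ^ 2 * l = (50 * aK κ Z l) * (l : ℝ) ^ 3 := by ring
          _ ≤ (50 * aK κ Z l) * (2 * ((l : ℝ) ^ 3 - l)) := by gcongr
          _ = _ := by ring) hsum
  refine ⟨S, ?_, ?_⟩
  · rw [hrp] at hS1
    rw [hrp (24 / 25)] at hS1
    rw [hrp]
    linarith
  · intro x y' z w hxyzw
    obtain ⟨g1, g2, g3⟩ := hS2 x y' z w hxyzw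
    refine ⟨g1, fun q hq hqN hqc l hl hlo => ?_⟩
    have hqZ : q ≤ Z := by rw [hZ]; exact Nat.le_floor hqc
    exact no_large κ hκ hκ1 Lb Z K hK gZk _ g2 (by rw [← hPd]; exact g3) q hq hqN hqZ l hl hlo

theorem finA (κ : ℝ) (hκ : 1 / 2 ≤ κ) (hκ1 : κ < 1) (ε : ℝ) (hε : 0 < ε) :
    ∃ c : ℝ, 0 < c ∧ ∃ n0 : ℕ, ∀ n : ℕ, n0 ≤ n → Odd n →
    ∃ S : Finset (ℕ × ℕ × ℕ × ℕ), (n : ℝ) ^ (1 - ε) ≤ (S.card : ℝ) ∧
      ∀ x y z w : ℕ, (x, y, z, w) ∈ S → n = x ^ 2 + y ^ 2 + z ^ 2 + w ^ 2 ∧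
        ∀ q : ℕ, q.Prime → q ∣ 2 ^ (x + y) + 2 ^ (z + w) + 1 → (q : ℝ) ≤ c * Real.log n ^ (1 / (1 - κ)) →
          ∀ l : ℕ, l.Prime → l ∣ orderOf (2 : ZMod q) → (l : ℝ) < 20 * (q : ℝ) ^ κ := by
  obtain ⟨c, hc, n0, h⟩ := finA_small κ hκ hκ1 (min ε (1 / 100)) (lt_min hε (by norm_num)) (min_le_right _ _)
  refine ⟨c, hc, n0, fun n hn hno => ?_⟩
  obtain ⟨S, h1, h2⟩ := h n hn hno
  refine ⟨S, le_trans ?_ h1, h2⟩
  apply Real.rpow_le_rpow_of_exponent_le (by exact_mod_cast hno.pos)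
  have := min_le_left ε (1 / 100)
  linarith

end Pool.Agent.X9.SQ
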