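import Pool.Agent.X9.SQ.MainF
import Pool.Agent.X9.SQ.Fin1
import Pool.Agent.X9.SQ.FinA

/-!
# Prime factors of `2 ^ x + 2 ^ y + 2 ^ z + 1`
-/

set_option autoImplicit false
open Finset Filter

namespace Pool.Agent.X9.SQ
open Pool.Agent.W65.FS Pool.Agent.TH696.FA

lemma log_3lcm3 (Y : ℕ) (hY : 1 ≤ Y) : Real.log (3 * ((Nat.lcmUpto Y ^ 3 : ℕ) : ℝ)) ≤ 18 * Y := by
  have hp : (0 : ℝ) < (Nat.lcmUpto Y : ℕ) := by exact_mod_cast Nat.lcmUpto_pos Y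
  push_cast
  rw [Real.log_mul (by norm_num) (by positivity), Real.log_pow, ← Chebyshev.psi_eq_log_lcmUpto]
  have h1 := Chebyshev.psi_le_const_mul_self (x := (Y : ℝ)) (by positivity)
  have h4 : Real.log 4 ≤ 1.4 := by
    have : Real.log 4 = 2 * Real.log 2 := by
      rw [show (4 : ℝ) = 2 ^ 2 by norm_num, Real.log_pow]; norm_num
    rw [this]
    have := Real.log_two_lt_d9
    linarith
  have h5 : Real.log 3 ≤ 1.4 := (Real.log_le_log (by norm_num) (by norm_num)).trans h4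
  have hYr : (1 : ℝ) ≤ Y := by exact_mod_cast hY
  have h6 : (Real.log 4 + 4) * Y ≤ 5.4 * Y := mul_le_mul_of_nonneg_right (by linarith) (by linarith)
  push_cast
  linarith

/-- a prime with the second alternative is large -/
lemma no_small2 (Lb Z K : ℕ) (hK : K = Nat.lcmUpto Lb ^ 3) (hZ : 200 * Z ≤ Lb ^ 2) (q : ℕ) (hq : q.Prime) (hq2 : q ≠ 2)
    (h1 : ¬ orderOf (2 : ZMod q) ∣ K)
    (h2 : ∀ l ∈ (Ioc Lb Z).filter Nat.Prime, q ∈ Finset.range (Z + 1) →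
      l ∣ orderOf (2 : ZMod q) → ¬ orderOf (2 : ZMod q) ∣ K * l) : Z < q := by
  by_contra hle
  push Not at hle
  obtain ⟨d, hd⟩ : ∃ d : ℕ, d = orderOf (2 : ZMod q) := ⟨_, rfl⟩
  have hdq : d ∣ q - 1 := by rw [hd]; exact order_dvd_sub q hq hq2
  have hq1 := hq.two_le
  have hdpos : 0 < d := Nat.pos_of_dvd_of_pos hdq (by omega)
  have hdle : d ≤ q - 1 := Nat.le_of_dvd (by omega) hdq
  rcases order_split Lb d hdpos (by omega) with h | ⟨l, hl, hLl, hld, hdl⟩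
  · apply h1
    rw [← hd, hK]
    exact h
  · have hle2 : l ≤ d := Nat.le_of_dvd hdpos hld
    apply h2 l _ _ _ _
    · rw [Finset.mem_filter, Finset.mem_Ioc]
      exact ⟨⟨hLl, by omega⟩, hl⟩
    · rw [Finset.mem_range]
      omega
    · rw [← hd]; exact hld
    · rw [← hd, hK]; exact hdl

/-- a prime `q ≤ Z` with a large prime factor in the order does not have the second alternative -/
lemma no_large2 (κ : ℝ) (hκ1 : κ < 1) (Lb Z K : ℕ) (hK : K = Nat.lcmUpto Lb ^ 3)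
    (hZ : (Z : ℝ) ^ (1 - κ) ≤ Lb) (q : ℕ) (hq : q.Prime) (hq2 : q ≠ 2)
    (h1 : ¬ orderOf (2 : ZMod q) ∣ K)
    (h2 : ∀ l ∈ (Ioc Lb Z).filter Nat.Prime, q ∈ QK κ Z l →
      l ∣ orderOf (2 : ZMod q) → ¬ orderOf (2 : ZMod q) ∣ K * l)
    (hqZ : q ≤ Z) (l : ℕ) (hl : l.Prime) (hlo : l ∣ orderOf (2 : ZMod q)) : (l : ℝ) < 20 * (q : ℝ) ^ κ := by
  by_contra hle
  push Not at hle
  obtain ⟨d, hd⟩ : ∃ d : ℕ, d = orderOf (2 : ZMod q) := ⟨_, rfl⟩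
  have hdq : d ∣ q - 1 := by rw [hd]; exact order_dvd_sub q hq hq2
  have hq1 := hq.two_le
  have hdpos : 0 < d := Nat.pos_of_dvd_of_pos hdq (by omega)
  have hdle : d ≤ q - 1 := Nat.le_of_dvd (by omega) hdq
  have hlo' : l ∣ d := by rw [hd]; exact hlo
  obtain ⟨e, he⟩ := hlo'
  have he1 : 1 ≤ e := by
    rcases Nat.eq_zero_or_pos e with h | h
    · rw [h, mul_zero] at he; omega
    · exact h
  have hqr : (1 : ℝ) ≤ q := by exact_mod_cast hq.pos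
  have hq0 : (0 : ℝ) < q := by linarith
  have heLb : e ≤ Lb := by
    have h3 : (l : ℝ) * e ≤ q := by
      have : l * e ≤ q := by rw [← he]; omega
      exact_mod_cast this
    have h4 : (q : ℝ) = (q : ℝ) ^ κ * (q : ℝ) ^ (1 - κ) := by
      rw [← Real.rpow_add hq0]
      simp
    have h5 : 0 < (q : ℝ) ^ κ := Real.rpow_pos_of_pos hq0 _
    have h6 : (q : ℝ) ^ κ * e ≤ (q : ℝ) ^ κ * (q : ℝ) ^ (1 - κ) := by
      rw [← h4]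
      have h7 : (q : ℝ) ^ κ * e ≤ (l : ℝ) * e := by
        apply mul_le_mul_of_nonneg_right _ (Nat.cast_nonneg e)
        linarith
      linarith
    have h7 : (e : ℝ) ≤ (q : ℝ) ^ (1 - κ) := le_of_mul_le_mul_left h6 h5
    have h8 : (q : ℝ) ^ (1 - κ) ≤ (Z : ℝ) ^ (1 - κ) :=
      Real.rpow_le_rpow hq0.le (by exact_mod_cast hqZ) (by linarith)
    exact_mod_cast h7.trans (h8.trans hZ)
  have heL : e ∣ Nat.lcmUpto Lb := dvd_lcmUpto e Lb he1 heLb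
  by_cases hlLb : l ≤ Lb
  · apply h1
    rw [← hd, he, hK]
    have : Nat.lcmUpto Lb ^ 3 = Nat.lcmUpto Lb * Nat.lcmUpto Lb * Nat.lcmUpto Lb := by ring
    rw [this]
    exact (Nat.mul_dvd_mul (dvd_lcmUpto l Lb hl.pos hlLb) heL).mul_right _
  · push Not at hlLb
    have hld : l ≤ d := Nat.le_of_dvd hdpos ⟨e, he⟩
    apply h2 l _ _ _ _
    · rw [Finset.mem_filter, Finset.mem_Ioc]
      exact ⟨⟨hlLb, by omega⟩, hl⟩
    · unfold QK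
      rw [Finset.mem_filter, Finset.mem_range]
      exact ⟨by omega, hle⟩
    · rw [← hd, he]; exact dvd_mul_right _ _
    · rw [← hd, he, hK, mul_comm l e]
      exact Nat.mul_dvd_mul_right (heL.trans (dvd_pow_self _ (by norm_num))) l

theorem fin1F_small (ε : ℝ) (hε : 0 < ε) (hε1 : ε ≤ 1 / 100) : ∃ c : ℝ, 0 < c ∧ ∃ n0 : ℕ, ∀ n : ℕ, n0 ≤ n → Odd n →
    ∃ S : Finset (ℕ × ℕ × ℕ × ℕ), (n : ℝ) ^ (1 - ε) ≤ (S.card : ℝ) ∧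
      ∀ x y z w : ℕ, (x, y, z, w) ∈ S → n = x ^ 2 + y ^ 2 + z ^ 2 + 4 * w ^ 2 ∧
        ∀ q : ℕ, q.Prime → q ∣ 2 ^ x + 2 ^ y + 2 ^ z + 1 → (q : ℝ) ≤ c * Real.log n ^ 2 →
          q ≠ 2 ∧ (Exc n (orderOf (2 : ZMod q)) ∨
            (¬ 3 ∣ n ∧ n % 32 ≠ 13 ∧ q ≠ 7 ∧ 3 ∣ orderOf (2 : ZMod q))) := by
  classical
  obtain ⟨C, hC, δ, hδ, n1, hmain⟩ := mainF (ε / 2) (by positivity)
  obtain ⟨c1, hc1⟩ : ∃ c1 : ℝ, c1 = min 1 (δ / 5112) := ⟨_, rfl⟩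
  have hc1pos : 0 < c1 := by rw [hc1]; exact lt_min one_pos (by positivity)
  have hc11 : c1 ≤ 1 := by rw [hc1]; exact min_le_left _ _
  have hc1δ : c1 ≤ δ / 5112 := by rw [hc1]; exact min_le_right _ _
  obtain ⟨c2, hc2⟩ : ∃ c2 : ℝ, c2 = c1 ^ 2 / 10 ^ 8 := ⟨_, rfl⟩
  have hc2pos : 0 < c2 := by rw [hc2]; positivity
  have hev := (par_ab c1 c2 hc1pos hc11 hc2).and ((par_d (δ / 284) (by positivity)).and
    ((par_e δ c1 hδ hc1pos hc1δ).and ((par_f ε C c1 c2 hε hε1 hC hc1pos hc11 hc2).and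
      ((ev_log_ge 1).and (ev_log_ge (2 * Real.log (2 / c1)))))))
  have htend : Tendsto (fun n : ℕ => Real.log (n : ℝ)) atTop atTop :=
    Real.tendsto_log_atTop.comp tendsto_natCast_atTop_atTop
  have hev2 := htend.eventually hev
  rw [Filter.eventually_atTop] at hev2
  obtain ⟨n2, hn2⟩ := hev2
  refine ⟨c2, hc2pos, n1 + n2 + 1, ?_⟩
  intro n hn hno
  obtain ⟨⟨gLb, gZ1, gZL, gLbr, gZr, gZy, gy⟩, gd, ge, gf, gl1, gl2⟩ := hn2 n (by omega)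
  have hnpos : (0 : ℝ) < n := by exact_mod_cast hno.pos
  obtain ⟨y, hy⟩ : ∃ y : ℝ, y = Real.log (n : ℝ) := ⟨_, rfl⟩
  rw [← hy] at gLb gZ1 gZL gLbr gZr gZy gy gd ge gf gl1 gl2
  have hexp : Real.exp y = n := by rw [hy, Real.exp_log hnpos]
  have hrp : ∀ a : ℝ, (n : ℝ) ^ a = Real.exp (a * y) := by
    intro a
    rw [Real.rpow_def_of_pos hnpos, ← hy, mul_comm]
  obtain ⟨Lb, hLb⟩ : ∃ Lb : ℕ, Lb = ⌊c1 * y⌋₊ := ⟨_, rfl⟩
  obtain ⟨Z, hZ⟩ : ∃ Z : ℕ, Z = ⌊c2 * y ^ 2⌋₊ := ⟨_, rfl⟩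
  rw [← hLb] at gLb gZL gLbr ge
  rw [← hZ] at gZ1 gZL gZr
  have hZy2 : (Z : ℝ) ≤ y ^ 2 := gZr.trans gZy
  obtain ⟨J, hJ⟩ : ∃ J : ℕ, J = ⌊Real.exp (δ / 284 * y)⌋₊ := ⟨_, rfl⟩
  have gd' := gd Z gZ1 hZy2
  rw [← hJ] at gd' ge
  obtain ⟨K, hK⟩ : ∃ K : ℕ, K = Nat.lcmUpto Lb ^ 3 := ⟨_, rfl⟩
  have hKpos : 0 < K := by rw [hK]; exact pow_pos (Nat.lcmUpto_pos Lb) 3
  obtain ⟨hP, hsum⟩ := one_step Lb Z gLb gZL
  rw [← hK] at hP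
  obtain ⟨P, hPd⟩ : ∃ P : Finset ℕ, P = (Ioc Lb Z).filter Nat.Prime := ⟨_, rfl⟩
  rw [← hPd] at hP hsum
  have hP12 : ∀ l ∈ P, ¬ l ∣ 12 * K := by
    intro l hl h
    have e : 12 * K = 3 * (4 * K) := by ring
    rw [e] at h
    rcases (hP l hl).1.dvd_mul.1 h with h | h
    · have := Nat.le_of_dvd (by norm_num) h
      have := (hP l hl).2.1
      omega
    · exact (hP l hl).2.2.2.1 h
  -- the choice of j
  obtain ⟨j, hj1, hj2, hj3⟩ := exists_j Z P (fun l hl => ⟨(hP l hl).1, (hP l hl).2.1, (hP l hl).2.2.1⟩) (12 * K)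
    hP12 J gZ1 gd'
  -- the parameter V
  have hy0 : 0 < y := by linarith
  have hLbpos : (0 : ℝ) < Lb := by exact_mod_cast (by omega : 0 < Lb)
  have hlogLb : Real.log y / 2 ≤ Real.log Lb := by
    have h1 : Real.log (c1 * y / 2) ≤ Real.log Lb := Real.log_le_log (by positivity) gLbr
    have h2 : Real.log (c1 * y / 2) = Real.log y - Real.log (2 / c1) := by
      rw [← Real.log_div hy0.ne' (by positivity)]
      congr 1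
      field_simp
    linarith
  obtain ⟨V, hV⟩ : ∃ V : ℝ, V = 300 * Z / (Lb * Real.log Lb) := ⟨_, rfl⟩
  have hlogLb0 : 0 < Real.log Lb := by linarith
  have hV0 : 0 ≤ V := by rw [hV]; positivity
  have hVle : V ≤ 300 * (c2 * y ^ 2) / ((c1 * y / 2) * (Real.log y / 2)) := by
    rw [hV]
    apply div_le_div₀ (by positivity) (by linarith) (by positivity)
    apply mul_le_mul gLbr hlogLb (by linarith) hLbpos.le
  rw [← hV] at hsum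
  obtain ⟨k, hk, hsv⟩ := hmain V hV0
  have hfin := gf V hV0 hVle k hk Z hZy2
  have hsize : ((j * (12 * K) : ℕ) : ℝ) ^ 71 ≤ (n : ℝ) ^ δ := by
    have h1 := ge (3 * (K : ℝ)) (by positivity) (by rw [hK]; exact log_3lcm3 Lb (by omega)) (j : ℝ) (Nat.cast_nonneg j)
      (by exact_mod_cast hj2)
    rw [hrp]
    refine le_trans (le_of_eq ?_) h1
    push_cast
    ring
  obtain ⟨S, hS1, hS2⟩ := hsv n K j (by omega) hno hKpos (by omega) hsize Z P (fun _ => Finset.range (Z + 1))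
    (fun l hl => ⟨(hP l hl).1, (hP l hl).2.2.1, hP12 l hl, by
      have := hj3 l hl
      rw [← Nat.cast_mul] at this
      exact this⟩) (fun l => 100 * (Z : ℝ) / (l : ℝ) ^ 2)
    (fun l hl => ⟨(hP l hl).2.2.2.2.1, (hP l hl).2.2.2.2.2⟩) hsum
  refine ⟨S, ?_, ?_⟩
  · rw [hrp] at hS1
    rw [hrp (24 / 25)] at hS1
    rw [hrp]
    linarith
  · intro x y' z w hxyzw
    obtain ⟨g1, g2⟩ := hS2 x y' z w hxyzw
    refine ⟨g1, fun q hq hqN hqc => ?_⟩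
    obtain ⟨k1, k2⟩ := g2 q hq hqN
    refine ⟨k1, ?_⟩
    rcases k2 with k2 | ⟨k2, k3⟩
    · exact k2
    · exfalso
      have h1 := no_small2 Lb Z K hK gZL q hq k1 k2 (by rw [← hPd]; exact k3)
      have h2 : q ≤ Z := by
        rw [hZ]
        apply Nat.le_floor
        rw [hy]
        exact hqc
      omega

/-- `q ≤ c (log n) ^ 2` -/
theorem fin1F (ε : ℝ) (hε : 0 < ε) : ∃ c : ℝ, 0 < c ∧ ∃ n0 : ℕ, ∀ n : ℕ, n0 ≤ n → Odd n →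
    ∃ S : Finset (ℕ × ℕ × ℕ × ℕ), (n : ℝ) ^ (1 - ε) ≤ (S.card : ℝ) ∧
      ∀ x y z w : ℕ, (x, y, z, w) ∈ S → n = x ^ 2 + y ^ 2 + z ^ 2 + 4 * w ^ 2 ∧
        ∀ q : ℕ, q.Prime → q ∣ 2 ^ x + 2 ^ y + 2 ^ z + 1 → (q : ℝ) ≤ c * Real.log n ^ 2 →
          q ≠ 2 ∧ (Exc n (orderOf (2 : ZMod q)) ∨
            (¬ 3 ∣ n ∧ n % 32 ≠ 13 ∧ q ≠ 7 ∧ 3 ∣ orderOf (2 : ZMod q))) := by
  obtain ⟨c, hc, n0, h⟩ := fin1F_small (min ε (1 / 100)) (lt_min hε (by norm_num)) (min_le_right _ _)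
  refine ⟨c, hc, n0, fun n hn hno => ?_⟩
  obtain ⟨S, h1, h2⟩ := h n hn hno
  refine ⟨S, le_trans ?_ h1, h2⟩
  apply Real.rpow_le_rpow_of_exponent_le (by exact_mod_cast hno.pos)
  have := min_le_left ε (1 / 100)
  linarith

theorem finAF_small (κ : ℝ) (hκ : 1 / 2 ≤ κ) (hκ1 : κ < 1) (ε : ℝ) (hε : 0 < ε) (hε1 : ε ≤ 1 / 100) :
    ∃ c : ℝ, 0 < c ∧ ∃ n0 : ℕ, ∀ n : ℕ, n0 ≤ n → Odd n →
    ∃ S : Finset (ℕ × ℕ × ℕ × ℕ), (n : ℝ) ^ (1 - ε) ≤ (S.card : ℝ) ∧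
      ∀ x y z w : ℕ, (x, y, z, w) ∈ S → n = x ^ 2 + y ^ 2 + z ^ 2 + 4 * w ^ 2 ∧
        ∀ q : ℕ, q.Prime → q ∣ 2 ^ x + 2 ^ y + 2 ^ z + 1 → (q : ℝ) ≤ c * Real.log n ^ (1 / (1 - κ)) →
          q ≠ 2 ∧ ((∀ l : ℕ, l.Prime → l ∣ orderOf (2 : ZMod q) → (l : ℝ) < 20 * (q : ℝ) ^ κ) ∨
            Exc n (orderOf (2 : ZMod q)) ∨
            (¬ 3 ∣ n ∧ n % 32 ≠ 13 ∧ q ≠ 7 ∧ 3 ∣ orderOf (2 : ZMod q))) := by
  classical
  have hk : 0 < 1 - κ := by linarith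
  obtain ⟨C, hC, δ, hδ, n1, hmain⟩ := mainF (ε / 2) (by positivity)
  obtain ⟨c1, hc1⟩ : ∃ c1 : ℝ, c1 = min 1 (δ / 5112) := ⟨_, rfl⟩
  have hc1pos : 0 < c1 := by rw [hc1]; exact lt_min one_pos (by positivity)
  have hc1δ : c1 ≤ δ / 5112 := by rw [hc1]; exact min_le_right _ _
  obtain ⟨a, ha⟩ : ∃ a : ℝ, a = 1 / (1 - κ) := ⟨_, rfl⟩
  have ha0 : 0 ≤ a := by rw [ha]; positivity
  obtain ⟨M, hM⟩ : ∃ M : ℝ, M = 5 * (5 / (1 - κ) ^ 2) * (25600 * (a + 1)) := ⟨_, rfl⟩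
  have hM0 : 0 < M := by rw [hM]; positivity
  obtain ⟨c, hc, hpa⟩ := par_a2 κ c1 M hκ hκ1 hc1pos hM0
  rw [← ha] at hpa ⊢
  have hev := hpa.and ((par_d2 a (δ / 284) ha0 (by positivity)).and
    ((par_e δ c1 hδ hc1pos hc1δ).and ((par_f2 ε C a hε hε1 hC ha0).and (ev_log_ge 1))))
  have htend : Tendsto (fun n : ℕ => Real.log (n : ℝ)) atTop atTop :=
    Real.tendsto_log_atTop.comp tendsto_natCast_atTop_atTop
  have hev2 := htend.eventually hev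
  rw [Filter.eventually_atTop] at hev2
  obtain ⟨n2, hn2⟩ := hev2
  refine ⟨c, hc, n1 + n2 + 1, ?_⟩
  intro n hn hno
  obtain ⟨⟨gLb, gyZ, gZy, gZk, gMy, gy⟩, gd, ge, gf, gl1⟩ := hn2 n (by omega)
  have hnpos : (0 : ℝ) < n := by exact_mod_cast hno.pos
  obtain ⟨y, hy⟩ : ∃ y : ℝ, y = Real.log (n : ℝ) := ⟨_, rfl⟩
  rw [← hy] at gLb gyZ gZy gZk gMy gy gd ge gf gl1 ⊢
  have hrp : ∀ a : ℝ, (n : ℝ) ^ a = Real.exp (a * y) := by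
    intro a
    rw [Real.rpow_def_of_pos hnpos, ← hy, mul_comm]
  obtain ⟨Lb, hLb⟩ : ∃ Lb : ℕ, Lb = ⌊c1 * y⌋₊ := ⟨_, rfl⟩
  obtain ⟨Z, hZ⟩ : ∃ Z : ℕ, Z = ⌊c * y ^ a⌋₊ := ⟨_, rfl⟩
  rw [← hLb] at gLb gZk ge
  rw [← hZ] at gyZ gZy gZk gMy
  have hZ16 : 16 ≤ Z := by
    have : (16 : ℝ) ≤ Z := by linarith
    exact_mod_cast this
  obtain ⟨J, hJ⟩ : ∃ J : ℕ, J = ⌊Real.exp (δ / 284 * y)⌋₊ := ⟨_, rfl⟩
  have gd' := gd Z (by omega) gZy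
  rw [← hJ] at gd' ge
  obtain ⟨K, hK⟩ : ∃ K : ℕ, K = Nat.lcmUpto Lb ^ 3 := ⟨_, rfl⟩
  have hKpos : 0 < K := by rw [hK]; exact pow_pos (Nat.lcmUpto_pos Lb) 3
  obtain ⟨P, hPd⟩ : ∃ P : Finset ℕ, P = (Ioc Lb Z).filter Nat.Prime := ⟨_, rfl⟩
  have hP : ∀ l ∈ P, l.Prime ∧ 16 ≤ l ∧ l ≤ Z ∧ ¬ l ∣ 12 * K := by
    intro l hl
    rw [hPd, Finset.mem_filter, Finset.mem_Ioc] at hl
    obtain ⟨⟨hl1, hl2⟩, hlp⟩ := hl
    refine ⟨hlp, by omega, hl2, fun h => ?_⟩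
    rcases hlp.dvd_mul.1 h with h | h
    · have := Nat.le_of_dvd (by norm_num) h
      omega
    · rw [hK] at h
      have := prime_dvd_lcmUpto l Lb hlp (hlp.dvd_of_dvd_pow h)
      omega
  obtain ⟨j, hj1, hj2, hj3⟩ := exists_j Z P (fun l hl => ⟨(hP l hl).1, (hP l hl).2.1, (hP l hl).2.2.1⟩) (12 * K)
    (fun l hl => (hP l hl).2.2.2) J (by omega) gd'
  have hy0 : 0 < y := by linarith
  obtain ⟨V, hV⟩ : ∃ V : ℝ, V = 5 * (5 / (1 - κ) ^ 2 * ((Z : ℝ) ^ (1 - κ) / Real.log Z)) := ⟨_, rfl⟩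
  have hlogZ : Real.log y ≤ Real.log Z := Real.log_le_log hy0 gyZ
  have hlogZ0 : 0 < Real.log Z := by linarith
  have hV0 : 0 ≤ V := by rw [hV]; positivity
  have hVw : V * Real.log y ≤ 1 / (25600 * (a + 1)) * y := by
    have h1 : V * Real.log y ≤ V * Real.log Z := mul_le_mul_of_nonneg_left hlogZ hV0
    have h2 : V * Real.log Z = 5 * (5 / (1 - κ) ^ 2) * (Z : ℝ) ^ (1 - κ) := by
      rw [hV]; field_simp
    have h3 : 5 * (5 / (1 - κ) ^ 2) * (Z : ℝ) ^ (1 - κ) = 1 / (25600 * (a + 1)) * (M * (Z : ℝ) ^ (1 - κ)) := by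
      rw [hM]; field_simp
    rw [h2, h3] at h1
    exact h1.trans (mul_le_mul_of_nonneg_left gMy (by positivity))
  have hsum := sum_aK κ hκ hκ1 Lb Z (by omega)
  rw [← hV, ← hPd] at hsum
  obtain ⟨k, hk', hsv⟩ := hmain V hV0
  have hfin := gf V hV0 hVw k hk' Z gZy
  have hsize : ((j * (12 * K) : ℕ) : ℝ) ^ 71 ≤ (n : ℝ) ^ δ := by
    have h1 := ge (3 * (K : ℝ)) (by positivity) (by rw [hK]; exact log_3lcm3 Lb (by omega)) (j : ℝ) (Nat.cast_nonneg j)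
      (by exact_mod_cast hj2)
    rw [hrp]
    refine le_trans (le_of_eq ?_) h1
    push_cast
    ring
  obtain ⟨S, hS1, hS2⟩ := hsv n K j (by omega) hno hKpos (by omega) hsize Z P (fun l => QK κ Z l)
    (fun l hl => ⟨(hP l hl).1, (hP l hl).2.2.1, (hP l hl).2.2.2, by
      have := hj3 l hl
      rw [← Nat.cast_mul] at this
      exact this⟩) (fun l => 100 * (aK κ Z l : ℝ) / l)
    (fun l hl => by
      have h1 := aK_le κ hκ hκ1 Z l (hP l hl).1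
      have hlr : (16 : ℝ) ≤ l := by exact_mod_cast (hP l hl).2.1
      have hl0 : (0 : ℝ) < l := by linarith
      constructor
      · rw [div_le_div_iff₀ hl0 (by norm_num)]
        linarith
      · show 50 * (aK κ Z l : ℝ) * (l : ℝ) ^ 2 ≤ 100 * (aK κ Z l : ℝ) / l * ((l : ℝ) ^ 3 - l)
        rw [div_mul_eq_mul_div, le_div_iff₀ hl0]
        have ha0 : (0 : ℝ) ≤ aK κ Z l := Nat.cast_nonneg _
        have h3 : (l : ℝ) ^ 3 ≤ 2 * ((l : ℝ) ^ 3 - l) := by nlinarith [mul_pos hl0 hl0]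
        calc 50 * (aK κ Z l : ℝ) * (l : ℝ) ^ 2 * l = (50 * aK κ Z l) * (l : ℝ) ^ 3 := by ring
          _ ≤ (50 * aK κ Z l) * (2 * ((l : ℝ) ^ 3 - l)) := by gcongr
          _ = _ := by ring) hsum
  refine ⟨S, ?_, ?_⟩
  · rw [hrp] at hS1
    rw [hrp (24 / 25)] at hS1
    rw [hrp]
    linarith
  · intro x y' z w hxyzw
    obtain ⟨g1, g2⟩ := hS2 x y' z w hxyzw
    refine ⟨g1, fun q hq hqN hqc => ?_⟩
    obtain ⟨k1, k2⟩ := g2 q hq hqN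
    refine ⟨k1, ?_⟩
    rcases k2 with k2 | ⟨k2, k3⟩
    · exact Or.inr k2
    · left
      intro l hl hlo
      have hqZ : q ≤ Z := by rw [hZ]; exact Nat.le_floor hqc
      exact no_large2 κ hκ1 Lb Z K hK gZk q hq k1 k2 (by rw [← hPd]; exact k3) hqZ l hl hlo

/-- `q ≤ c (log n) ^ (1 / (1 - κ))` -/
theorem finAF (κ : ℝ) (hκ : 1 / 2 ≤ κ) (hκ1 : κ < 1) (ε : ℝ) (hε : 0 < ε) :
    ∃ c : ℝ, 0 < c ∧ ∃ n0 : ℕ, ∀ n : ℕ, n0 ≤ n → Odd n →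
    ∃ S : Finset (ℕ × ℕ × ℕ × ℕ), (n : ℝ) ^ (1 - ε) ≤ (S.card : ℝ) ∧
      ∀ x y z w : ℕ, (x, y, z, w) ∈ S → n = x ^ 2 + y ^ 2 + z ^ 2 + 4 * w ^ 2 ∧
        ∀ q : ℕ, q.Prime → q ∣ 2 ^ x + 2 ^ y + 2 ^ z + 1 → (q : ℝ) ≤ c * Real.log n ^ (1 / (1 - κ)) →
          q ≠ 2 ∧ ((∀ l : ℕ, l.Prime → l ∣ orderOf (2 : ZMod q) → (l : ℝ) < 20 * (q : ℝ) ^ κ) ∨
            Exc n (orderOf (2 : ZMod q)) ∨
            (¬ 3 ∣ n ∧ n % 32 ≠ 13 ∧ q ≠ 7 ∧ 3 ∣ orderOf (2 : ZMod q))) := by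
  obtain ⟨c, hc, n0, h⟩ := finAF_small κ hκ hκ1 (min ε (1 / 100)) (lt_min hε (by norm_num)) (min_le_right _ _)
  refine ⟨c, hc, n0, fun n hn hno => ?_⟩
  obtain ⟨S, h1, h2⟩ := h n hn hno
  refine ⟨S, le_trans ?_ h1, h2⟩
  apply Real.rpow_le_rpow_of_exponent_le (by exact_mod_cast hno.pos)
  have := min_le_left ε (1 / 100)
  linarith

end Pool.Agent.X9.SQ
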