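import Pool.Agent.X9.SQ.JC

/-!
# Integers `j` with `N(jD)` free of prime factors from a given set, continued
-/

set_option autoImplicit false
open Finset

namespace Pool.Agent.X9.SQ

/-- the denominators of the rotations -/
def N1 (t : ℤ) : ℤ := 41 * t ^ 2 + 10 * t + 1
def N2 (t : ℤ) : ℤ := N1 (t * N1 t)

open Polynomial in
lemma roots_le (l : ℕ) (hl : l.Prime) (D : ℕ) (hlD : ¬ l ∣ D) :
    ((Finset.range l).filter (fun a : ℕ => (l : ℤ) ∣ N1 (a * D) * N2 (a * D))).card ≤ 8 := by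
  classical
  have : Fact l.Prime := ⟨hl⟩
  obtain ⟨f, hf⟩ : ∃ f : (ZMod l)[X], f = C 41 * X ^ 2 + C 10 * X + 1 := ⟨_, rfl⟩
  obtain ⟨g, hg⟩ : ∃ g : (ZMod l)[X], g = C 41 * (X * f) ^ 2 + C 10 * (X * f) + 1 := ⟨_, rfl⟩
  have hf2 : f.natDegree ≤ 2 := by rw [hf]; compute_degree
  have hXf : (X * f).natDegree ≤ 3 := by
    refine natDegree_mul_le.trans ?_
    have := natDegree_X_le (R := ZMod l)
    omega
  have hg6 : g.natDegree ≤ 6 := by
    rw [hg]
    refine (natDegree_add_le _ _).trans (max_le ((natDegree_add_le _ _).trans (max_le ?_ ?_)) ?_)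
    · refine (natDegree_C_mul_le _ _).trans (natDegree_pow_le.trans ?_)
      omega
    · refine (natDegree_C_mul_le _ _).trans ?_
      omega
    · rw [natDegree_one]
      omega
  have hfg : (f * g).natDegree ≤ 8 := natDegree_mul_le.trans (by omega)
  have hne : f * g ≠ 0 := by
    intro h
    have h1 : (f * g).eval 0 = 0 := by rw [h]; simp
    rw [hg, hf] at h1
    simp at h1
  have heval : ∀ t : ℤ, (f * g).eval (t : ZMod l) = ((N1 t * N2 t : ℤ) : ZMod l) := by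
    intro t
    rw [hg, hf]
    simp only [eval_mul, eval_add, eval_pow, eval_C, eval_X, eval_one, N1, N2]
    push_cast
    ring
  have h8 : (f * g).roots.toFinset.card ≤ 8 :=
    (Multiset.toFinset_card_le _).trans ((card_roots' _).trans hfg)
  refine le_trans ?_ h8
  apply Finset.card_le_card_of_injOn (fun a : ℕ => (((a * D : ℕ) : ℤ) : ZMod l))
  · intro a ha
    rw [Finset.mem_coe, Finset.mem_filter] at ha
    rw [Finset.mem_coe, Multiset.mem_toFinset, mem_roots hne, IsRoot.def, heval]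
    have h1 := ha.2
    rw [← ZMod.intCast_zmod_eq_zero_iff_dvd] at h1
    push_cast at h1 ⊢
    exact h1
  · intro a ha b hb hab
    rw [Finset.mem_coe, Finset.mem_filter, Finset.mem_range] at ha hb
    simp only at hab
    push_cast at hab
    have hD0 : (D : ZMod l) ≠ 0 := by
      rw [Ne, ZMod.natCast_eq_zero_iff]
      exact hlD
    have h1 : (a : ZMod l) = b := mul_right_cancel₀ hD0 hab
    rw [ZMod.natCast_eq_natCast_iff] at h1
    have h2 := h1
    unfold Nat.ModEq at h2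
    rwa [Nat.mod_eq_of_lt ha.1, Nat.mod_eq_of_lt hb.1] at h2

lemma sum_inv_le (P : Finset ℕ) (z : ℕ) (hP : ∀ l ∈ P, 1 ≤ l ∧ l ≤ z) : ∑ l ∈ P, 1 / (l : ℝ) ≤ 1 + Real.log z := by
  have h1 : ∑ l ∈ P, 1 / (l : ℝ) ≤ ∑ l ∈ Icc 1 z, 1 / (l : ℝ) := by
    apply Finset.sum_le_sum_of_subset_of_nonneg
    · intro l hl
      exact Finset.mem_Icc.2 (hP l hl)
    · intro l _ _
      positivity
  have h2 := harmonic_le_one_add_log z
  rw [harmonic_eq_sum_Icc] at h2
  push_cast at h2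
  simp only [one_div] at h1 ⊢
  linarith

theorem exists_j (z : ℕ) (P : Finset ℕ) (hP : ∀ l ∈ P, l.Prime ∧ 16 ≤ l ∧ l ≤ z) (D : ℕ) (hD : ∀ l ∈ P, ¬ l ∣ D)
    (J : ℕ) (hz : 1 ≤ z)
    (hJ : 2 * Real.exp (16 * (1 + Real.log z)) * (8 * ((z : ℝ) + 1)) ^ (64 * (1 + Real.log z) + 3 : ℝ) < J) :
    ∃ j : ℕ, 1 ≤ j ∧ j ≤ J ∧ ∀ l ∈ P, ¬ (l : ℤ) ∣ N1 (j * D) * N2 (j * D) := by
  classical
  have hlog : 0 ≤ Real.log z := Real.log_nonneg (by exact_mod_cast hz)
  obtain ⟨V, hV⟩ : ∃ V : ℝ, V = 8 * (1 + Real.log z) := ⟨_, rfl⟩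
  have hV0 : 0 ≤ V := by rw [hV]; positivity
  obtain ⟨k, hk, hs⟩ := pure_sieve2 V hV0
  obtain ⟨A, hA⟩ : ∃ A : ℕ → Finset ℕ, ∀ l, A l = (Finset.range l).filter (fun a : ℕ => (l : ℤ) ∣ N1 (a * D) * N2 (a * D)) :=
    ⟨_, fun l => rfl⟩
  have hAlt : ∀ l, ∀ a ∈ A l, a < l := by
    intro l a ha
    rw [hA, Finset.mem_filter, Finset.mem_range] at ha
    exact ha.1
  have hA8 : ∀ l ∈ P, ((A l).card : ℝ) ≤ 8 := by
    intro l hl
    have := roots_le l (hP l hl).1 D (hD l hl)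
    rw [← hA l] at this
    exact_mod_cast this
  have hβ : ∀ l ∈ P, 0 ≤ ((A l).card : ℝ) / l ∧ ((A l).card : ℝ) / l ≤ 1 / 2 := by
    intro l hl
    have h1 : (16 : ℝ) ≤ l := by exact_mod_cast (hP l hl).2.1
    refine ⟨by positivity, ?_⟩
    rw [div_le_div_iff₀ (by linarith) (by norm_num)]
    linarith [hA8 l hl]
  have hsum : ∑ l ∈ P, ((A l).card : ℝ) / l ≤ V := by
    calc ∑ l ∈ P, ((A l).card : ℝ) / l ≤ ∑ l ∈ P, 8 * (1 / (l : ℝ)) := by
          apply Finset.sum_le_sum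
          intro l hl
          have h1 : (16 : ℝ) ≤ l := by exact_mod_cast (hP l hl).2.1
          rw [mul_one_div]
          exact div_le_div_of_nonneg_right (hA8 l hl) (by linarith)
      _ = 8 * ∑ l ∈ P, 1 / (l : ℝ) := by rw [Finset.mul_sum]
      _ ≤ V := by
        rw [hV]
        apply mul_le_mul_of_nonneg_left _ (by norm_num)
        exact sum_inv_le P z (fun l hl => ⟨(hP l hl).1.pos, (hP l hl).2.2⟩)
  have h1 := hs (Ioc 0 J) P (fun l x => x % l ∈ A l) (fun _ _ => True) (fun l => ((A l).card : ℝ) / l) hβ hsum (8 ^ k)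
    (fun T hT hTk => by
      have h2 := ap_count_T J T (fun l hl => (hP l (hT hl)).1) A (fun l _ => hAlt l)
      have h3 : ∏ l ∈ T, ((A l).card : ℝ) ≤ 8 ^ k := by
        calc ∏ l ∈ T, ((A l).card : ℝ) ≤ ∏ l ∈ T, (8 : ℝ) :=
              Finset.prod_le_prod (fun _ _ => Nat.cast_nonneg _) (fun l hl => hA8 l (hT hl))
          _ = 8 ^ T.card := by rw [Finset.prod_const]
          _ ≤ 8 ^ k := pow_le_pow_right₀ (by norm_num) hTk
      have e : (Ioc 0 J).filter (fun _ => ∀ l ∈ T, True) = Ioc 0 J := by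
        apply Finset.filter_true_of_mem
        intro _ _ _ _
        trivial
      have h4 : |((((Ioc 0 J).filter (fun x => ∀ l ∈ T, x % l ∈ A l)).card : ℕ) : ℝ) -
          (∏ l ∈ T, ((A l).card : ℝ) / l) * (((Ioc 0 J).filter (fun _ => ∀ l ∈ T, True)).card : ℕ)| ≤ 8 ^ k := by
        rw [e, Nat.card_Ioc, Nat.sub_zero]
        exact h2.trans h3
      convert h4)
  have hPcard : (P.card : ℝ) ≤ z := by
    have h2 : P ⊆ Finset.Icc 1 z := fun l hl => Finset.mem_Icc.2 ⟨(hP l hl).1.pos, (hP l hl).2.2⟩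
    have h3 := Finset.card_le_card h2
    rw [Nat.card_Icc] at h3
    exact_mod_cast (by omega : P.card ≤ z)
  have hzr : (1 : ℝ) ≤ z := by exact_mod_cast hz
  have h2 : ((P.card : ℝ) + 1) ^ k * 8 ^ k ≤ (8 * ((z : ℝ) + 1)) ^ (64 * (1 + Real.log z) + 3 : ℝ) := by
    calc ((P.card : ℝ) + 1) ^ k * 8 ^ k = (8 * ((P.card : ℝ) + 1)) ^ k := by rw [mul_pow]; ring
      _ ≤ (8 * ((z : ℝ) + 1)) ^ k := by gcongr
      _ = (8 * ((z : ℝ) + 1)) ^ (k : ℝ) := (Real.rpow_natCast _ _).symm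
      _ ≤ _ := by
        apply Real.rpow_le_rpow_of_exponent_le (by linarith)
        rw [hV] at hk
        linarith
  have h3 : (0 : ℝ) < (((Ioc 0 J).filter (fun x => ∀ l ∈ P, ¬ x % l ∈ A l)).card : ℕ) := by
    refine lt_of_lt_of_le ?_ (le_trans h1 (le_of_eq (by congr 3)))
    rw [Nat.card_Ioc, Nat.sub_zero]
    have h4 : (8 * ((z : ℝ) + 1)) ^ (64 * (1 + Real.log z) + 3 : ℝ) < (J : ℝ) * (Real.exp (-(2 * V)) / 2) := by
      have h5 : Real.exp (-(2 * V)) / 2 = 1 / (2 * Real.exp (16 * (1 + Real.log z))) := by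
        rw [Real.exp_neg, hV]
        have : 2 * (8 * (1 + Real.log z)) = 16 * (1 + Real.log z) := by ring
        rw [this]
        field_simp
      rw [h5, mul_one_div, lt_div_iff₀ (by positivity)]
      linarith
    linarith
  have h4 : 0 < ((Ioc 0 J).filter (fun x => ∀ l ∈ P, ¬ x % l ∈ A l)).card := by exact_mod_cast h3
  obtain ⟨j, hj⟩ := Finset.card_pos.1 h4
  rw [Finset.mem_filter, Finset.mem_Ioc] at hj
  refine ⟨j, hj.1.1, hj.1.2, fun l hl hd => hj.2 l hl ?_⟩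
  rw [hA, Finset.mem_filter, Finset.mem_range]
  refine ⟨Nat.mod_lt _ (hP l hl).1.pos, ?_⟩
  have e1 : (l : ℤ) ∣ ((j : ℤ) - ((j % l : ℕ) : ℤ)) := by
    push_cast
    exact Int.dvd_self_sub_emod
  obtain ⟨t, ht⟩ := e1
  have e2 : ((j % l : ℕ) : ℤ) = j - l * t := by rw [← ht]; ring
  rw [e2]
  have : Fact l.Prime := ⟨(hP l hl).1⟩
  rw [← ZMod.intCast_zmod_eq_zero_iff_dvd] at hd ⊢
  rw [← hd]
  simp only [N1, N2]
  push_cast
  simp

end Pool.Agent.X9.SQ
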