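import Pool.Agent.X9.SQ.FinF
import Pool.Agent.TH696.FA.Hens
import Pool.Agent.TH696.FA.Local2

/-!
# Local solutions with refined conditions
-/

set_option autoImplicit false
open Finset Filter

namespace Pool.Agent.X9.SQ
open Pool.Agent.W65.FS Pool.Agent.TH696.FA

lemma sqrt_neg_one (l : ℕ) (hl : l.Prime) (h : l % 4 ≠ 3) : ∃ i : ℤ, (l : ℤ) ∣ i ^ 2 + 1 := by
  have : Fact l.Prime := ⟨hl⟩
  obtain ⟨a, ha⟩ := (ZMod.exists_sq_eq_neg_one_iff (p := l)).2 h
  refine ⟨(a.val : ℤ), ?_⟩
  rw [← ZMod.intCast_zmod_eq_zero_iff_dvd]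
  push_cast
  rw [ZMod.natCast_zmod_val]
  linear_combination -ha

lemma sqrt_neg_three (l : ℕ) (hl : l.Prime) (h : l % 3 = 1) : ∃ i : ℤ, (l : ℤ) ∣ i ^ 2 + 3 := by
  have : Fact l.Prime := ⟨hl⟩
  have h3 : 3 ∣ Fintype.card (ZMod l)ˣ := by
    rw [ZMod.card_units]
    have := hl.two_le
    omega
  obtain ⟨g, hg⟩ := exists_prime_orderOf_dvd_card (p := 3) h3
  have hg3 : g ^ 3 = 1 := by rw [← hg]; exact pow_orderOf_eq_one g
  have hg1 : g ≠ 1 := by
    rintro rfl
    rw [orderOf_one] at hg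
    norm_num at hg
  obtain ⟨a, ha⟩ : ∃ a : ZMod l, a = (g : ZMod l) := ⟨_, rfl⟩
  have ha3 : a ^ 3 = 1 := by
    rw [ha, ← Units.val_pow_eq_pow_val, hg3, Units.val_one]
  have ha1 : a - 1 ≠ 0 := by
    intro h
    apply hg1
    apply Units.ext
    rw [← ha, Units.val_one]
    exact sub_eq_zero.1 h
  have hq : a ^ 2 + a + 1 = 0 := by
    have : (a - 1) * (a ^ 2 + a + 1) = 0 := by linear_combination ha3
    exact (mul_eq_zero.1 this).resolve_left ha1
  refine ⟨2 * (a.val : ℤ) + 1, ?_⟩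
  rw [← ZMod.intCast_zmod_eq_zero_iff_dvd]
  push_cast
  rw [ZMod.natCast_zmod_val]
  linear_combination 4 * hq

/-- `X² + d W²` represents `t` modulo `m` if this is so modulo the squares of the prime factors -/
lemma binaryR (d t : ℤ) : ∀ m : ℕ, 0 < m → IsCoprime (2 * d) (m : ℤ) →
    (∀ l : ℕ, l.Prime → l ^ 2 ∣ m → (l : ℤ) ∣ t → ∃ i : ℤ, (l : ℤ) ∣ i ^ 2 + d) →
    ∃ X W : ℤ, (m : ℤ) ∣ X ^ 2 + d * W ^ 2 - t ∧
      ∀ l : ℕ, l.Prime → l ∣ m → ((l : ℤ) ∣ t → ∃ i : ℤ, (l : ℤ) ∣ i ^ 2 + d) → ¬ ((l : ℤ) ∣ X ∧ (l : ℤ) ∣ W) := by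
  intro m
  induction m using Nat.strong_induction_on with
  | _ m ih =>
    intro hm hd hgood
    by_cases h1 : m = 1
    · subst h1
      refine ⟨0, 0, by simp, fun l hl hl1 _ => ?_⟩
      exact absurd (Nat.dvd_one.1 hl1) hl.one_lt.ne'
    · obtain ⟨l, hl⟩ : ∃ l : ℕ, l = m.minFac := ⟨_, rfl⟩
      have hlp : l.Prime := by rw [hl]; exact Nat.minFac_prime h1
      have hlpZ : Prime (l : ℤ) := Nat.prime_iff_prime_int.1 hlp
      obtain ⟨m', hm'⟩ : l ∣ m := by rw [hl]; exact Nat.minFac_dvd m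
      have hm'0 : 0 < m' := by
        rcases Nat.eq_zero_or_pos m' with h | h
        · rw [h] at hm'; omega
        · exact h
      have hm'lt : m' < m := by
        rw [hm']
        exact (Nat.lt_mul_iff_one_lt_left hm'0).2 hlp.one_lt
      have hmZ : (m : ℤ) = l * m' := by exact_mod_cast hm'
      have hdm' : IsCoprime (2 * d) (m' : ℤ) := by rw [hmZ] at hd; exact hd.of_mul_right_right
      have hdl : IsCoprime (2 * d) (l : ℤ) := by rw [hmZ] at hd; exact hd.of_mul_right_left
      obtain ⟨X, W, ⟨F, hF⟩, hprim⟩ := ih m' hm'lt hm'0 hdm'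
        (fun l' hl' hl'm hl't => hgood l' hl' (hl'm.trans (by rw [hm']; exact dvd_mul_left _ _)) hl't)
      by_cases hlm' : l ∣ m'
      · -- Hensel step
        obtain ⟨m'', hm''⟩ := hlm'
        have hm''Z : (m' : ℤ) = l * m'' := by exact_mod_cast hm''
        have hl2m : l ^ 2 ∣ m := by
          rw [hm', hm'']
          exact ⟨m'', by ring⟩
        have hXW : ¬ ((l : ℤ) ∣ X ∧ (l : ℤ) ∣ W) := hprim l hlp ⟨m'', hm''⟩ (hgood l hlp hl2m)
        have h2l : IsCoprime (2 : ℤ) (l : ℤ) := hdl.of_mul_left_left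
        have keep : ∀ X' W' : ℤ, (m' : ℤ) ∣ X' - X → (m' : ℤ) ∣ W' - W →
            ∀ l' : ℕ, l'.Prime → l' ∣ m → ((l' : ℤ) ∣ t → ∃ i : ℤ, (l' : ℤ) ∣ i ^ 2 + d) →
              ¬ ((l' : ℤ) ∣ X' ∧ (l' : ℤ) ∣ W') := by
          intro X' W' hX' hW' l' hl' hl'm hg ⟨g1, g2⟩
          have hl'm' : l' ∣ m' := by
            rw [hm'] at hl'm
            rcases hl'.dvd_mul.1 hl'm with h | h
            · rw [(Nat.prime_dvd_prime_iff_eq hl' hlp).1 h]
              exact ⟨m'', hm''⟩
            · exact h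
          have hz : (l' : ℤ) ∣ (m' : ℤ) := by exact_mod_cast hl'm'
          apply hprim l' hl' hl'm' hg
          constructor
          · have e : X = X' - (X' - X) := by ring
            rw [e]; exact dvd_sub g1 (hz.trans hX')
          · have e : W = W' - (W' - W) := by ring
            rw [e]; exact dvd_sub g2 (hz.trans hW')
        by_cases hX : (l : ℤ) ∣ X
        · have hW : ¬ (l : ℤ) ∣ W := fun h => hXW ⟨hX, h⟩
          have hWl : IsCoprime W (l : ℤ) := ((Prime.coprime_iff_not_dvd hlpZ).2 hW).symm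
          have hc : IsCoprime (2 * d * W) (l : ℤ) := IsCoprime.mul_left hdl hWl
          obtain ⟨p, q, hpq⟩ := hc
          refine ⟨X, W + m' * (-(F * p)), ⟨q * F + d * m'' * (F * p) ^ 2, ?_⟩,
            keep _ _ (by simp) ⟨-(F * p), by ring⟩⟩
          rw [hmZ]
          have e1 : X ^ 2 + d * (W + m' * (-(F * p))) ^ 2 - t =
            (X ^ 2 + d * W ^ 2 - t) - (m' : ℤ) * (2 * d * W * (F * p)) + d * m' ^ 2 * (F * p) ^ 2 := by ring
          rw [e1, hF]
          have e2 : p * (2 * d * W) = 1 - q * l := by linear_combination hpq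
          have e3 : (m' : ℤ) ^ 2 = m' * (l * m'') := by rw [← hm''Z]; ring
          rw [e3]
          linear_combination (-(m' : ℤ) * F) * e2
        · have hXl : IsCoprime X (l : ℤ) := ((Prime.coprime_iff_not_dvd hlpZ).2 hX).symm
          have hc : IsCoprime (2 * X) (l : ℤ) := IsCoprime.mul_left h2l hXl
          obtain ⟨p, q, hpq⟩ := hc
          refine ⟨X + m' * (-(F * p)), W, ⟨q * F + m'' * (F * p) ^ 2, ?_⟩,
            keep _ _ ⟨-(F * p), by ring⟩ (by simp)⟩
          rw [hmZ]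
          have e1 : (X + m' * (-(F * p))) ^ 2 + d * W ^ 2 - t =
            (X ^ 2 + d * W ^ 2 - t) - (m' : ℤ) * (2 * X * (F * p)) + m' ^ 2 * (F * p) ^ 2 := by ring
          rw [e1, hF]
          have e3 : (m' : ℤ) ^ 2 = m' * (l * m'') := by rw [← hm''Z]; ring
          rw [e3]
          linear_combination (-(m' : ℤ) * F) * hpq
      · -- new prime
        have hcop : IsCoprime (l : ℤ) (m' : ℤ) := Nat.isCoprime_iff_coprime.2 ((Nat.Prime.coprime_iff_not_dvd hlp).2 hlm')
        have : Fact l.Prime := ⟨hlp⟩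
        obtain ⟨Y, V, hYV, hYV2⟩ : ∃ Y V : ℤ, (l : ℤ) ∣ Y ^ 2 + d * V ^ 2 - t ∧
            (((l : ℤ) ∣ t → ∃ i : ℤ, (l : ℤ) ∣ i ^ 2 + d) → ¬ ((l : ℤ) ∣ Y ∧ (l : ℤ) ∣ V)) := by
          by_cases hlt : (l : ℤ) ∣ t
          · by_cases hi : ∃ i : ℤ, (l : ℤ) ∣ i ^ 2 + d
            · obtain ⟨i, hi⟩ := hi
              refine ⟨i, 1, ?_, fun _ ⟨_, g⟩ => hlpZ.not_isUnit (isUnit_of_dvd_one g)⟩
              have e : i ^ 2 + d * 1 ^ 2 - t = (i ^ 2 + d) - t := by ring
              rw [e]
              exact dvd_sub hi hlt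
            · refine ⟨0, 0, ?_, fun h => absurd (h hlt) hi⟩
              have e : (0 : ℤ) ^ 2 + d * 0 ^ 2 - t = -t := by ring
              rw [e]
              exact hlt.neg_right
          · have hd0 : ((d : ℤ) : ZMod l) ≠ 0 := by
              intro h
              have h3 : (l : ℤ) ∣ d := (ZMod.intCast_zmod_eq_zero_iff_dvd _ _).1 h
              exact hlpZ.not_isUnit ((hdl.of_mul_left_right).isUnit_of_dvd' h3 dvd_rfl)
            have hl2 : l ≠ 2 := by
              intro h
              have h2l : IsCoprime (2 : ℤ) (l : ℤ) := hdl.of_mul_left_left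
              rw [h] at h2l
              have := h2l.isUnit_of_dvd' (dvd_refl _) (by norm_num)
              rw [Int.isUnit_iff] at this
              omega
            have hcard : Fintype.card (ZMod l) % 2 = 1 := by
              rw [ZMod.card]
              exact hlp.eq_two_or_odd.resolve_left hl2
            obtain ⟨a, b, hab⟩ := FiniteField.exists_root_sum_quadratic
              (f := (Polynomial.X ^ 2 : Polynomial (ZMod l)))
              (g := (Polynomial.C ((d : ℤ) : ZMod l) * Polynomial.X ^ 2 - Polynomial.C ((t : ℤ) : ZMod l)))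
              (Polynomial.degree_X_pow 2)
              (by
                rw [Polynomial.degree_sub_C]
                · exact Polynomial.degree_C_mul_X_pow 2 hd0
                · rw [Polynomial.degree_C_mul_X_pow 2 hd0]
                  norm_num)
              hcard
            have hroot : (l : ℤ) ∣ (a.val : ℤ) ^ 2 + d * (b.val : ℤ) ^ 2 - t := by
              rw [← ZMod.intCast_zmod_eq_zero_iff_dvd]
              push_cast
              rw [ZMod.natCast_zmod_val, ZMod.natCast_zmod_val]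
              simp only [Polynomial.eval_pow, Polynomial.eval_X, Polynomial.eval_sub, Polynomial.eval_mul,
                Polynomial.eval_C] at hab
              linear_combination hab
            refine ⟨(a.val : ℤ), (b.val : ℤ), hroot, fun _ ⟨g1, g2⟩ => hlt ?_⟩
            have e : t = (a.val : ℤ) * (a.val : ℤ) + (b.val : ℤ) * (d * (b.val : ℤ)) -
              ((a.val : ℤ) ^ 2 + d * (b.val : ℤ) ^ 2 - t) := by ring
            rw [e]
            exact dvd_sub (dvd_add (g1.mul_right _) (g2.mul_right _)) hroot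
        obtain ⟨X', hx1, hx2⟩ := crt2 _ _ hcop Y X
        obtain ⟨W', hw1, hw2⟩ := crt2 _ _ hcop V W
        refine ⟨X', W', ?_, ?_⟩
        · rw [hmZ]
          apply IsCoprime.mul_dvd hcop
          · have e : X' ^ 2 + d * W' ^ 2 - t = (X' - Y) * (X' + Y) + (W' - V) * (d * (W' + V)) + (Y ^ 2 + d * V ^ 2 - t) := by ring
            rw [e]
            exact dvd_add (dvd_add (hx1.mul_right _) (hw1.mul_right _)) hYV
          · have e : X' ^ 2 + d * W' ^ 2 - t = (X' - X) * (X' + X) + (W' - W) * (d * (W' + W)) + (X ^ 2 + d * W ^ 2 - t) := by ring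
            rw [e]
            exact dvd_add (dvd_add (hx2.mul_right _) (hw2.mul_right _)) ⟨F, hF⟩
        · intro l' hl' hl'm hg ⟨g1, g2⟩
          rw [hm'] at hl'm
          rcases hl'.dvd_mul.1 hl'm with h | h
          · have hll := (Nat.prime_dvd_prime_iff_eq hl' hlp).1 h
            subst hll
            apply hYV2 hg
            constructor
            · have e : Y = X' - (X' - Y) := by ring
              rw [e]; exact dvd_sub g1 hx1
            · have e : V = W' - (W' - V) := by ring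
              rw [e]; exact dvd_sub g2 hw1
          · have hz : (l' : ℤ) ∣ (m' : ℤ) := by exact_mod_cast h
            apply hprim l' hl' h hg
            constructor
            · have e : X = X' - (X' - X) := by ring
              rw [e]; exact dvd_sub g1 (hz.trans hx2)
            · have e : W = W' - (W' - W) := by ring
              rw [e]; exact dvd_sub g2 (hz.trans hw2)

/-- the part of the modulus coprime to `2 α` -/
lemma MpartR (α β C n : ℤ) (M : ℕ) (hM : 0 < M) (hα : IsCoprime α (M : ℤ)) (h2 : IsCoprime 2 (M : ℤ))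
    (hsq : ∀ l : ℕ, l.Prime → l ^ 2 ∣ M → (l : ℤ) ∣ α * (n - C) + β ^ 2 → ∃ i : ℤ, (l : ℤ) ∣ i ^ 2 + α) :
    ∃ z W : ℤ, (M : ℤ) ∣ α * z ^ 2 + 2 * β * z + C + W ^ 2 - n := by
  obtain ⟨X, W, hXW, _⟩ := binaryR α (α * (n - C) + β ^ 2) M hM (IsCoprime.mul_left h2 hα) hsq
  obtain ⟨a, b, hab⟩ := hα
  refine ⟨a * (X - β), W, ?_⟩
  have hfin : (M : ℤ) ∣ α * (α * (a * (X - β)) ^ 2 + 2 * β * (a * (X - β)) + C + W ^ 2 - n) := by
    have e0 : a * α = 1 - b * M := by linear_combination hab
    have e1 : α * (a * (X - β)) + β = X - M * (b * (X - β)) := by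
      linear_combination (X - β) * e0
    have e : α * (α * (a * (X - β)) ^ 2 + 2 * β * (a * (X - β)) + C + W ^ 2 - n) =
        (α * (a * (X - β)) + β) ^ 2 + α * W ^ 2 - (α * (n - C) + β ^ 2) := by
      ring
    rw [e, e1]
    have e2 : (X - M * (b * (X - β))) ^ 2 + α * W ^ 2 - (α * (n - C) + β ^ 2) =
      (X ^ 2 + α * W ^ 2 - (α * (n - C) + β ^ 2)) + M * (-(2 * X * (b * (X - β))) + M * (b * (X - β)) ^ 2) := by ring
    rw [e2]
    exact dvd_add hXW (dvd_mul_right _ _)
  have hα' : IsCoprime (M : ℤ) α := ⟨b, a, by linear_combination hab⟩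
  exact hα'.dvd_of_dvd_mul_left hfin

end Pool.Agent.X9.SQ
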