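import Pool.Agent.X9.SQ.OrdF
import Pool.Agent.X9.SQ.Par
import Pool.Agent.Y440.LC.Main2

/-!
# The sieve for `2 ^ x + 2 ^ y + 2 ^ z + 1` in the classes of the starting library
-/

set_option autoImplicit false
open Finset Filter

namespace Pool.Agent.X9.SQ
open Pool.Agent.W65.FS Pool.Agent.TH696.FA Pool.Agent.Y440.LC

/-- the classes -/
lemma classA (n K : ℕ) (hno : Odd n) (hres : 3 ∣ n ∨ n % 32 = 13) (hK : 0 < K)
    (hsq : ∀ l : ℕ, l.Prime → 5 ≤ l → l ^ 2 ∣ K → ¬ (l : ℤ) ∣ (3 * n - 2) * (9 * n - 2)) :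
    ∃ u : Fin 4 → ℤ, GoodG n (12 * K) u ∧ (2 : ℤ) ∣ u 3 ∧ ∀ x y z : ℕ, ((12 * K : ℕ) : ℤ) ∣ (x : ℤ) - u 0 →
      ((12 * K : ℕ) : ℤ) ∣ (y : ℤ) - u 1 → ((12 * K : ℕ) : ℤ) ∣ (z : ℤ) - u 2 →
      Nat.Coprime (2 ^ x + 2 ^ y + 2 ^ z + 1) (2 * (2 ^ K - 1)) := by
  obtain ⟨v, L, hL, hKL⟩ := Nat.exists_eq_two_pow_mul_odd hK.ne'
  have hL0 : L ≠ 0 := by rintro rfl; simp at hL
  obtain ⟨w, M, hM3, hLM⟩ := Nat.exists_eq_pow_mul_and_not_dvd hL0 3 (by norm_num)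
  have hM0 : 0 < M := by
    rcases Nat.eq_zero_or_pos M with h0 | h0
    · rw [h0] at hM3; simp at hM3
    · exact h0
  have hM2 : ¬ 2 ∣ M := by
    intro h2
    rw [hLM] at hL
    have h2' : 2 ∣ 3 ^ w * M := h2.mul_left _
    exact (Nat.not_even_iff_odd.2 hL) (even_iff_two_dvd.2 h2')
  have hM6 : Nat.Coprime 6 M := by
    have e : (6 : ℕ) = 2 * 3 := by norm_num
    rw [e]
    exact Nat.Coprime.mul_left ((Nat.Prime.coprime_iff_not_dvd Nat.prime_two).2 hM2)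
      ((Nat.Prime.coprime_iff_not_dvd Nat.prime_three).2 hM3)
  have hKM : K = 2 ^ v * 3 ^ w * M := by rw [hKL, hLM]; ring
  have hsqM : ∀ l : ℕ, l.Prime → l ^ 2 ∣ M → ¬ (l : ℤ) ∣ (3 * n - 2) * (9 * n - 2) := by
    intro l hl hlM
    have hlM' : l ∣ M := (dvd_pow_self l two_ne_zero).trans hlM
    apply hsq l hl
    · by_contra hlt
      push Not at hlt
      have h2 := hl.two_le
      have h5 : l = 2 ∨ l = 3 ∨ l = 4 := by omega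
      rcases h5 with rfl | rfl | rfl
      · exact hM2 hlM'
      · exact hM3 hlM'
      · exact absurd hl (by norm_num)
    · rw [hKM]; exact hlM.mul_left _
  obtain ⟨u, hu, hP⟩ := local2 n v w M hno hM0 hM6 hsqM hres
  have hDK : 2 ^ (v + 2) * 3 ^ (w + 1) * M = 12 * K := by rw [hKM]; ring
  rw [hDK] at hu
  refine ⟨u, hu, hP.2.1, ?_⟩
  intro x y z c0 c1 c2
  rw [hKM]
  rw [← hDK] at c0 c1 c2
  exact coprime2 v w M hM0 hM6 u hP x y z c0 c1 c2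

lemma classB (n K : ℕ) (hno : Odd n) (hK3 : ¬ 3 ∣ K) (hK : 0 < K)
    (hsq : ∀ l : ℕ, l.Prime → 5 ≤ l → l ^ 2 ∣ K → ¬ (l : ℤ) ∣ (3 * n - 2) * (9 * n - 2)) :
    ∃ u : Fin 4 → ℤ, GoodG n (12 * K) u ∧ (2 : ℤ) ∣ u 3 ∧ ∀ x y z : ℕ, ((12 * K : ℕ) : ℤ) ∣ (x : ℤ) - u 0 →
      ((12 * K : ℕ) : ℤ) ∣ (y : ℤ) - u 1 → ((12 * K : ℕ) : ℤ) ∣ (z : ℤ) - u 2 →
      Nat.Coprime (2 ^ x + 2 ^ y + 2 ^ z + 1) (14 * (2 ^ K - 1)) := by
  obtain ⟨v, M, hL, hKM⟩ := Nat.exists_eq_two_pow_mul_odd hK.ne'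
  have hM0 : 0 < M := hL.pos
  have hM3 : ¬ 3 ∣ M := by
    intro h3
    apply hK3
    rw [hKM]; exact h3.mul_left _
  have hM2 : ¬ 2 ∣ M := by
    intro h2
    exact (Nat.not_even_iff_odd.2 hL) (even_iff_two_dvd.2 h2)
  have hM6 : Nat.Coprime 6 M := by
    have e : (6 : ℕ) = 2 * 3 := by norm_num
    rw [e]
    exact Nat.Coprime.mul_left ((Nat.Prime.coprime_iff_not_dvd Nat.prime_two).2 hM2)
      ((Nat.Prime.coprime_iff_not_dvd Nat.prime_three).2 hM3)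
  have hsqM : ∀ l : ℕ, l.Prime → l ^ 2 ∣ M → ¬ (l : ℤ) ∣ (3 * n - 2) * (9 * n - 2) := by
    intro l hl hlM
    have hlM' : l ∣ M := (dvd_pow_self l two_ne_zero).trans hlM
    apply hsq l hl
    · by_contra hlt
      push Not at hlt
      have h2 := hl.two_le
      have h5 : l = 2 ∨ l = 3 ∨ l = 4 := by omega
      rcases h5 with rfl | rfl | rfl
      · exact hM2 hlM'
      · exact hM3 hlM'
      · exact absurd hl (by norm_num)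
    · rw [hKM]; exact hlM.mul_left _
  obtain ⟨u, hu, hP⟩ := local3 n v M hno hM0 hM6 hsqM
  have hDK : 2 ^ (v + 2) * 3 * M = 12 * K := by rw [hKM]; ring
  rw [hDK] at hu
  refine ⟨u, hu, hP.1, ?_⟩
  intro x y z c0 c1 c2
  rw [hKM]
  rw [← hDK] at c0 c1 c2
  exact coprime3 v M hM6 u hP x y z c0 c1 c2

/-- the primes with a good order -/
lemma good_order (B : ℕ → Prop) [DecidablePred B] (hB : ∀ a b, a ∣ b → B b → B a) (K N : ℕ) (hK : 0 < K)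
    (hN : Nat.Coprime N (2 * (2 ^ KD B K - 1))) (q : ℕ) (hq : q.Prime) (hqN : q ∣ N) (hBo : B (orderOf (2 : ZMod q))) :
    ¬ orderOf (2 : ZMod q) ∣ K ∧ ∀ l : ℕ, l ∣ orderOf (2 : ZMod q) → orderOf (2 : ZMod q) ∣ K * l → 0 < l →
      orderOf (2 : ZMod q) ∣ KD B K * l := by
  have : Fact q.Prime := ⟨hq⟩
  have key : ∀ d : ℕ, d ∣ K → B d → d ∣ KD B K := by
    intro d hd hBd
    unfold KD
    exact Finset.dvd_lcm (f := id) (Finset.mem_filter.2 ⟨Nat.mem_divisors.2 ⟨hd, hK.ne'⟩, hBd⟩)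
  constructor
  · intro hoK
    have hcop : Nat.Coprime q (2 * (2 ^ KD B K - 1)) := Nat.Coprime.coprime_dvd_left hqN hN
    rw [Nat.Prime.coprime_iff_not_dvd hq] at hcop
    apply hcop
    apply Dvd.dvd.mul_left
    have h1 : (2 : ZMod q) ^ KD B K = 1 := orderOf_dvd_iff_pow_eq_one.1 (key _ hoK hBo)
    rw [← ZMod.natCast_eq_zero_iff, Nat.cast_sub Nat.one_le_two_pow]
    push_cast
    rw [h1]; ring
  · intro l hl hKl hl0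
    obtain ⟨e, he⟩ := hl
    rw [he, mul_comm l e] at hKl
    have heK : e ∣ K := Nat.dvd_of_mul_dvd_mul_right hl0 hKl
    have heB : B e := hB e _ ⟨l, by rw [he]; ring⟩ hBo
    rw [he, mul_comm l e]
    exact Nat.mul_dvd_mul_right (key e heK heB) l

lemma Exc_mono (n a b : ℕ) (hab : a ∣ b) (h : Exc n a) : Exc n b := by
  obtain ⟨l, h1, h2, h3, h4⟩ := h
  exact ⟨l, h1, h2, h3.trans hab, h4⟩

/-- **the sieve in the classes of the starting library** -/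
theorem mainF (ε : ℝ) (hε : 0 < ε) : ∃ C : ℝ, 0 < C ∧ ∃ δ : ℝ, 0 < δ ∧ ∃ n0 : ℕ, ∀ V : ℝ, 0 ≤ V →
    ∃ k : ℕ, (k : ℝ) ≤ 8 * V + 3 ∧ ∀ n K j : ℕ, n0 ≤ n → Odd n → 0 < K → 0 < j →
    ((j * (12 * K) : ℕ) : ℝ) ^ 71 ≤ (n : ℝ) ^ δ → ∀ (z : ℕ) (P : Finset ℕ) (Q : ℕ → Finset ℕ),
    (∀ l ∈ P, l.Prime ∧ l ≤ z ∧ ¬ l ∣ 12 * K ∧ ¬ (l : ℤ) ∣ N1 ((j * (12 * K) : ℕ) : ℤ) * N2 ((j * (12 * K) : ℕ) : ℤ)) →
    ∀ β : ℕ → ℝ,
    (∀ l ∈ P, β l ≤ 1 / 2 ∧ 50 * (((Q l).filter (fun q => q.Prime ∧ q ≠ 2 ∧ l ∣ orderOf (2 : ZMod q))).card : ℝ) * (l : ℝ) ^ 2 ≤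
      β l * ((l : ℝ) ^ 3 - l)) → ∑ l ∈ P, β l ≤ V →
    ∃ S : Finset (ℕ × ℕ × ℕ × ℕ),
      (n : ℝ) ^ (1 - ε) * (Real.exp (-(2 * V)) / 2) - C * ((z : ℝ) + 1) ^ (16 * k) * (n : ℝ) ^ (24 / 25 : ℝ) ≤
        25 * (S.card : ℝ) ∧
      ∀ x y z w : ℕ, (x, y, z, w) ∈ S → n = x ^ 2 + y ^ 2 + z ^ 2 + 4 * w ^ 2 ∧
        ∀ q : ℕ, q.Prime → q ∣ 2 ^ x + 2 ^ y + 2 ^ z + 1 → q ≠ 2 ∧
          ((Exc n (orderOf (2 : ZMod q)) ∨ (¬ 3 ∣ n ∧ n % 32 ≠ 13 ∧ q ≠ 7 ∧ 3 ∣ orderOf (2 : ZMod q))) ∨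
            (¬ orderOf (2 : ZMod q) ∣ K ∧ ∀ l ∈ P, q ∈ Q l → l ∣ orderOf (2 : ZMod q) → ¬ orderOf (2 : ZMod q) ∣ K * l)) := by
  classical
  obtain ⟨C, hC, δ, hδ, n1, h⟩ := sieveF ε hε
  refine ⟨C, hC, δ, hδ, n1, ?_⟩
  intro V hV
  obtain ⟨k, hk, h'⟩ := h V hV
  refine ⟨k, hk, ?_⟩
  intro n K j hn hno hK hj hsize z P Q hP β hβ hsum
  have hsq : ∀ (B : ℕ → Prop) [DecidablePred B], (∀ b, B b → ¬ Exc n b) →
      ∀ l : ℕ, l.Prime → 5 ≤ l → l ^ 2 ∣ KD B K → ¬ (l : ℤ) ∣ (3 * n - 2) * (9 * n - 2) := by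
    intro B _ hB l hl hl5 hlK hd
    refine prime_pow_dvd_lcm l 2 hl ((Nat.divisors K).filter B) ?_ ?_ (by norm_num) hlK
    · intro b hb
      exact (Nat.pos_of_mem_divisors (Finset.mem_filter.1 hb).1).ne'
    · intro b hb hlb
      exact hB b (Finset.mem_filter.1 hb).2 ⟨l, hl, hl5, hlb, hd⟩
  -- a class with a set of good orders
  have common : ∀ (B : ℕ → Prop) [DecidablePred B], (∀ a b, a ∣ b → B b → B a) → ∀ (m : ℕ), 2 ∣ m →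
      (∃ u : Fin 4 → ℤ, GoodG n (12 * KD B K) u ∧ (2 : ℤ) ∣ u 3 ∧ ∀ x y z : ℕ, ((12 * KD B K : ℕ) : ℤ) ∣ (x : ℤ) - u 0 →
        ((12 * KD B K : ℕ) : ℤ) ∣ (y : ℤ) - u 1 → ((12 * KD B K : ℕ) : ℤ) ∣ (z : ℤ) - u 2 →
        Nat.Coprime (2 ^ x + 2 ^ y + 2 ^ z + 1) (m * (2 ^ KD B K - 1))) →
      ∃ S : Finset (ℕ × ℕ × ℕ × ℕ),
      (n : ℝ) ^ (1 - ε) * (Real.exp (-(2 * V)) / 2) - C * ((z : ℝ) + 1) ^ (16 * k) * (n : ℝ) ^ (24 / 25 : ℝ) ≤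
        25 * (S.card : ℝ) ∧
      ∀ x y z w : ℕ, (x, y, z, w) ∈ S → n = x ^ 2 + y ^ 2 + z ^ 2 + 4 * w ^ 2 ∧
        ∀ q : ℕ, q.Prime → q ∣ 2 ^ x + 2 ^ y + 2 ^ z + 1 → ¬ q ∣ m ∧
          (B (orderOf (2 : ZMod q)) →
            (¬ orderOf (2 : ZMod q) ∣ K ∧ ∀ l ∈ P, q ∈ Q l → l ∣ orderOf (2 : ZMod q) → ¬ orderOf (2 : ZMod q) ∣ K * l)) := by
    intro B _ hB m hm ⟨u, hu, hu3, hcop⟩
    have hKK : KD B K ∣ K := KD_dvd B K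
    have hdd : 12 * KD B K ∣ j * (12 * K) := (Nat.mul_dvd_mul_left 12 hKK).mul_left _
    obtain ⟨S, hS1, hS2⟩ := h' n (12 * KD B K) (j * (12 * K)) hn hno (by positivity) (Dvd.dvd.mul_right (by norm_num) _)
      hdd hsize u hu hu3 z P Q
      (fun l hl => ⟨(hP l hl).1, (hP l hl).2.1, fun hd => (hP l hl).2.2.1 (hd.trans (Nat.mul_dvd_mul_left 12 hKK)),
        (hP l hl).2.2.2⟩) β hβ hsum
    refine ⟨S, hS1, ?_⟩
    intro x y z w hxyzw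
    obtain ⟨g1, g2, g3, g4, g5⟩ := hS2 x y z w hxyzw
    refine ⟨g1, fun q hq hqN => ?_⟩
    have hc := hcop x y z g2 g3 g4
    have hqm : ¬ q ∣ m := by
      intro hd
      have h1 : q ∣ Nat.gcd (2 ^ x + 2 ^ y + 2 ^ z + 1) (m * (2 ^ KD B K - 1)) := Nat.dvd_gcd hqN (hd.mul_right _)
      rw [hc] at h1
      exact hq.one_lt.ne' (Nat.dvd_one.1 h1)
    refine ⟨hqm, fun hBo => ?_⟩
    have hc2 : Nat.Coprime (2 ^ x + 2 ^ y + 2 ^ z + 1) (2 * (2 ^ KD B K - 1)) :=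
      Nat.Coprime.coprime_dvd_right (Nat.mul_dvd_mul_right hm _) hc
    obtain ⟨k1, k2⟩ := good_order B hB K _ hK hc2 q hq hqN hBo
    refine ⟨k1, fun l hl hqQ hlo hoK => ?_⟩
    have hq2 : q ≠ 2 := by
      rintro rfl
      exact hqm hm
    exact g5 l hl q hqQ hq hq2 hlo ((k2 l hlo hoK (hP l hl).1.pos).trans
      (Nat.mul_dvd_mul_right (dvd_mul_left _ _) l)) hqN
  by_cases hres : 3 ∣ n ∨ n % 32 = 13
  · obtain ⟨S, hS1, hS2⟩ := common (fun b => ¬ Exc n b) (fun a b hab hb ha => hb (Exc_mono n a b hab ha)) 2 (dvd_refl 2)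
      (classA n (KD (fun b => ¬ Exc n b) K) hno hres (KD_pos _ _ hK) (hsq _ (fun b hb => hb)))
    refine ⟨S, hS1, ?_⟩
    intro x y z w hxyzw
    obtain ⟨g1, g2⟩ := hS2 x y z w hxyzw
    refine ⟨g1, fun q hq hqN => ?_⟩
    obtain ⟨k1, k2⟩ := g2 q hq hqN
    refine ⟨fun h => k1 (by rw [h]), ?_⟩
    by_cases hE : Exc n (orderOf (2 : ZMod q))
    · exact Or.inl (Or.inl hE)
    · exact Or.inr (k2 hE)
  · obtain ⟨S, hS1, hS2⟩ := common (fun b => ¬ Exc n b ∧ ¬ 3 ∣ b)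
      (fun a b hab hb => ⟨fun ha => hb.1 (Exc_mono n a b hab ha), fun ha => hb.2 (ha.trans hab)⟩) 14 (by norm_num)
      (classB n (KD (fun b => ¬ Exc n b ∧ ¬ 3 ∣ b) K) hno (by
        have := prime_pow_dvd_lcm 3 1 Nat.prime_three ((Nat.divisors K).filter (fun b => ¬ Exc n b ∧ ¬ 3 ∣ b)) ?_ ?_
          (by norm_num)
        · rw [pow_one] at this
          exact this
        · intro b hb
          exact (Nat.pos_of_mem_divisors (Finset.mem_filter.1 hb).1).ne'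
        · intro b hb
          rw [pow_one]
          exact (Finset.mem_filter.1 hb).2.2) (KD_pos _ _ hK) (hsq _ (fun b hb => hb.1)))
    refine ⟨S, hS1, ?_⟩
    intro x y z w hxyzw
    obtain ⟨g1, g2⟩ := hS2 x y z w hxyzw
    refine ⟨g1, fun q hq hqN => ?_⟩
    obtain ⟨k1, k2⟩ := g2 q hq hqN
    refine ⟨fun h => k1 (by rw [h]; norm_num), ?_⟩
    by_cases hE : Exc n (orderOf (2 : ZMod q))
    · exact Or.inl (Or.inl hE)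
    · by_cases h3 : 3 ∣ orderOf (2 : ZMod q)
      · left
        right
        exact ⟨fun h => hres (Or.inl h), fun h => hres (Or.inr h), fun h => k1 (by rw [h]; norm_num), h3⟩
      · exact Or.inr (k2 ⟨hE, h3⟩)

end Pool.Agent.X9.SQ
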