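import Pool.Agent.X9.SQ.Ord1
import Pool.Agent.X9.SQ.Tail

/-!
# The bad residues modulo `l` for a set of primes `q`, and the orders
-/

set_option autoImplicit false
open Finset

namespace Pool.Agent.X9.SQ
open Pool.Agent.W65.FS

/-- the bad residues modulo `l`: some `q` in `Q`, the order of `2` modulo which is divisible by `l`
and divides `2 ^ v * L * l`, divides a number `2 ^ s + 2 ^ t + 1` of the residue class -/
def BB (v L l : ℕ) (Q : Finset ℕ) (Y : Fin 4 → ℤ) : Prop :=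
  ∃ q ∈ Q, q.Prime ∧ q ≠ 2 ∧ l ∣ orderOf (2 : ZMod q) ∧ orderOf (2 : ZMod q) ∣ 2 ^ v * L * l ∧ Bq v L l q Y

lemma BB_congr (v L l : ℕ) (Q : Finset ℕ) (X Y : Fin 4 → ℤ) (h : ∀ i, (l : ℤ) ∣ X i - Y i) (hX : BB v L l Q X) :
    BB v L l Q Y := by
  obtain ⟨q, h1, h2, h3, h4, h5, h6⟩ := hX
  exact ⟨q, h1, h2, h3, h4, h5, Bq_congr v L l q X Y h h6⟩

lemma not_BB_zero (v L l : ℕ) (Q : Finset ℕ) (hL : Odd L) (hlo : Odd l) (hcop : Nat.Coprime l (2 ^ v * L)) : ¬ BB v L l Q 0 := by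
  rintro ⟨q, _, h2, h3, _, h5, h6⟩
  exact not_Bq_zero v L l q hL hlo h2 h3 h5 hcop 0 (by simp) h6

lemma card_BB (n v L l : ℕ) (Q : Finset ℕ) (hl : l.Prime) (hl2 : l ≠ 2) (hcop : Nat.Coprime l (2 ^ v * L)) :
    ((by classical exact (Gl n l).filter (fun c => BB v L l Q c)) : Finset (Fin 4 → ℤ)).card ≤
      (Q.filter (fun q => q.Prime ∧ q ≠ 2 ∧ l ∣ orderOf (2 : ZMod q))).card * (2 * l ^ 2) := by
  classical
  have h1 : (Gl n l).filter (fun c => BB v L l Q c) ⊆
      (Q.filter (fun q => q.Prime ∧ q ≠ 2 ∧ l ∣ orderOf (2 : ZMod q))).biUnion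
        (fun q => (Gl n l).filter (fun c => orderOf (2 : ZMod q) ∣ 2 ^ v * L * l ∧ Bq v L l q c)) := by
    intro c hc
    rw [Finset.mem_filter] at hc
    obtain ⟨hc1, q, h1, h2, h3, h4, h5, h6⟩ := hc
    rw [Finset.mem_biUnion]
    exact ⟨q, Finset.mem_filter.2 ⟨h1, h2, h3, h4⟩, Finset.mem_filter.2 ⟨hc1, h5, h6⟩⟩
  refine (Finset.card_le_card (le_trans (le_of_eq (by congr!)) h1)).trans (Finset.card_biUnion_le.trans ?_)
  rw [← smul_eq_mul]
  apply Finset.sum_le_card_nsmul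
  intro q hq
  rw [Finset.mem_filter] at hq
  obtain ⟨_, hq1, hq2, hq3⟩ := hq
  apply card_det n l hl hl2 _ (Finset.filter_subset _ _)
  intro X hX Y hY h0 h1
  rw [Finset.mem_filter] at hX hY
  apply Bq_det v L l q hq1 hq3 hX.2.1 hcop X Y _ hX.2.2 hY.2.2 hq2
  rw [h0, h1, sub_self]
  exact dvd_zero _

/-- number of primes `q ≤ Z` for which `l` divides the order -/
lemma card_q (Z l : ℕ) (hl : 0 < l) :
    ((Finset.range (Z + 1)).filter (fun q => q.Prime ∧ q ≠ 2 ∧ l ∣ orderOf (2 : ZMod q))).card ≤ Z / l := by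
  classical
  have h1 : ((Finset.range (Z + 1)).filter (fun q => q.Prime ∧ q ≠ 2 ∧ l ∣ orderOf (2 : ZMod q))).card ≤
      (Finset.Icc 1 (Z / l)).card := by
    apply Finset.card_le_card_of_injOn (fun q => (q - 1) / l)
    · intro q hq
      rw [Finset.mem_coe, Finset.mem_filter, Finset.mem_range] at hq
      obtain ⟨hqZ, hq1, hq2, hq3⟩ := hq
      have hd : l ∣ q - 1 := by
        have : Fact q.Prime := ⟨hq1⟩
        have h20 : (2 : ZMod q) ≠ 0 := by
          intro h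
          have h3 : ((2 : ℕ) : ZMod q) = 0 := by exact_mod_cast h
          rw [ZMod.natCast_eq_zero_iff] at h3
          exact hq2 ((Nat.prime_dvd_prime_iff_eq hq1 Nat.prime_two).1 h3)
        exact hq3.trans (orderOf_dvd_iff_pow_eq_one.2 (ZMod.pow_card_sub_one_eq_one h20))
      rw [Finset.mem_coe, Finset.mem_Icc]
      have hq4 := hq1.two_le
      constructor
      · exact (Nat.one_le_div_iff hl).2 (Nat.le_of_dvd (by omega) hd)
      · exact Nat.div_le_div_right (by omega)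
    · intro q hq q' hq' h
      rw [Finset.mem_coe, Finset.mem_filter, Finset.mem_range] at hq hq'
      have aux : ∀ q : ℕ, q.Prime → q ≠ 2 → l ∣ orderOf (2 : ZMod q) → l ∣ q - 1 := by
        intro q hq1 hq2 hq3
        have : Fact q.Prime := ⟨hq1⟩
        have h20 : (2 : ZMod q) ≠ 0 := by
          intro h
          have h3 : ((2 : ℕ) : ZMod q) = 0 := by exact_mod_cast h
          rw [ZMod.natCast_eq_zero_iff] at h3
          exact hq2 ((Nat.prime_dvd_prime_iff_eq hq1 Nat.prime_two).1 h3)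
        exact hq3.trans (orderOf_dvd_iff_pow_eq_one.2 (ZMod.pow_card_sub_one_eq_one h20))
      have d1 := aux q hq.2.1 hq.2.2.1 hq.2.2.2
      have d2 := aux q' hq'.2.1 hq'.2.2.1 hq'.2.2.2
      have e1 := Nat.div_mul_cancel d1
      have e2 := Nat.div_mul_cancel d2
      simp only at h
      rw [h] at e1
      have g1 := hq.2.1.two_le
      have g2 := hq'.2.1.two_le
      omega
  rw [Nat.card_Icc, Nat.add_sub_cancel] at h1
  exact h1

lemma dvd_lcmUpto (a Y : ℕ) (h1 : 1 ≤ a) (h2 : a ≤ Y) : a ∣ Nat.lcmUpto Y := by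
  unfold Nat.lcmUpto
  exact Finset.dvd_lcm (f := id) (Finset.mem_Icc.2 ⟨h1, h2⟩)

lemma prime_dvd_lcmUpto (l Y : ℕ) (hl : l.Prime) (h : l ∣ Nat.lcmUpto Y) : l ≤ Y := by
  have h1 : Nat.lcmUpto Y ∣ Y.factorial := by
    unfold Nat.lcmUpto
    apply Finset.lcm_dvd
    intro b hb
    rw [Finset.mem_Icc] at hb
    exact Nat.dvd_factorial hb.1 hb.2
  exact (Nat.Prime.dvd_factorial hl).1 (h.trans h1)

/-- splitting of an integer below `Y ^ 2` -/
lemma order_split (Y d : ℕ) (hd : 0 < d) (hdY : d < Y ^ 2) :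
    d ∣ Nat.lcmUpto Y ^ 3 ∨ ∃ l : ℕ, l.Prime ∧ Y < l ∧ l ∣ d ∧ d ∣ Nat.lcmUpto Y ^ 3 * l := by
  have hY : 0 < Y := by
    rcases Nat.eq_zero_or_pos Y with h | h
    · rw [h] at hdY; simp at hdY
    · exact h
  by_cases hex : ∃ l : ℕ, l.Prime ∧ Y < l ∧ l ∣ d
  · right
    obtain ⟨l, hl, hYl, hld⟩ := hex
    refine ⟨l, hl, hYl, hld, ?_⟩
    obtain ⟨e, rfl⟩ := hld
    have he : 1 ≤ e := by
      rcases Nat.eq_zero_or_pos e with h | h
      · rw [h, mul_zero] at hd; omega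
      · exact h
    have heY : e ≤ Y := by
      by_contra h
      push Not at h
      have : Y ^ 2 < l * e := by
        calc Y ^ 2 = Y * Y := pow_two Y
          _ < l * e := Nat.mul_lt_mul'' hYl h
      omega
    rw [mul_comm l e]
    apply Nat.mul_dvd_mul_right
    exact (dvd_lcmUpto e Y he heY).trans (dvd_pow_self _ (by norm_num))
  · left
    push Not at hex
    rw [Nat.dvd_iff_prime_pow_dvd_dvd]
    intro p k hp hpk
    rcases Nat.eq_zero_or_pos k with h | hk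
    · rw [h, pow_zero]; exact one_dvd _
    have hpd : p ∣ d := (dvd_pow_self p (by omega)).trans hpk
    have hpY : p ≤ Y := by
      by_contra h
      exact hex p hp (by omega) hpd
    obtain ⟨a, ha⟩ : ∃ a : ℕ, a = Nat.log p Y := ⟨_, rfl⟩
    have h1 : p ^ a ≤ Y := by rw [ha]; exact Nat.pow_log_le_self p (by omega)
    have h2 : Y < p ^ (a + 1) := by rw [ha]; exact Nat.lt_pow_succ_log_self hp.one_lt Y
    have h3 : p ^ k < p ^ (2 * a + 2) := by
      calc p ^ k ≤ d := Nat.le_of_dvd hd hpk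
        _ < Y ^ 2 := hdY
        _ ≤ (p ^ (a + 1)) ^ 2 := Nat.pow_le_pow_left h2.le 2
        _ = p ^ (2 * a + 2) := by rw [← pow_mul]; congr 1; ring
    have h4 : k < 2 * a + 2 := (Nat.pow_lt_pow_iff_right hp.one_lt).1 h3
    have h5 : p ^ k ∣ p ^ a * p ^ a * p := by
      have : p ^ a * p ^ a * p = p ^ (2 * a + 1) := by ring
      rw [this]
      exact pow_dvd_pow p (by omega)
    refine h5.trans ?_
    have e : Nat.lcmUpto Y ^ 3 = Nat.lcmUpto Y * Nat.lcmUpto Y * Nat.lcmUpto Y := by ring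
    rw [e]
    have g1 : p ^ a ∣ Nat.lcmUpto Y := dvd_lcmUpto _ _ (Nat.one_le_pow _ _ hp.pos) h1
    have g2 : p ∣ Nat.lcmUpto Y := dvd_lcmUpto _ _ hp.pos hpY
    exact Nat.mul_dvd_mul (Nat.mul_dvd_mul g1 g1) g2

end Pool.Agent.X9.SQ
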