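import Pool.Agent.X9.SQ.SieveO
import Pool.Agent.X9.SQ.Ord2
import Pool.Agent.TH696.FA.Final

/-!
# Four squares, the numbers `2 ^ (x + y) + 2 ^ (z + w) + 1` and the sieve
-/

set_option autoImplicit false
open Finset

namespace Pool.Agent.X9.SQ
open Pool.Agent.W65.FS Pool.Agent.TH696.FA

/-- from integer vectors to quadruples of natural numbers -/
lemma to_nat (n D : ℕ) (u : Fin 4 → ℤ) (G : (Fin 4 → ℤ) → Prop) : ∃ S : Finset (ℕ × ℕ × ℕ × ℕ),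
    S.card = ((by classical exact (orth n D u).filter (fun Y => G Y)) : Finset (Fin 4 → ℤ)).card ∧
    ∀ x y z w : ℕ, (x, y, z, w) ∈ S → ∃ X : Fin 4 → ℤ, X 0 = x ∧ X 1 = y ∧ X 2 = z ∧ X 3 = w ∧
      X ∈ orth n D u ∧ G X := by
  classical
  refine ⟨((orth n D u).filter (fun Y => G Y)).image (fun X => ((X 0).toNat, (X 1).toNat, (X 2).toNat, (X 3).toNat)), ?_, ?_⟩
  · rw [Finset.card_image_of_injOn]
    · intro X hX Y hY hXY
      rw [Finset.mem_coe, Finset.mem_filter, mem_orth] at hX hY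
      simp only [Prod.mk.injEq] at hXY
      obtain ⟨e0, e1, e2, e3⟩ := hXY
      have g := hX.1.2
      have g' := hY.1.2
      funext i
      fin_cases i
      · have a1 := g 0; have a2 := g' 0
        show X 0 = Y 0
        omega
      · have a1 := g 1; have a2 := g' 1
        show X 1 = Y 1
        omega
      · have a1 := g 2; have a2 := g' 2
        show X 2 = Y 2
        omega
      · have a1 := g 3; have a2 := g' 3
        show X 3 = Y 3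
        omega
  · intro x y z w hxyzw
    rw [Finset.mem_image] at hxyzw
    obtain ⟨X, hX, hXe⟩ := hxyzw
    rw [Finset.mem_filter] at hX
    obtain ⟨hXo, hG⟩ := hX
    have hpos := ((mem_orth n D u X).1 hXo).2
    simp only [Prod.mk.injEq] at hXe
    obtain ⟨e0, e1, e2, e3⟩ := hXe
    have x0 : X 0 = x := by have := hpos 0; omega
    have x1 : X 1 = y := by have := hpos 1; omega
    have x2 : X 2 = z := by have := hpos 2; omega
    have x3 : X 3 = w := by have := hpos 3; omega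
    exact ⟨X, x0, x1, x2, x3, hXo, hG⟩

/-- the arithmetic of the class -/
lemma class_arith (n v L : ℕ) (u : Fin 4 → ℤ) (h01 : ((2 ^ (v + 2) * L : ℕ) : ℤ) ∣ u 0 + u 1)
    (h23 : (2 : ℤ) ^ (v + 2) ∣ u 2 + u 3 - 1) (hu0 : ¬ (4 : ℤ) ∣ u 0) (X : Fin 4 → ℤ)
    (hX : X ∈ orth n (2 ^ (v + 2) * L) u) (x y z w : ℕ) (x0 : X 0 = x) (x1 : X 1 = y) (x2 : X 2 = z) (x3 : X 3 = w) :
    n = x ^ 2 + y ^ 2 + z ^ 2 + w ^ 2 ∧ 2 ^ v * L ∣ x + y ∧ 1 ≤ x ∧ 1 ≤ z + w ∧ 2 ^ v ∣ z + w - 1 := by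
  rw [mem_orth] at hX
  obtain ⟨⟨hsum, hcong⟩, hpos⟩ := hX
  rw [Fin.sum_univ_four, x0, x1, x2, x3] at hsum
  have c0 := hcong 0
  have c1 := hcong 1
  have c2 := hcong 2
  have c3 := hcong 3
  rw [x0] at c0
  rw [x1] at c1
  rw [x2] at c2
  rw [x3] at c3
  have hs : ((2 ^ (v + 2) * L : ℕ) : ℤ) ∣ (x : ℤ) + y := by
    have e : (x : ℤ) + y = (x - u 0) + (y - u 1) + (u 0 + u 1) := by ring
    rw [e]
    exact dvd_add (dvd_add c0 c1) h01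
  have hpD : (2 : ℤ) ^ (v + 2) ∣ ((2 ^ (v + 2) * L : ℕ) : ℤ) := by
    push_cast; exact dvd_mul_right _ _
  have ht : (2 : ℤ) ^ (v + 2) ∣ (z : ℤ) + w - 1 := by
    have e : (z : ℤ) + w - 1 = (z - u 2) + (w - u 3) + (u 2 + u 3 - 1) := by ring
    rw [e]
    exact dvd_add (dvd_add (hpD.trans c2) (hpD.trans c3)) h23
  have h4p : (4 : ℤ) ∣ 2 ^ (v + 2) := by
    have : (2 : ℤ) ^ (v + 2) = 4 * 2 ^ v := by ring
    rw [this]; exact dvd_mul_right _ _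
  have hx0 : 1 ≤ x := by
    by_contra hx
    have hx' : x = 0 := by omega
    rw [hx'] at c0
    apply hu0
    have := (h4p.trans hpD).trans c0
    simpa using this
  have ht1 : 1 ≤ z + w := by
    by_contra hzw
    have hz : z = 0 := by omega
    have hw : w = 0 := by omega
    rw [hz, hw] at ht
    have := h4p.trans ht
    simp at this
  have h5 : 2 ^ v * L ∣ x + y := by
    have h5 : 2 ^ (v + 2) * L ∣ x + y := by exact_mod_cast hs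
    exact (Dvd.intro (4 : ℕ) (by ring)).trans h5
  have h6 : 2 ^ v ∣ z + w - 1 := by
    have h5 : (2 : ℤ) ^ (v + 2) ∣ ((z + w - 1 : ℕ) : ℤ) := by
      rw [Nat.cast_sub ht1]; push_cast; exact ht
    have h6 : 2 ^ (v + 2) ∣ z + w - 1 := by exact_mod_cast h5
    exact (pow_dvd_pow 2 (by omega)).trans h6
  exact ⟨by exact_mod_cast hsum.symm, h5, hx0, ht1, h6⟩

/-- the density of the bad residues -/
lemma dens (n v L l : ℕ) (Q : Finset ℕ) (hl : l.Prime) (hl2 : l ≠ 2) (hcop : Nat.Coprime l (2 ^ v * L)) (b : ℝ)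
    (h : 50 * ((Q.filter (fun q => q.Prime ∧ q ≠ 2 ∧ l ∣ orderOf (2 : ZMod q))).card : ℝ) * (l : ℝ) ^ 2 ≤
      b * ((l : ℝ) ^ 3 - l)) :
    25 * ((((by classical exact (Gl n l).filter (fun c => BB v L l Q c)) : Finset (Fin 4 → ℤ)).card : ℕ) : ℝ) ≤
      b * (Gl n l).card := by
  classical
  have h1 := card_BB n v L l Q hl hl2 hcop
  have h2 : ((((by classical exact (Gl n l).filter (fun c => BB v L l Q c)) : Finset (Fin 4 → ℤ)).card : ℕ) : ℝ) ≤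
      ((Q.filter (fun q => q.Prime ∧ q ≠ 2 ∧ l ∣ orderOf (2 : ZMod q))).card : ℝ) * (2 * (l : ℝ) ^ 2) := by
    exact_mod_cast h1
  have h3 := count_lower l hl hl2 n
  have h5 : (2 : ℝ) ≤ l := by exact_mod_cast hl.two_le
  have h6 : (0 : ℝ) < (l : ℝ) ^ 3 - l := by nlinarith [mul_pos (show (0:ℝ) < l by linarith) (show (0:ℝ) < l by linarith)]
  have h8 : (0 : ℝ) ≤ 50 * ((Q.filter (fun q => q.Prime ∧ q ≠ 2 ∧ l ∣ orderOf (2 : ZMod q))).card : ℝ) * (l : ℝ) ^ 2 := by positivity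
  have hb0 : 0 ≤ b := by
    by_contra hneg
    push Not at hneg
    have h7 : b * ((l : ℝ) ^ 3 - l) < 0 := mul_neg_of_neg_of_pos hneg h6
    linarith
  have h9 : b * ((l : ℝ) ^ 3 - l) ≤ b * (Gl n l).card := mul_le_mul_of_nonneg_left h3 hb0
  refine le_trans ?_ (h.trans h9)
  have h10 := mul_le_mul_of_nonneg_left h2 (show (0 : ℝ) ≤ 25 by norm_num)
  refine h10.trans (le_of_eq ?_)
  ring

theorem main_sieve (ε : ℝ) (hε : 0 < ε) : ∃ C : ℝ, 0 < C ∧ ∃ δ : ℝ, 0 < δ ∧ ∃ n0 : ℕ, ∀ V : ℝ, 0 ≤ V →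
    ∃ k : ℕ, (k : ℝ) ≤ 8 * V + 3 ∧ ∀ n K j : ℕ, n0 ≤ n → Odd n → 0 < K → 0 < j →
    ((j * (4 * K) : ℕ) : ℝ) ^ 71 ≤ (n : ℝ) ^ δ → ∀ (z : ℕ) (P : Finset ℕ) (Q : ℕ → Finset ℕ),
    (∀ l ∈ P, l.Prime ∧ l ≤ z ∧ ¬ l ∣ 4 * K ∧ ¬ (l : ℤ) ∣ N1 ((j * (4 * K) : ℕ) : ℤ) * N2 ((j * (4 * K) : ℕ) : ℤ)) →
    ∀ β : ℕ → ℝ,
    (∀ l ∈ P, β l ≤ 1 / 2 ∧ 50 * (((Q l).filter (fun q => q.Prime ∧ q ≠ 2 ∧ l ∣ orderOf (2 : ZMod q))).card : ℝ) * (l : ℝ) ^ 2 ≤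
      β l * ((l : ℝ) ^ 3 - l)) → ∑ l ∈ P, β l ≤ V →
    ∃ S : Finset (ℕ × ℕ × ℕ × ℕ),
      (n : ℝ) ^ (1 - ε) * (Real.exp (-(2 * V)) / 2) - C * ((z : ℝ) + 1) ^ (16 * k) * (n : ℝ) ^ (24 / 25 : ℝ) ≤
        25 * (S.card : ℝ) ∧
      ∀ x y z w : ℕ, (x, y, z, w) ∈ S → n = x ^ 2 + y ^ 2 + z ^ 2 + w ^ 2 ∧
        Nat.Coprime (2 ^ (x + y) + 2 ^ (z + w) + 1) (2 * (2 ^ K - 1)) ∧
        ∀ l ∈ P, ∀ q ∈ Q l, q.Prime → q ≠ 2 → l ∣ orderOf (2 : ZMod q) → orderOf (2 : ZMod q) ∣ K * l →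
          ¬ q ∣ 2 ^ (x + y) + 2 ^ (z + w) + 1 := by
  classical
  obtain ⟨C, hC, δ, hδ, n1, h⟩ := sieve_orth0 ε hε
  refine ⟨C, hC, δ, hδ, n1, ?_⟩
  intro V hV
  obtain ⟨k, hk, h'⟩ := h V hV
  refine ⟨k, hk, ?_⟩
  intro n K j hn hno hK hj hsize z P Q hP β hβ hsum
  obtain ⟨v, L, hL, hKL⟩ := Nat.exists_eq_two_pow_mul_odd hK.ne'
  obtain ⟨u, hu, h01, h23, hu0⟩ := local_class n v L hno hL
  have hDK : 2 ^ (v + 2) * L = 4 * K := by rw [hKL]; ring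
  have hD0 : 0 < 2 ^ (v + 2) * L := by rw [hDK]; omega
  have h4D : 4 ∣ 2 ^ (v + 2) * L := by rw [hDK]; exact dvd_mul_right _ _
  have hlodd : ∀ l ∈ P, l ≠ 2 := by
    intro l hl h2
    apply (hP l hl).2.2.1
    rw [h2]
    exact (by norm_num : 2 ∣ 4).trans (dvd_mul_right 4 K)
  have hlcop : ∀ l ∈ P, Nat.Coprime l (2 ^ v * L) := by
    intro l hl
    rw [Nat.Prime.coprime_iff_not_dvd (hP l hl).1, ← hKL]
    intro h
    exact (hP l hl).2.2.1 (h.mul_left 4)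
  have hj0 : 0 < j * (4 * K) := by positivity
  have hdj : 2 ^ (v + 2) * L ∣ j * (4 * K) := by rw [hDK]; exact dvd_mul_left _ _
  have hcount := h' n (2 ^ (v + 2) * L) (j * (4 * K)) hn hno hj0 h4D hdj hsize u hu z P
    (fun l hl => ⟨(hP l hl).1, (hP l hl).2.1, by rw [hDK]; exact (hP l hl).2.2.1, (hP l hl).2.2.2⟩)
    (fun l Y => BB v L l (Q l) Y) (fun l _ X Y => BB_congr v L l (Q l) X Y)
    (fun l hl => not_BB_zero v L l (Q l) hL ((hP l hl).1.odd_of_ne_two (hlodd l hl)) (hlcop l hl)) β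
    (fun l hl => ⟨(hβ l hl).1, dens n v L l (Q l) (hP l hl).1 (hlodd l hl) (hlcop l hl) (β l) (hβ l hl).2⟩) hsum
  obtain ⟨S, hS1, hS2⟩ := to_nat n (2 ^ (v + 2) * L) u (fun Y => ∀ l ∈ P, ¬ BB v L l (Q l) Y)
  refine ⟨S, ?_, ?_⟩
  · rw [hS1]
    convert hcount
  · intro x y z w hxyzw
    obtain ⟨X, x0, x1, x2, x3, hXo, hnot⟩ := hS2 x y z w hxyzw
    obtain ⟨g1, g2, g3, g4, g5⟩ := class_arith n v L u h01 h23 hu0 X hXo x y z w x0 x1 x2 x3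
    refine ⟨g1, ?_, ?_⟩
    · rw [hKL]
      exact coprime_main v L (x + y) (z + w) hL g2 (by omega) g4 g5
    · intro l hl q hq hqp hq2 hlq hqK hdvd
      apply hnot l hl
      refine ⟨q, hq, hqp, hq2, hlq, by rw [← hKL]; exact hqK, x + y, z + w, ?_, ?_, g2, g4, g5, hdvd⟩
      · rw [x0, x1]; push_cast; simp
      · rw [x2, x3]; push_cast; simp

end Pool.Agent.X9.SQ
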