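import Pool.Agent.X9.SQ.FinF
import Pool.Agent.TH696.FA.Hens

/-!
# Primes with odd order of `2`
-/

set_option autoImplicit false
open Finset Filter

namespace Pool.Agent.X9.SQ
open Pool.Agent.W65.FS Pool.Agent.TH696.FA

lemma odd_part (n M : ℕ) (hM : 0 < M) (h6 : Nat.Coprime 6 M) : ∃ x y w : ℤ,
    (M : ℤ) ∣ x ^ 2 + y ^ 2 + (x + y) ^ 2 + w ^ 2 - n ∧ ∀ l : ℕ, l.Prime → l ∣ M → ¬ ((l : ℤ) ∣ x ∧ (l : ℤ) ∣ y) := by
  classical
  obtain ⟨g, hg⟩ : ∃ g : ℕ, g = ∏ l ∈ M.primeFactors.filter (fun l => ¬ l ∣ n), l := ⟨_, rfl⟩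
  obtain ⟨t, ht⟩ : ∃ t : ℤ, t = n - g ^ 2 := ⟨_, rfl⟩
  have hM2 : ¬ 2 ∣ M := by
    intro h
    have : 2 ∣ Nat.gcd 6 M := Nat.dvd_gcd (by norm_num) h
    rw [h6] at this
    norm_num at this
  obtain ⟨m, hm⟩ : ∃ m : ℕ, M = 2 * m + 1 := ⟨M / 2, by omega⟩
  have key : ∀ l : ℕ, l.Prime → l ∣ M → ¬ (l : ℤ) ∣ t := by
    intro l hl hlM hlt
    have hlp : Prime (l : ℤ) := Nat.prime_iff_prime_int.1 hl
    by_cases hln : l ∣ n
    · have h1 : (l : ℤ) ∣ (g : ℤ) ^ 2 := by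
        have e : (g : ℤ) ^ 2 = n - t := by rw [ht]; ring
        rw [e]
        exact dvd_sub (by exact_mod_cast hln) hlt
      have h2 : l ∣ g := by
        have := hlp.dvd_of_dvd_pow h1
        exact_mod_cast this
      rw [hg] at h2
      obtain ⟨l', hl', hll⟩ := (hl.prime.dvd_finsetProd_iff _).1 h2
      rw [Finset.mem_filter, Nat.mem_primeFactors] at hl'
      have hle : l = l' := (Nat.prime_dvd_prime_iff_eq hl hl'.1.1).1 hll
      rw [← hle] at hl'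
      exact hl'.2 hln
    · have h1 : l ∣ g := by
        rw [hg]
        apply Finset.dvd_prod_of_mem (fun l => l)
        rw [Finset.mem_filter, Nat.mem_primeFactors]
        exact ⟨⟨hl, hlM, by omega⟩, hln⟩
      have h2 : (l : ℤ) ∣ n := by
        have e : (n : ℤ) = t + g * g := by rw [ht]; ring
        rw [e]
        exact dvd_add hlt (Dvd.dvd.mul_left (by exact_mod_cast h1) _)
      exact hln (by exact_mod_cast h2)
  have hMz : (M : ℤ) ≠ 0 := by exact_mod_cast hM.ne'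
  have hc2 : IsCoprime (2 : ℤ) (M : ℤ) := ⟨-m, 1, by rw [hm]; push_cast; ring⟩
  have hct : IsCoprime t (M : ℤ) := by
    apply isCoprime_of_prime_dvd (fun h => hMz h.2)
    intro z hz hzt hzM
    have hzp := Int.prime_iff_natAbs_prime.1 hz
    apply key z.natAbs hzp
    · have := Int.natAbs_dvd_natAbs.2 hzM
      simpa using this
    · exact (Int.natAbs_dvd).2 hzt
  have hc6 : IsCoprime (2 * 3 : ℤ) (M : ℤ) := by
    have := Nat.isCoprime_iff_coprime.2 h6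
    norm_num at this ⊢
    exact this
  obtain ⟨X, W, hXW⟩ := binary 3 M hM hc6 (2 * t) (IsCoprime.mul_left hc2 hct)
  have hsum : (M : ℤ) ∣ ((X - W) * (m + 1)) ^ 2 + W ^ 2 + ((X - W) * (m + 1) + W) ^ 2 + (g : ℤ) ^ 2 - n := by
    have h2 : (M : ℤ) ∣ 2 * (((X - W) * (m + 1)) ^ 2 + W ^ 2 + ((X - W) * (m + 1) + W) ^ 2 + (g : ℤ) ^ 2 - n) := by
      have e : 2 * (((X - W) * (m + 1)) ^ 2 + W ^ 2 + ((X - W) * (m + 1) + W) ^ 2 + (g : ℤ) ^ 2 - n) =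
        (X ^ 2 + 3 * W ^ 2 - 2 * t) + (2 * m + 1) * ((2 * m + 3) * (X - W) ^ 2 + 2 * (X - W) * W) := by
        rw [ht]; ring
      rw [e]
      apply dvd_add hXW
      have e2 : (2 * (m : ℤ) + 1) = (M : ℤ) := by rw [hm]; push_cast; ring
      rw [e2]
      exact dvd_mul_right _ _
    exact hc2.symm.dvd_of_dvd_mul_left h2
  refine ⟨(X - W) * (m + 1), W, g, hsum, ?_⟩
  intro l hl hlM ⟨hlx, hly⟩
  apply key l hl hlM
  have h1 : (l : ℤ) ∣ (M : ℤ) := by exact_mod_cast hlM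
  have e : t = ((X - W) * (m + 1)) * ((X - W) * (m + 1)) + W * W +
    ((X - W) * (m + 1) + W) * ((X - W) * (m + 1) + W) -
    (((X - W) * (m + 1)) ^ 2 + W ^ 2 + ((X - W) * (m + 1) + W) ^ 2 + (g : ℤ) ^ 2 - n) := by
    rw [ht]; ring
  rw [e]
  exact dvd_sub (dvd_add (dvd_add (hlx.mul_right _) (hly.mul_right _)) ((dvd_add hlx hly).mul_right _)) (h1.trans hsum)

lemma three_part (n k : ℕ) : ∃ x y w : ℤ, (3 : ℤ) ^ k ∣ x ^ 2 + y ^ 2 + (x + y) ^ 2 + w ^ 2 - n ∧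
    (0 < k → ¬ ((3 : ℤ) ∣ x ∧ (3 : ℤ) ∣ y ∧ (3 : ℤ) ∣ w)) := by
  rcases Nat.eq_zero_or_pos k with h0 | hk
  · subst h0
    exact ⟨0, 0, 0, by simp, fun h => absurd h (by norm_num)⟩
  have h : n % 3 = 0 ∨ n % 3 = 1 ∨ n % 3 = 2 := by omega
  rcases h with h | h | h
  · obtain ⟨w, h1, _⟩ := sqrt3 ((n : ℤ) - 2) (by omega) k
    refine ⟨1, 0, w, ?_, fun _ ⟨g, _⟩ => by norm_num at g⟩
    have e : (1 : ℤ) ^ 2 + 0 ^ 2 + (1 + 0) ^ 2 + w ^ 2 - n = w ^ 2 - (n - 2) := by ring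
    rw [e]; exact h1
  · obtain ⟨w, h1, h2⟩ := sqrt3 (n : ℤ) (by omega) k
    refine ⟨0, 0, w, ?_, fun _ ⟨_, _, g⟩ => ?_⟩
    · have e : (0 : ℤ) ^ 2 + 0 ^ 2 + (0 + 0) ^ 2 + w ^ 2 - n = w ^ 2 - n := by ring
      rw [e]; exact h1
    · omega
  · have ho : Odd (3 ^ k) := Odd.pow (by decide)
    obtain ⟨m, hm⟩ := ho
    have h3k : (3 : ℤ) ∣ 3 ^ k := dvd_pow_self 3 hk.ne'
    have hmz : (3 : ℤ) ^ k = 2 * m + 1 := by exact_mod_cast hm
    have hm3 : (3 : ℤ) ∣ (m : ℤ) - 1 := by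
      rw [hmz] at h3k
      omega
    have hn3 : (3 : ℤ) ∣ (n : ℤ) - 2 := by omega
    obtain ⟨x, h1, h2⟩ := sqrt3 ((n : ℤ) * (m + 1)) (by
      have e : (n : ℤ) * (m + 1) - 1 = (n - 2) * (m + 1) + 2 * (m - 1) + 3 := by ring
      rw [e]
      exact dvd_add (dvd_add (hn3.mul_right _) (hm3.mul_left _)) (dvd_refl 3)) k
    refine ⟨x, 0, 0, ?_, fun _ ⟨g, _, _⟩ => by omega⟩
    have e : x ^ 2 + 0 ^ 2 + (x + 0) ^ 2 + 0 ^ 2 - n = 2 * (x ^ 2 - n * (m + 1)) + n * (2 * m + 1) := by ring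
    rw [e, ← hmz]
    exact dvd_add (h1.mul_left _) (dvd_mul_left _ _)

lemma two_part (n : ℕ) (hn : Odd n) : ∃ x y z w : ℤ, (16 : ℤ) ∣ x ^ 2 + y ^ 2 + z ^ 2 + w ^ 2 - n ∧
    ¬ (2 : ℤ) ∣ x ∧ ¬ (8 : ℤ) ∣ y ∧ ¬ (8 : ℤ) ∣ z ∧ (2 : ℤ) ∣ w := by
  rw [Nat.odd_iff] at hn
  have h : n % 16 = 1 ∨ n % 16 = 3 ∨ n % 16 = 5 ∨ n % 16 = 7 ∨ n % 16 = 9 ∨ n % 16 = 11 ∨ n % 16 = 13 ∨ n % 16 = 15 := by omega
  rcases h with h | h | h | h | h | h | h | h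
  · exact ⟨1, 4, 4, 0, by omega, by norm_num, by norm_num, by norm_num, by norm_num⟩
  · exact ⟨1, 1, 1, 0, by omega, by norm_num, by norm_num, by norm_num, by norm_num⟩
  · exact ⟨1, 4, 4, 2, by omega, by norm_num, by norm_num, by norm_num, by norm_num⟩
  · exact ⟨1, 1, 1, 2, by omega, by norm_num, by norm_num, by norm_num, by norm_num⟩
  · exact ⟨3, 4, 4, 0, by omega, by norm_num, by norm_num, by norm_num, by norm_num⟩
  · exact ⟨1, 1, 3, 0, by omega, by norm_num, by norm_num, by norm_num, by norm_num⟩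
  · exact ⟨3, 4, 4, 2, by omega, by norm_num, by norm_num, by norm_num, by norm_num⟩
  · exact ⟨1, 1, 3, 2, by omega, by norm_num, by norm_num, by norm_num, by norm_num⟩

/-- the class -/
lemma classO (n M : ℕ) (hn : Odd n) (hM : Odd M) : ∃ u : Fin 4 → ℤ, GoodG n (8 * M) u ∧ (2 : ℤ) ∣ u 3 ∧
    (M : ℤ) ∣ u 0 + u 1 - u 2 ∧ ¬ (8 : ℤ) ∣ u 0 ∧ ¬ (8 : ℤ) ∣ u 1 ∧ ¬ (8 : ℤ) ∣ u 2 := by
  obtain ⟨k, M', hM3, hMM⟩ := Nat.exists_eq_pow_mul_and_not_dvd hM.pos.ne' 3 (by norm_num)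
  have hM'0 : 0 < M' := by
    rcases Nat.eq_zero_or_pos M' with h | h
    · rw [h] at hM3; simp at hM3
    · exact h
  have hM'2 : ¬ 2 ∣ M' := by
    intro h
    have : 2 ∣ M := by rw [hMM]; exact h.mul_left _
    exact (Nat.not_even_iff_odd.2 hM) (even_iff_two_dvd.2 this)
  have hM6 : Nat.Coprime 6 M' := by
    have e : (6 : ℕ) = 2 * 3 := by norm_num
    rw [e]
    exact Nat.Coprime.mul_left ((Nat.Prime.coprime_iff_not_dvd Nat.prime_two).2 hM'2)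
      ((Nat.Prime.coprime_iff_not_dvd Nat.prime_three).2 hM3)
  obtain ⟨a, b, c, hM1, hM2⟩ := odd_part n M' hM'0 hM6
  obtain ⟨a3, b3, c3, h31, h32⟩ := three_part n k
  obtain ⟨x, y, z, w, h1, h2, h3, h4, h5⟩ := two_part n hn
  have cc2 : IsCoprime (16 : ℤ) ((3 : ℤ) ^ k) := by
    apply IsCoprime.pow_right
    exact ⟨1, -5, by norm_num⟩
  have cc : IsCoprime (16 : ℤ) (M' : ℤ) := by
    have : Nat.Coprime 16 M' := by
      have e : (16 : ℕ) = 2 ^ 4 := by norm_num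
      rw [e]
      exact Nat.Coprime.pow_left _ ((Nat.Prime.coprime_iff_not_dvd Nat.prime_two).2 hM'2)
    have := Nat.isCoprime_iff_coprime.2 this
    exact_mod_cast this
  have cc3 : IsCoprime ((3 : ℤ) ^ k) (M' : ℤ) := by
    have : Nat.Coprime 3 M' := (Nat.Prime.coprime_iff_not_dvd Nat.prime_three).2 hM3
    have := Nat.isCoprime_iff_coprime.2 this
    exact IsCoprime.pow_left (by exact_mod_cast this)
  obtain ⟨x0, p0, q0, r0⟩ := crt3 _ _ _ cc2 cc cc3 x a3 a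
  obtain ⟨x1, p1, q1, r1⟩ := crt3 _ _ _ cc2 cc cc3 y b3 b
  obtain ⟨x2, p2, q2, r2⟩ := crt3 _ _ _ cc2 cc cc3 z (a3 + b3) (a + b)
  obtain ⟨x3, p3, q3, r3⟩ := crt3 _ _ _ cc2 cc cc3 w c3 c
  have hMz : (M : ℤ) = 3 ^ k * M' := by rw [hMM]; push_cast; ring
  refine ⟨![x0, x1, x2, x3], ⟨?_, ?_⟩, ?_, ?_, ?_, ?_, ?_⟩
  · rw [Fin.sum_univ_four]
    simp only [Matrix.cons_val_zero, Matrix.cons_val_one, Matrix.cons_val]
    have hD : (2 * ((8 * M : ℕ) : ℤ)) = 16 * (3 ^ k * M') := by push_cast; rw [hMz]; ring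
    rw [hD]
    apply IsCoprime.mul_dvd (IsCoprime.mul_right cc2 cc)
    · have e : x0 ^ 2 + x1 ^ 2 + x2 ^ 2 + x3 ^ 2 - (n : ℤ) = (x0 - x) * (x0 + x) + (x1 - y) * (x1 + y) +
        (x2 - z) * (x2 + z) + (x3 - w) * (x3 + w) + (x ^ 2 + y ^ 2 + z ^ 2 + w ^ 2 - n) := by ring
      rw [e]
      exact dvd_add (dvd_add (dvd_add (dvd_add (p0.mul_right _) (p1.mul_right _)) (p2.mul_right _)) (p3.mul_right _)) h1
    · apply IsCoprime.mul_dvd cc3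
      · have e : x0 ^ 2 + x1 ^ 2 + x2 ^ 2 + x3 ^ 2 - (n : ℤ) = (x0 - a3) * (x0 + a3) + (x1 - b3) * (x1 + b3) +
          (x2 - (a3 + b3)) * (x2 + (a3 + b3)) + (x3 - c3) * (x3 + c3) + (a3 ^ 2 + b3 ^ 2 + (a3 + b3) ^ 2 + c3 ^ 2 - n) := by ring
        rw [e]
        exact dvd_add (dvd_add (dvd_add (dvd_add (q0.mul_right _) (q1.mul_right _)) (q2.mul_right _)) (q3.mul_right _)) h31
      · have e : x0 ^ 2 + x1 ^ 2 + x2 ^ 2 + x3 ^ 2 - (n : ℤ) = (x0 - a) * (x0 + a) + (x1 - b) * (x1 + b) +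
          (x2 - (a + b)) * (x2 + (a + b)) + (x3 - c) * (x3 + c) + (a ^ 2 + b ^ 2 + (a + b) ^ 2 + c ^ 2 - n) := by ring
        rw [e]
        exact dvd_add (dvd_add (dvd_add (dvd_add (r0.mul_right _) (r1.mul_right _)) (r2.mul_right _)) (r3.mul_right _)) hM1
  · intro l hl hlD
    by_contra hall
    push Not at hall
    have g0 : (l : ℤ) ∣ x0 := hall 0
    have g1 : (l : ℤ) ∣ x1 := hall 1
    have g3 : (l : ℤ) ∣ x3 := hall 3
    by_cases hl2 : l = 2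
    · subst hl2
      apply h2
      have e : x = x0 - (x0 - x) := by ring
      rw [e]
      exact dvd_sub g0 ((by norm_num : ((2 : ℕ) : ℤ) ∣ 16).trans p0)
    · have hlM : l ∣ M := by
        rcases (hl.dvd_mul).1 hlD with h | h
        · exfalso
          have e : (8 : ℕ) = 2 ^ 3 := by norm_num
          rw [e] at h
          exact hl2 ((Nat.prime_dvd_prime_iff_eq hl Nat.prime_two).1 (hl.dvd_of_dvd_pow h))
        · exact h
      rw [hMM] at hlM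
      rcases (hl.dvd_mul).1 hlM with h | h
      · have hl3 : l = 3 := (Nat.prime_dvd_prime_iff_eq hl Nat.prime_three).1 (hl.dvd_of_dvd_pow h)
        subst hl3
        have hk : 0 < k := by
          rcases Nat.eq_zero_or_pos k with h0 | h0
          · rw [h0, pow_zero] at h
            norm_num at h
          · exact h0
        have h3k : ((3 : ℕ) : ℤ) ∣ (3 : ℤ) ^ k := dvd_pow_self _ hk.ne'
        apply h32 hk
        refine ⟨?_, ?_, ?_⟩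
        · have e : a3 = x0 - (x0 - a3) := by ring
          rw [e]; exact dvd_sub g0 (h3k.trans q0)
        · have e : b3 = x1 - (x1 - b3) := by ring
          rw [e]; exact dvd_sub g1 (h3k.trans q1)
        · have e : c3 = x3 - (x3 - c3) := by ring
          rw [e]; exact dvd_sub g3 (h3k.trans q3)
      · have hz : (l : ℤ) ∣ (M' : ℤ) := by exact_mod_cast h
        apply hM2 l hl h
        constructor
        · have e : a = x0 - (x0 - a) := by ring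
          rw [e]; exact dvd_sub g0 (hz.trans r0)
        · have e : b = x1 - (x1 - b) := by ring
          rw [e]; exact dvd_sub g1 (hz.trans r1)
  · show (2 : ℤ) ∣ x3
    have e : x3 = (x3 - w) + w := by ring
    rw [e]; exact dvd_add ((by norm_num : (2 : ℤ) ∣ 16).trans p3) h5
  · show (M : ℤ) ∣ x0 + x1 - x2
    rw [hMz]
    apply IsCoprime.mul_dvd cc3
    · have e : x0 + x1 - x2 = (x0 - a3) + (x1 - b3) - (x2 - (a3 + b3)) := by ring
      rw [e]; exact dvd_sub (dvd_add q0 q1) q2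
    · have e : x0 + x1 - x2 = (x0 - a) + (x1 - b) - (x2 - (a + b)) := by ring
      rw [e]; exact dvd_sub (dvd_add r0 r1) r2
  · show ¬ (8 : ℤ) ∣ x0
    intro h
    apply h2
    have e : x = x0 - (x0 - x) := by ring
    rw [e]
    exact dvd_sub ((by norm_num : (2 : ℤ) ∣ 8).trans h) ((by norm_num : (2 : ℤ) ∣ 16).trans p0)
  · show ¬ (8 : ℤ) ∣ x1
    intro h
    apply h3
    have e : y = x1 - (x1 - y) := by ring
    rw [e]
    exact dvd_sub h ((by norm_num : (8 : ℤ) ∣ 16).trans p1)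
  · show ¬ (8 : ℤ) ∣ x2
    intro h
    apply h4
    have e : z = x2 - (x2 - z) := by ring
    rw [e]
    exact dvd_sub h ((by norm_num : (8 : ℤ) ∣ 16).trans p2)

/-- the arithmetic of the class -/
lemma odd_order (M : ℕ) (u : Fin 4 → ℤ) (hu : (M : ℤ) ∣ u 0 + u 1 - u 2) (hu0 : ¬ (8 : ℤ) ∣ u 0)
    (hu1 : ¬ (8 : ℤ) ∣ u 1) (hu2 : ¬ (8 : ℤ) ∣ u 2) (x y z : ℕ) (hx : ((8 * M : ℕ) : ℤ) ∣ (x : ℤ) - u 0)
    (hy : ((8 * M : ℕ) : ℤ) ∣ (y : ℤ) - u 1) (hz : ((8 * M : ℕ) : ℤ) ∣ (z : ℤ) - u 2) (q : ℕ) (hq : q.Prime)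
    (hqN : q ∣ 2 ^ x + 2 ^ y + 2 ^ z + 1) : q ≠ 2 ∧ (orderOf (2 : ZMod q) ∣ M → ¬ Odd (orderOf (2 : ZMod q))) := by
  have h8 : (8 : ℤ) ∣ ((8 * M : ℕ) : ℤ) := by push_cast; exact dvd_mul_right _ _
  have hM : (M : ℤ) ∣ ((8 * M : ℕ) : ℤ) := by push_cast; exact dvd_mul_left _ _
  have x8 := h8.trans hx
  have y8 := h8.trans hy
  have z8 := h8.trans hz
  have hx1 : 1 ≤ x := by omega
  have hy1 : 1 ≤ y := by omega
  have hz1 : 1 ≤ z := by omega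
  have hq2 : q ≠ 2 := by
    rintro rfl
    obtain ⟨x', rfl⟩ := Nat.exists_eq_add_of_le hx1
    obtain ⟨y', rfl⟩ := Nat.exists_eq_add_of_le hy1
    obtain ⟨z', rfl⟩ := Nat.exists_eq_add_of_le hz1
    rw [pow_add, pow_add, pow_add] at hqN
    omega
  refine ⟨hq2, fun hoM hodd => ?_⟩
  have : Fact q.Prime := ⟨hq⟩
  have h3 : (2 : ZMod q) ^ x + 2 ^ y + 2 ^ z + 1 = 0 := by
    have h : ((2 ^ x + 2 ^ y + 2 ^ z + 1 : ℕ) : ZMod q) = 0 := (ZMod.natCast_eq_zero_iff _ _).2 hqN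
    push_cast at h
    exact h
  have h20 : (2 : ZMod q) ≠ 0 := by
    intro h
    have h3 : ((2 : ℕ) : ZMod q) = 0 := by exact_mod_cast h
    rw [ZMod.natCast_eq_zero_iff] at h3
    exact hq2 ((Nat.prime_dvd_prime_iff_eq hq Nat.prime_two).1 h3)
  have ez : (2 : ZMod q) ^ z = 2 ^ (x + y) := by
    apply pow_eq_of_dvd q M z (x + y) (orderOf_dvd_iff_pow_eq_one.1 hoM)
    have e : (z : ℤ) - ((x + y : ℕ) : ℤ) = (z - u 2) - (x - u 0) - (y - u 1) - (u 0 + u 1 - u 2) := by push_cast; ring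
    rw [e]
    exact dvd_sub (dvd_sub (dvd_sub (hM.trans hz) (hM.trans hx)) (hM.trans hy)) hu
  have hf : ((2 : ZMod q) ^ x + 1) * (2 ^ y + 1) = 0 := by
    rw [ez, pow_add] at h3
    linear_combination h3
  have hno : ∀ s : ℕ, (2 : ZMod q) ^ s + 1 ≠ 0 := by
    intro s hs
    have h5 : (2 : ZMod q) ^ s = -1 := by linear_combination hs
    have h6 : ((2 : ZMod q) ^ s) ^ orderOf (2 : ZMod q) = 1 := by
      rw [← pow_mul, mul_comm, pow_mul, pow_orderOf_eq_one, one_pow]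
    rw [h5, hodd.neg_one_pow] at h6
    apply h20
    linear_combination -h6
  rcases mul_eq_zero.1 hf with h | h
  · exact hno x h
  · exact hno y h

theorem finO_small (ε : ℝ) (hε : 0 < ε) (hε1 : ε ≤ 1 / 100) : ∃ c : ℝ, 0 < c ∧ ∃ n0 : ℕ, ∀ n : ℕ, n0 ≤ n → Odd n →
    ∃ S : Finset (ℕ × ℕ × ℕ × ℕ), (n : ℝ) ^ (1 - ε) ≤ (S.card : ℝ) ∧
      ∀ x y z w : ℕ, (x, y, z, w) ∈ S → n = x ^ 2 + y ^ 2 + z ^ 2 + 4 * w ^ 2 ∧
        ∀ q : ℕ, q.Prime → q ∣ 2 ^ x + 2 ^ y + 2 ^ z + 1 → (q : ℝ) ≤ c * Real.log n ^ 2 →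
          q ≠ 2 ∧ Even (orderOf (2 : ZMod q)) := by
  classical
  obtain ⟨C, hC, δ, hδ, n1, hmain⟩ := sieveF (ε / 2) (by positivity)
  obtain ⟨c1, hc1⟩ : ∃ c1 : ℝ, c1 = min 1 (δ / 5112) := ⟨_, rfl⟩
  have hc1pos : 0 < c1 := by rw [hc1]; exact lt_min one_pos (by positivity)
  have hc11 : c1 ≤ 1 := by rw [hc1]; exact min_le_left _ _
  have hc1δ : c1 ≤ δ / 5112 := by rw [hc1]; exact min_le_right _ _
  obtain ⟨c2, hc2⟩ : ∃ c2 : ℝ, c2 = c1 ^ 2 / 10 ^ 8 := ⟨_, rfl⟩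
  have hc2pos : 0 < c2 := by rw [hc2]; positivity
  have hev := (par_ab c1 c2 hc1pos hc11 hc2).and ((par_d (δ / 284) (by positivity)).and
    ((par_e δ c1 hδ hc1pos hc1δ).and ((par_f ε C c1 c2 hε hε1 hC hc1pos hc11 hc2).and
      ((ev_log_ge 1).and (ev_log_ge (2 * Real.log (2 / c1)))))))
  have htend : Tendsto (fun n : ℕ => Real.log (n : ℝ)) atTop atTop :=
    Real.tendsto_log_atTop.comp tendsto_natCast_atTop_atTop
  have hev2 := htend.eventually hev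
  rw [Filter.eventually_atTop] at hev2
  obtain ⟨n2, hn2⟩ := hev2
  refine ⟨c2, hc2pos, n1 + n2 + 1, ?_⟩
  intro n hn hno
  obtain ⟨⟨gLb, gZ1, gZL, gLbr, gZr, gZy, gy⟩, gd, ge, gf, gl1, gl2⟩ := hn2 n (by omega)
  have hnpos : (0 : ℝ) < n := by exact_mod_cast hno.pos
  obtain ⟨y, hy⟩ : ∃ y : ℝ, y = Real.log (n : ℝ) := ⟨_, rfl⟩
  rw [← hy] at gLb gZ1 gZL gLbr gZr gZy gy gd ge gf gl1 gl2
  have hrp : ∀ a : ℝ, (n : ℝ) ^ a = Real.exp (a * y) := by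
    intro a
    rw [Real.rpow_def_of_pos hnpos, ← hy, mul_comm]
  obtain ⟨Lb, hLb⟩ : ∃ Lb : ℕ, Lb = ⌊c1 * y⌋₊ := ⟨_, rfl⟩
  obtain ⟨Z, hZ⟩ : ∃ Z : ℕ, Z = ⌊c2 * y ^ 2⌋₊ := ⟨_, rfl⟩
  rw [← hLb] at gLb gZL gLbr ge
  rw [← hZ] at gZ1 gZL gZr
  have hZy2 : (Z : ℝ) ≤ y ^ 2 := gZr.trans gZy
  obtain ⟨J, hJ⟩ : ∃ J : ℕ, J = ⌊Real.exp (δ / 284 * y)⌋₊ := ⟨_, rfl⟩
  have gd' := gd Z gZ1 hZy2
  rw [← hJ] at gd' ge
  obtain ⟨K, hK⟩ : ∃ K : ℕ, K = Nat.lcmUpto Lb ^ 3 := ⟨_, rfl⟩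
  have hKpos : 0 < K := by rw [hK]; exact pow_pos (Nat.lcmUpto_pos Lb) 3
  obtain ⟨v, M, hM, hKM⟩ := Nat.exists_eq_two_pow_mul_odd hKpos.ne'
  have hv : 0 < v := by
    rcases Nat.eq_zero_or_pos v with h | h
    · exfalso
      have h2 : 2 ∣ K := by
        rw [hK]
        exact (dvd_lcmUpto 2 Lb (by norm_num) (by omega)).trans (dvd_pow_self _ (by norm_num))
      rw [hKM, h, pow_zero, one_mul] at h2
      exact (Nat.not_even_iff_odd.2 hM) (even_iff_two_dvd.2 h2)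
    · exact h
  have hDK : 8 * M ∣ 12 * K := by
    obtain ⟨v', rfl⟩ := Nat.exists_eq_add_of_le hv
    rw [hKM]
    exact ⟨3 * 2 ^ v', by ring⟩
  obtain ⟨u, hu, hu3, hum, hu0, hu1, hu2⟩ := classO n M hno hM
  obtain ⟨hP, hsum⟩ := one_step Lb Z gLb gZL
  rw [← hK] at hP
  obtain ⟨P, hPd⟩ : ∃ P : Finset ℕ, P = (Ioc Lb Z).filter Nat.Prime := ⟨_, rfl⟩
  rw [← hPd] at hP hsum
  have hP12 : ∀ l ∈ P, ¬ l ∣ 12 * K := by
    intro l hl h
    have e : 12 * K = 3 * (4 * K) := by ring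
    rw [e] at h
    rcases (hP l hl).1.dvd_mul.1 h with h | h
    · have := Nat.le_of_dvd (by norm_num) h
      have := (hP l hl).2.1
      omega
    · exact (hP l hl).2.2.2.1 h
  obtain ⟨j, hj1, hj2, hj3⟩ := exists_j Z P (fun l hl => ⟨(hP l hl).1, (hP l hl).2.1, (hP l hl).2.2.1⟩) (12 * K)
    hP12 J gZ1 gd'
  have hy0 : 0 < y := by linarith
  have hLbpos : (0 : ℝ) < Lb := by exact_mod_cast (by omega : 0 < Lb)
  have hlogLb : Real.log y / 2 ≤ Real.log Lb := by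
    have h1 : Real.log (c1 * y / 2) ≤ Real.log Lb := Real.log_le_log (by positivity) gLbr
    have h2 : Real.log (c1 * y / 2) = Real.log y - Real.log (2 / c1) := by
      rw [← Real.log_div hy0.ne' (by positivity)]
      congr 1
      field_simp
    linarith
  obtain ⟨V, hV⟩ : ∃ V : ℝ, V = 300 * Z / (Lb * Real.log Lb) := ⟨_, rfl⟩
  have hlogLb0 : 0 < Real.log Lb := by linarith
  have hV0 : 0 ≤ V := by rw [hV]; positivity
  have hVle : V ≤ 300 * (c2 * y ^ 2) / ((c1 * y / 2) * (Real.log y / 2)) := by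
    rw [hV]
    apply div_le_div₀ (by positivity) (by linarith) (by positivity)
    apply mul_le_mul gLbr hlogLb (by linarith) hLbpos.le
  rw [← hV] at hsum
  obtain ⟨k, hk, hsv⟩ := hmain V hV0
  have hfin := gf V hV0 hVle k hk Z hZy2
  have hsize : ((j * (12 * K) : ℕ) : ℝ) ^ 71 ≤ (n : ℝ) ^ δ := by
    have h1 := ge (3 * (K : ℝ)) (by positivity) (by rw [hK]; exact log_3lcm3 Lb (by omega)) (j : ℝ) (Nat.cast_nonneg j)
      (by exact_mod_cast hj2)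
    rw [hrp]
    refine le_trans (le_of_eq ?_) h1
    push_cast
    ring
  obtain ⟨S, hS1, hS2⟩ := hsv n (8 * M) (j * (12 * K)) (by omega) hno (by positivity) (Dvd.dvd.mul_right (by norm_num) _)
    (hDK.mul_left _) hsize u hu hu3 Z P (fun _ => Finset.range (Z + 1))
    (fun l hl => ⟨(hP l hl).1, (hP l hl).2.2.1, fun h => hP12 l hl (h.trans hDK), by
      have := hj3 l hl
      rw [← Nat.cast_mul] at this
      exact this⟩) (fun l => 100 * (Z : ℝ) / (l : ℝ) ^ 2)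
    (fun l hl => ⟨(hP l hl).2.2.2.2.1, (hP l hl).2.2.2.2.2⟩) hsum
  refine ⟨S, ?_, ?_⟩
  · rw [hrp] at hS1
    rw [hrp (24 / 25)] at hS1
    rw [hrp]
    linarith
  · intro x y' z w hxyzw
    obtain ⟨g1, g2, g3, g4, g5⟩ := hS2 x y' z w hxyzw
    refine ⟨g1, fun q hq hqN hqc => ?_⟩
    obtain ⟨k1, k2⟩ := odd_order M u hum hu0 hu1 hu2 x y' z g2 g3 g4 q hq hqN
    refine ⟨k1, ?_⟩
    by_contra hne
    rw [Nat.not_even_iff_odd] at hne
    have hoM : ∀ l : ℕ, orderOf (2 : ZMod q) ∣ K * l → orderOf (2 : ZMod q) ∣ M * l := by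
      intro l h
      rw [hKM, mul_assoc] at h
      exact (Nat.Coprime.pow_right v (Nat.coprime_two_right.2 hne)).dvd_of_dvd_mul_left h
    have h1 := no_small2 Lb Z K hK gZL q hq k1
      (fun h => k2 (by have := hoM 1 (by rw [mul_one]; exact h); rwa [mul_one] at this) hne)
      (by
        rw [← hPd]
        intro l hl hqr hlo hoK
        exact g5 l hl q hqr hq k1 hlo ((hoM l hoK).trans (Nat.mul_dvd_mul_right (dvd_mul_left _ _) l)) hqN)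
    have h2 : q ≤ Z := by
      rw [hZ]
      apply Nat.le_floor
      rw [hy]
      exact hqc
    omega

/-- odd orders -/
theorem finO (ε : ℝ) (hε : 0 < ε) : ∃ c : ℝ, 0 < c ∧ ∃ n0 : ℕ, ∀ n : ℕ, n0 ≤ n → Odd n →
    ∃ S : Finset (ℕ × ℕ × ℕ × ℕ), (n : ℝ) ^ (1 - ε) ≤ (S.card : ℝ) ∧
      ∀ x y z w : ℕ, (x, y, z, w) ∈ S → n = x ^ 2 + y ^ 2 + z ^ 2 + 4 * w ^ 2 ∧
        ∀ q : ℕ, q.Prime → q ∣ 2 ^ x + 2 ^ y + 2 ^ z + 1 → (q : ℝ) ≤ c * Real.log n ^ 2 →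
          q ≠ 2 ∧ Even (orderOf (2 : ZMod q)) := by
  obtain ⟨c, hc, n0, h⟩ := finO_small (min ε (1 / 100)) (lt_min hε (by norm_num)) (min_le_right _ _)
  refine ⟨c, hc, n0, fun n hn hno => ?_⟩
  obtain ⟨S, h1, h2⟩ := h n hn hno
  refine ⟨S, le_trans ?_ h1, h2⟩
  apply Real.rpow_le_rpow_of_exponent_le (by exact_mod_cast hno.pos)
  have := min_le_left ε (1 / 100)
  linarith

end Pool.Agent.X9.SQ
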