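import Pool.Agent.X9.SQ.Dist

/-!
# The bad residues modulo a prime `l` that divides the order of `2` modulo `q`
-/

set_option autoImplicit false
open Finset

namespace Pool.Agent.X9.SQ
open Pool.Agent.W65.FS

/-- `q` divides a number `2 ^ s + 2 ^ t + 1` with `s ≡ Y 0 + Y 1`, `t ≡ Y 2 + Y 3` modulo `l` -/
def Bq (v L l q : ℕ) (Y : Fin 4 → ℤ) : Prop :=
  ∃ s t : ℕ, (l : ℤ) ∣ Y 0 + Y 1 - s ∧ (l : ℤ) ∣ Y 2 + Y 3 - t ∧ 2 ^ v * L ∣ s ∧ 1 ≤ t ∧ 2 ^ v ∣ t - 1 ∧
    q ∣ 2 ^ s + 2 ^ t + 1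

lemma Bq_congr (v L l q : ℕ) (X Y : Fin 4 → ℤ) (h : ∀ i, (l : ℤ) ∣ X i - Y i) (hX : Bq v L l q X) : Bq v L l q Y := by
  obtain ⟨s, t, h1, h2, h3⟩ := hX
  refine ⟨s, t, ?_, ?_, h3⟩
  · have e : Y 0 + Y 1 - s = (X 0 + X 1 - s) - (X 0 - Y 0) - (X 1 - Y 1) := by ring
    rw [e]
    exact dvd_sub (dvd_sub h1 (h 0)) (h 1)
  · have e : Y 2 + Y 3 - t = (X 2 + X 3 - t) - (X 2 - Y 2) - (X 3 - Y 3) := by ring
    rw [e]
    exact dvd_sub (dvd_sub h2 (h 2)) (h 3)

lemma pow_eq_of_dvd (q : ℕ) [Fact q.Prime] (d a b : ℕ) (hd : (2 : ZMod q) ^ d = 1) (h : (d : ℤ) ∣ (a : ℤ) - b) :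
    (2 : ZMod q) ^ a = 2 ^ b := by
  wlog hab : b ≤ a generalizing a b
  · exact (this b a (by rw [← neg_sub]; exact h.neg_right) (by omega)).symm
  have h1 : d ∣ a - b := by
    have : (d : ℤ) ∣ ((a - b : ℕ) : ℤ) := by rw [Nat.cast_sub hab]; exact h
    exact_mod_cast this
  obtain ⟨k, hk⟩ := h1
  have e : a = b + d * k := by omega
  rw [e, pow_add, pow_mul, hd, one_pow, mul_one]

/-- the zero residue is not bad -/
lemma not_Bq_zero (v L l q : ℕ) (hL : Odd L) (hlo : Odd l) (hq : q.Prime) (hq2 : q ≠ 2)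
    (hd : orderOf (2 : ZMod q) ∣ 2 ^ v * L * l) (hcop : Nat.Coprime l (2 ^ v * L)) (Y : Fin 4 → ℤ)
    (hY : (l : ℤ) ∣ Y 0 + Y 1) : ¬ Bq v L l q Y := by
  rintro ⟨s, t, h1, _, h3, ht1, h4, h5⟩
  have : Fact q.Prime := ⟨hq⟩
  have hls : l ∣ s := by
    have : (l : ℤ) ∣ (s : ℤ) := by
      have := dvd_sub hY h1
      simpa using this
    exact_mod_cast this
  have hds : 2 ^ v * L * l ∣ s := Nat.Coprime.mul_dvd_of_dvd_of_dvd hcop.symm h3 hls
  have h20 : (2 : ZMod q) ≠ 0 := by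
    intro h
    have h3 : ((2 : ℕ) : ZMod q) = 0 := by exact_mod_cast h
    rw [ZMod.natCast_eq_zero_iff] at h3
    exact hq2 ((Nat.prime_dvd_prime_iff_eq hq Nat.prime_two).1 h3)
  have h6 : (2 : ZMod q) ^ s = 1 := orderOf_dvd_iff_pow_eq_one.1 (hd.trans hds)
  have h7 : (2 : ZMod q) ^ s + 2 ^ t + 1 = 0 := by
    have h : ((2 ^ s + 2 ^ t + 1 : ℕ) : ZMod q) = 0 := (ZMod.natCast_eq_zero_iff _ _).2 h5
    push_cast at h
    exact h
  rw [h6] at h7
  have h8 : (2 : ZMod q) ^ (t - 1) = -1 := by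
    have e : (2 : ZMod q) ^ t = 2 * 2 ^ (t - 1) := by
      conv_lhs => rw [← Nat.sub_add_cancel ht1, pow_succ]
      ring
    rw [e] at h7
    have h9 : (2 : ZMod q) * (2 ^ (t - 1) + 1) = 0 := by linear_combination h7
    rcases mul_eq_zero.1 h9 with h10 | h10
    · exact absurd h10 h20
    · linear_combination h10
  obtain ⟨r, hr⟩ := h4
  have h9 : ((2 : ZMod q) ^ (t - 1)) ^ (L * l) = 1 := by
    rw [hr, ← pow_mul]
    have e : 2 ^ v * r * (L * l) = 2 ^ v * L * l * r := by ring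
    rw [e, pow_mul, orderOf_dvd_iff_pow_eq_one.1 hd, one_pow]
  rw [h8, (hL.mul hlo).neg_one_pow] at h9
  apply h20
  linear_combination -h9

/-- for a given first pair the sum of the second pair is determined modulo `l` -/
lemma Bq_det (v L l q : ℕ) (hq : q.Prime) (hlo : l ∣ orderOf (2 : ZMod q))
    (hd : orderOf (2 : ZMod q) ∣ 2 ^ v * L * l) (hcop : Nat.Coprime l (2 ^ v * L)) (X Y : Fin 4 → ℤ)
    (h : (l : ℤ) ∣ (X 0 + X 1) - (Y 0 + Y 1)) (hX : Bq v L l q X) (hY : Bq v L l q Y) (hq2 : q ≠ 2) :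
    (l : ℤ) ∣ (X 2 + X 3) - (Y 2 + Y 3) := by
  obtain ⟨s, t, h1, h2, h3, _, _, h5⟩ := hX
  obtain ⟨s', t', h1', h2', h3', _, _, h5'⟩ := hY
  have : Fact q.Prime := ⟨hq⟩
  have hss : (l : ℤ) ∣ (s : ℤ) - s' := by
    have e : (s : ℤ) - s' = (X 0 + X 1 - (Y 0 + Y 1)) - (X 0 + X 1 - s) + (Y 0 + Y 1 - s') := by ring
    rw [e]
    exact dvd_add (dvd_sub h h1) h1'
  have hKs : ((2 ^ v * L : ℕ) : ℤ) ∣ (s : ℤ) - s' :=
    dvd_sub (by exact_mod_cast h3) (by exact_mod_cast h3')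
  have hKl : ((2 ^ v * L * l : ℕ) : ℤ) ∣ (s : ℤ) - s' := by
    push_cast
    apply IsCoprime.mul_dvd
    · have := Nat.isCoprime_iff_coprime.2 hcop.symm
      push_cast at this
      exact this
    · exact_mod_cast hKs
    · exact hss
  have h6 : (2 : ZMod q) ^ s = 2 ^ s' :=
    pow_eq_of_dvd q (2 ^ v * L * l) s s' (orderOf_dvd_iff_pow_eq_one.1 hd) hKl
  have h7 : (2 : ZMod q) ^ s + 2 ^ t + 1 = 0 := by
    have h : ((2 ^ s + 2 ^ t + 1 : ℕ) : ZMod q) = 0 := (ZMod.natCast_eq_zero_iff _ _).2 h5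
    push_cast at h
    exact h
  have h7' : (2 : ZMod q) ^ s' + 2 ^ t' + 1 = 0 := by
    have h : ((2 ^ s' + 2 ^ t' + 1 : ℕ) : ZMod q) = 0 := (ZMod.natCast_eq_zero_iff _ _).2 h5'
    push_cast at h
    exact h
  have h8 : (2 : ZMod q) ^ t = 2 ^ t' := by
    rw [h6] at h7
    linear_combination h7 - h7'
  have hfin : IsOfFinOrder (2 : ZMod q) := by
    have h20 : (2 : ZMod q) ≠ 0 := by
      intro h
      have h3 : ((2 : ℕ) : ZMod q) = 0 := by exact_mod_cast h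
      rw [ZMod.natCast_eq_zero_iff] at h3
      exact hq2 ((Nat.prime_dvd_prime_iff_eq hq Nat.prime_two).1 h3)
    rw [isOfFinOrder_iff_pow_eq_one]
    exact ⟨q - 1, by have := hq.two_le; omega, ZMod.pow_card_sub_one_eq_one h20⟩
  have h9 : t ≡ t' [MOD orderOf (2 : ZMod q)] := by
    have h20u : IsUnit (2 : ZMod q) := hfin.isUnit
    obtain ⟨w, hw⟩ := h20u
    rw [← hw] at h8 ⊢
    rw [orderOf_units]
    rw [← Units.val_pow_eq_pow_val, ← Units.val_pow_eq_pow_val] at h8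
    exact pow_eq_pow_iff_modEq.1 (Units.ext h8)
  have h10 : t ≡ t' [MOD l] := h9.of_dvd hlo
  have h11 : (l : ℤ) ∣ (t : ℤ) - t' := by
    have := (Nat.modEq_iff_dvd).1 h10.symm
    exact this
  have e : (X 2 + X 3) - (Y 2 + Y 3) = (X 2 + X 3 - t) - (Y 2 + Y 3 - t') + (t - t') := by ring
  rw [e]
  exact dvd_add (dvd_sub h2 h2') h11

/-- a set of residues of norm `n` for which the first two coordinates determine the sum of the others -/
lemma card_det (n l : ℕ) (hl : l.Prime) (hl2 : l ≠ 2) (S : Finset (Fin 4 → ℤ)) (hS : S ⊆ Gl n l)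
    (hdet : ∀ X ∈ S, ∀ Y ∈ S, X 0 = Y 0 → X 1 = Y 1 → (l : ℤ) ∣ (X 2 + X 3) - (Y 2 + Y 3)) : S.card ≤ 2 * l ^ 2 := by
  classical
  have hlz : (0 : ℤ) < l := by exact_mod_cast hl.pos
  have hlp : Prime (l : ℤ) := Nat.prime_iff_prime_int.1 hl
  have h1 : (S.image (fun X => (X 0, X 1))).card ≤ l ^ 2 := by
    have h2 : S.image (fun X => (X 0, X 1)) ⊆ (Finset.Ico (0 : ℤ) l) ×ˢ (Finset.Ico (0 : ℤ) l) := by
      intro p hp
      rw [Finset.mem_image] at hp
      obtain ⟨X, hX, rfl⟩ := hp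
      have := ((mem_Gl n l X).1 (hS hX)).1
      rw [Finset.mem_product, Finset.mem_Ico, Finset.mem_Ico]
      exact ⟨this 0, this 1⟩
    refine (Finset.card_le_card h2).trans ?_
    rw [Finset.card_product, Int.card_Ico]
    simp [pow_two]
  have h2 : S.card ≤ 2 * (S.image (fun X => (X 0, X 1))).card := by
    apply Finset.card_le_mul_card_image
    intro p hp
    rw [Finset.mem_image] at hp
    obtain ⟨X, hX, hXp⟩ := hp
    have h3 : S.filter (fun Y => (Y 0, Y 1) = p) ⊆ {![X 0, X 1, X 2, X 3], ![X 0, X 1, X 3, X 2]} := by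
      intro Y hY
      rw [Finset.mem_filter] at hY
      obtain ⟨hYS, hYp⟩ := hY
      rw [← hXp] at hYp
      simp only [Prod.mk.injEq] at hYp
      obtain ⟨y0, y1⟩ := hYp
      have hd := hdet Y hYS X hX y0 y1
      have gX := (mem_Gl n l X).1 (hS hX)
      have gY := (mem_Gl n l Y).1 (hS hYS)
      have e1 : (l : ℤ) ∣ (Y 2 ^ 2 + Y 3 ^ 2) - (X 2 ^ 2 + X 3 ^ 2) := by
        have := dvd_sub gY.2.1 gX.2.1
        rw [Fin.sum_univ_four, Fin.sum_univ_four, y0, y1] at this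
        have e : (Y 2 ^ 2 + Y 3 ^ 2) - (X 2 ^ 2 + X 3 ^ 2) =
          X 0 ^ 2 + X 1 ^ 2 + Y 2 ^ 2 + Y 3 ^ 2 - n - (X 0 ^ 2 + X 1 ^ 2 + X 2 ^ 2 + X 3 ^ 2 - n) := by ring
        rw [e]
        exact this
      -- (Y2 - X2) (Y2 - X3) ≡ 0
      have e2 : (l : ℤ) ∣ 2 * ((Y 2 - X 2) * (Y 2 - X 3)) := by
        have e : 2 * ((Y 2 - X 2) * (Y 2 - X 3)) = ((Y 2 ^ 2 + Y 3 ^ 2) - (X 2 ^ 2 + X 3 ^ 2)) +
          ((Y 2 + Y 3) - (X 2 + X 3)) * (Y 2 - Y 3 - X 2 - X 3) := by ring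
        rw [e]
        exact dvd_add e1 (hd.mul_right _)
      have eqm : ∀ a b : ℤ, 0 ≤ a ∧ a < l → 0 ≤ b ∧ b < l → (l : ℤ) ∣ a - b → a = b := by
        intro a b ha hb hab
        obtain ⟨t, ht⟩ := hab
        have t0 : t = 0 := by
          by_contra hne
          rcases lt_or_gt_of_ne hne with h | h
          · have : (l : ℤ) * t ≤ -l := by nlinarith
            omega
          · have : (l : ℤ) ≤ l * t := by nlinarith
            omega
        rw [t0, mul_zero] at ht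
        omega
      rw [Finset.mem_insert, Finset.mem_singleton]
      have h22 : ¬ (l : ℤ) ∣ 2 := by
        intro h
        have : l ∣ 2 := by exact_mod_cast h
        exact hl2 ((Nat.prime_dvd_prime_iff_eq hl Nat.prime_two).1 this)
      rcases hlp.dvd_or_dvd e2 with h | h
      · exact absurd h h22
      · rcases hlp.dvd_or_dvd h with h | h
        · left
          have y2 := eqm _ _ (gY.1 2) (gX.1 2) h
          have y3 : Y 3 = X 3 := by
            apply eqm _ _ (gY.1 3) (gX.1 3)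
            have e : Y 3 - X 3 = ((Y 2 + Y 3) - (X 2 + X 3)) - (Y 2 - X 2) := by ring
            rw [e]
            exact dvd_sub hd h
          funext i
          fin_cases i
          · exact y0
          · exact y1
          · exact y2
          · exact y3
        · right
          have y2 := eqm _ _ (gY.1 2) (gX.1 3) h
          have y3 : Y 3 = X 2 := by
            apply eqm _ _ (gY.1 3) (gX.1 2)
            have e : Y 3 - X 2 = ((Y 2 + Y 3) - (X 2 + X 3)) - (Y 2 - X 3) := by ring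
            rw [e]
            exact dvd_sub hd h
          funext i
          fin_cases i
          · exact y0
          · exact y1
          · exact y2
          · exact y3
    exact (Finset.card_le_card h3).trans Finset.card_le_two
  calc S.card ≤ 2 * (S.image (fun X => (X 0, X 1))).card := h2
    _ ≤ 2 * l ^ 2 := Nat.mul_le_mul_left _ h1

end Pool.Agent.X9.SQ
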