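import Pool.Agent.X9.SQ.Dist
import Pool.Agent.W65.FS.Prim

/-!
# Primitive representations in the classes modulo a multiple of 4
-/

set_option autoImplicit false
open Finset

namespace Pool.Agent.X9.SQ
open Pool.Agent.W65.FS Pool.Agent.TH696.FA

lemma Af_zeroG (n D : ℕ) (u : Fin 4 → ℤ) (hu : GoodG n D u) (f : ℕ) (hf : ¬ Nat.Coprime f D) : Af n D u f = 0 := by
  unfold Af
  rw [Finset.card_eq_zero, Finset.filter_eq_empty_iff]
  intro X hX hfX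
  rw [mem_repsc] at hX
  obtain ⟨l, hl, hlf, hlD⟩ := Nat.Prime.not_coprime_iff_dvd.1 hf
  obtain ⟨i, hi⟩ := hu.2 l hl hlD
  apply hi
  have h1 : (l : ℤ) ∣ X i := (Int.natCast_dvd_natCast.2 hlf).trans (hfX i)
  have h2 : (l : ℤ) ∣ X i - u i := (Int.natCast_dvd_natCast.2 hlD).trans (hX.2 i)
  have h3 := dvd_sub h1 h2
  simpa using h3

lemma good_scaleG (n D : ℕ) (h4 : 4 ∣ D) (u : Fin 4 → ℤ) (hu : GoodG n D u) (f : ℕ) (hf : f ^ 2 ∣ n) (m r : ℤ)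
    (hm : m * f + r * D = 1) : GoodG (n / f ^ 2) D (fun i => m * u i) := by
  have hf0 : f ≠ 0 := by
    rintro rfl
    have h2 : (2 : ℤ) ∣ 1 := by
      rw [← hm]
      push_cast
      rw [mul_zero, zero_add]
      exact Dvd.dvd.mul_left ((by norm_num : (2 : ℤ) ∣ 4).trans (by exact_mod_cast h4)) _
    norm_num at h2
  obtain ⟨t, ht⟩ := hf
  have hf2 : 0 < f ^ 2 := by positivity
  have hnt : n / f ^ 2 = t := by rw [ht, Nat.mul_div_cancel_left _ hf2]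
  rw [hnt]
  obtain ⟨h1, h2⟩ := hu
  constructor
  · obtain ⟨s, hs⟩ := h1
    have e1 : ∑ i, (m * u i) ^ 2 = m ^ 2 * ∑ i, u i ^ 2 := by
      rw [Finset.mul_sum]
      apply Finset.sum_congr rfl
      intro i _
      ring
    have e2 : (n : ℤ) = (f : ℤ) ^ 2 * t := by rw [ht]; push_cast; ring
    rw [e2] at hs
    have e3 : ∑ i, u i ^ 2 = (f : ℤ) ^ 2 * t + 2 * D * s := by linarith
    -- `m² (f² t + 2 D s) - t = (m f - 1) (m f + 1) t + 2 D m² s` and `2 ∣ m f + 1`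
    have hmf : (2 : ℤ) ∣ m * f + 1 := by
      have h4' : (4 : ℤ) ∣ (D : ℤ) := by exact_mod_cast h4
      obtain ⟨D', hD'⟩ := h4'
      refine ⟨1 - r * (2 * D'), ?_⟩
      rw [hD'] at hm
      linear_combination hm
    obtain ⟨g, hg⟩ := hmf
    refine ⟨m ^ 2 * s - r * g * t, ?_⟩
    rw [e1, e3]
    have e4 : m * f - 1 = -(r * D) := by linear_combination hm
    calc m ^ 2 * ((f : ℤ) ^ 2 * t + 2 * D * s) - t = (m * f - 1) * (m * f + 1) * t + 2 * D * (m ^ 2 * s) := by ring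
      _ = -(r * D) * (2 * g) * t + 2 * D * (m ^ 2 * s) := by rw [e4, hg]
      _ = _ := by ring
  · intro l hl hlD
    obtain ⟨i, hi⟩ := h2 l hl hlD
    refine ⟨i, fun h3 => hi ?_⟩
    have hlp : Prime (l : ℤ) := Nat.prime_iff_prime_int.1 hl
    rcases hlp.dvd_or_dvd h3 with h4 | h4
    · exfalso
      have h5 : (l : ℤ) ∣ 1 := by
        rw [← hm]
        exact dvd_add (h4.mul_right _) ((Int.natCast_dvd_natCast.2 hlD).mul_left _)
      exact hlp.not_isUnit (isUnit_of_dvd_one h5)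
    · exact h4

/-- **primitive representations are equidistributed over the good classes** -/
theorem prim_boundG : ∃ C : ℝ, 0 < C ∧ ∀ (n D : ℕ), 1 ≤ n → 0 < D → 4 ∣ D →
    ∀ u u' : Fin 4 → ℤ, GoodG n D u → GoodG n D u' →
      |((prc n D u).card : ℝ) - (prc n D u').card| ≤ C * (D : ℝ) ^ 11 * (n : ℝ) ^ (19 / 20 : ℝ) := by
  obtain ⟨C, hC, h⟩ := class_boundG
  have hs : Summable (fun f : ℕ => 1 / ((f : ℝ) ^ (19 / 10 : ℝ))) := Real.summable_one_div_nat_rpow.2 (by norm_num)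
  have hs0 : 0 < ∑' f : ℕ, 1 / ((f : ℝ) ^ (19 / 10 : ℝ)) := by
    apply hs.tsum_pos (fun f => by positivity) 1
    norm_num
  refine ⟨C * ∑' f : ℕ, 1 / ((f : ℝ) ^ (19 / 10 : ℝ)), by positivity, ?_⟩
  intro n D hn hD h4 u u' hu hu'
  have e1 : ((prc n D u).card : ℝ) = ∑ f ∈ (Icc 1 n).filter (fun f => f ^ 2 ∣ n),
      ((ArithmeticFunction.moebius f : ℤ) : ℝ) * (Af n D u f : ℝ) := by
    have := prc_card n D hn u
    have h2 : (((prc n D u).card : ℤ) : ℝ) = ((∑ f ∈ (Icc 1 n).filter (fun f => f ^ 2 ∣ n),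
      (ArithmeticFunction.moebius f : ℤ) * (Af n D u f : ℤ) : ℤ) : ℝ) := by rw [this]
    push_cast at h2
    exact h2
  have e2 : ((prc n D u').card : ℝ) = ∑ f ∈ (Icc 1 n).filter (fun f => f ^ 2 ∣ n),
      ((ArithmeticFunction.moebius f : ℤ) : ℝ) * (Af n D u' f : ℝ) := by
    have := prc_card n D hn u'
    have h2 : (((prc n D u').card : ℤ) : ℝ) = ((∑ f ∈ (Icc 1 n).filter (fun f => f ^ 2 ∣ n),
      (ArithmeticFunction.moebius f : ℤ) * (Af n D u' f : ℤ) : ℤ) : ℝ) := by rw [this]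
    push_cast at h2
    exact h2
  rw [e1, e2, ← Finset.sum_sub_distrib]
  refine (Finset.abs_sum_le_sum_abs _ _).trans ?_
  have hpt : ∀ f ∈ (Icc 1 n).filter (fun f => f ^ 2 ∣ n),
      |((ArithmeticFunction.moebius f : ℤ) : ℝ) * (Af n D u f : ℝ) - ((ArithmeticFunction.moebius f : ℤ) : ℝ) * (Af n D u' f : ℝ)| ≤
      C * (D : ℝ) ^ 11 * (((n / f ^ 2 : ℕ) : ℝ)) ^ (19 / 20 : ℝ) := by
    intro f hf
    rw [Finset.mem_filter, Finset.mem_Icc] at hf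
    obtain ⟨⟨hf1, hf2⟩, hf3⟩ := hf
    rw [← mul_sub, abs_mul]
    have hμ : |((ArithmeticFunction.moebius f : ℤ) : ℝ)| ≤ 1 := by
      have := ArithmeticFunction.abs_moebius_le_one (n := f)
      exact_mod_cast this
    have hR : |(Af n D u f : ℝ) - (Af n D u' f : ℝ)| ≤ C * (D : ℝ) ^ 11 * (((n / f ^ 2 : ℕ) : ℝ)) ^ (19 / 20 : ℝ) := by
      by_cases hcop : Nat.Coprime f D
      · obtain ⟨m, r, hm⟩ := Nat.isCoprime_iff_coprime.2 hcop
        rw [Af_eq n D u f hf3 (by omega) m r hm, Af_eq n D u' f hf3 (by omega) m r hm]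
        apply h (n / f ^ 2) D _ hD h4 _ _ (good_scaleG n D h4 u hu f hf3 m r hm) (good_scaleG n D h4 u' hu' f hf3 m r hm)
        exact Nat.div_pos (Nat.le_of_dvd (by omega) hf3) (by positivity)
      · rw [Af_zeroG n D u hu f hcop, Af_zeroG n D u' hu' f hcop]
        simp
        positivity
    calc _ ≤ 1 * |(Af n D u f : ℝ) - (Af n D u' f : ℝ)| := by gcongr
      _ ≤ _ := by rw [one_mul]; exact hR
  refine (Finset.sum_le_sum hpt).trans ?_
  rw [← Finset.mul_sum]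
  calc _ ≤ C * (D : ℝ) ^ 11 * ((∑' f : ℕ, 1 / ((f : ℝ) ^ (19 / 10 : ℝ))) * (n : ℝ) ^ (19 / 20 : ℝ)) := by
        have := sum_f_bound n
        gcongr
    _ = _ := by ring

lemma preps_subP (n D : ℕ) (hD : 0 < D) (h4 : 4 ∣ D) :
    preps n ⊆ (classes n D).biUnion (fun u => prc n D u) := by
  classical
  intro X hX
  have h1 := preps_sub n D hD h4 hX
  unfold preps at hX
  rw [Finset.mem_filter] at hX
  rw [Finset.mem_biUnion] at h1 ⊢
  obtain ⟨u, hu, hXu⟩ := h1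
  refine ⟨u, hu, ?_⟩
  unfold prc
  rw [Finset.mem_filter]
  exact ⟨hXu, hX.2⟩

theorem class_lowerP (ε : ℝ) (hε : 0 < ε) : ∃ c C : ℝ, 0 < c ∧ 0 < C ∧ ∀ (n D : ℕ), Odd n → 0 < D → 4 ∣ D →
    ∀ u : Fin 4 → ℤ, GoodG n D u →
      c * (n : ℝ) ^ (1 - ε) - C * (D : ℝ) ^ 15 * (n : ℝ) ^ (19 / 20 : ℝ) ≤ (D : ℝ) ^ 4 * ((prc n D u).card : ℝ) := by
  classical
  obtain ⟨c, hc, h⟩ := preps_lower ε hε
  obtain ⟨C, hC, hcl⟩ := prim_boundG
  refine ⟨c, C, hc, hC, ?_⟩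
  intro n D hno hD h4 u hu
  have h1 := h n hno
  have h2 : ((preps n).card : ℝ) ≤ ∑ u' ∈ classes n D, ((prc n D u').card : ℝ) := by
    have h3 := (Finset.card_le_card (preps_subP n D hD h4)).trans Finset.card_biUnion_le
    exact_mod_cast h3
  have h3 : ∑ u' ∈ classes n D, ((prc n D u').card : ℝ) ≤
      ∑ u' ∈ classes n D, (((prc n D u).card : ℝ) + C * (D : ℝ) ^ 11 * (n : ℝ) ^ (19 / 20 : ℝ)) := by
    apply Finset.sum_le_sum
    intro u' hu'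
    have hg : GoodG n D u' := by
      unfold classes at hu'
      exact (Finset.mem_filter.1 hu').2
    have h5 := hcl n D hno.pos hD h4 u' u hg hu
    have h6 := (abs_le.1 h5).2
    linarith
  rw [Finset.sum_const, nsmul_eq_mul] at h3
  have h7 : ((classes n D).card : ℝ) ≤ (D : ℝ) ^ 4 := by exact_mod_cast card_classes n D
  have h8 : ((classes n D).card : ℝ) * (((prc n D u).card : ℝ) + C * (D : ℝ) ^ 11 * (n : ℝ) ^ (19 / 20 : ℝ)) ≤
      (D : ℝ) ^ 4 * (((prc n D u).card : ℝ) + C * (D : ℝ) ^ 11 * (n : ℝ) ^ (19 / 20 : ℝ)) := by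
    apply mul_le_mul_of_nonneg_right h7
    positivity
  have h9 : (D : ℝ) ^ 4 * (((prc n D u).card : ℝ) + C * (D : ℝ) ^ 11 * (n : ℝ) ^ (19 / 20 : ℝ)) =
      (D : ℝ) ^ 4 * ((prc n D u).card : ℝ) + C * (D : ℝ) ^ 15 * (n : ℝ) ^ (19 / 20 : ℝ) := by ring
  linarith

/-- every admissible class modulo `D ≤ n ^ δ` has at least `n ^ (1 - ε)` primitive representations -/
theorem class_countP (ε : ℝ) (hε : 0 < ε) : ∃ δ : ℝ, 0 < δ ∧ ∃ n0 : ℕ, ∀ (n D : ℕ), n0 ≤ n → Odd n → 0 < D → 4 ∣ D →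
    (D : ℝ) ≤ (n : ℝ) ^ δ → ∀ u : Fin 4 → ℤ, GoodG n D u → (n : ℝ) ^ (1 - ε) ≤ ((prc n D u).card : ℝ) := by
  obtain ⟨e, he⟩ : ∃ e : ℝ, e = min ε (1 / 100) := ⟨_, rfl⟩
  have he0 : 0 < e := by rw [he]; exact lt_min hε (by norm_num)
  have he1 : e ≤ 1 / 100 := by rw [he]; exact min_le_right _ _
  have heε : e ≤ ε := by rw [he]; exact min_le_left _ _
  obtain ⟨c, C, hc, hC, h⟩ := class_lowerP (e / 4) (by positivity)
  obtain ⟨n1, hn1⟩ := large_rp (2 / c) (e / 2) (by positivity)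
  obtain ⟨n2, hn2⟩ := large_rp (2 * C / c) (1 / 100) (by positivity)
  refine ⟨e / 32, by positivity, n1 + n2 + 1, ?_⟩
  intro n D hn hno hD h4 hDn u hu
  have h1 := h n D hno hD h4 u hu
  have hn0 : (0 : ℝ) < n := by exact_mod_cast hno.pos
  have hnr : (1 : ℝ) ≤ n := by exact_mod_cast hno.pos
  have hD0 : (0 : ℝ) < D := by exact_mod_cast hD
  have hD4 : (D : ℝ) ^ 4 ≤ (n : ℝ) ^ (e / 8) := by
    calc (D : ℝ) ^ 4 ≤ ((n : ℝ) ^ (e / 32)) ^ 4 := by gcongr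
      _ = (n : ℝ) ^ (e / 8) := by
        rw [← Real.rpow_natCast, ← Real.rpow_mul hn0.le]
        congr 1; push_cast; ring
  have hD15 : (D : ℝ) ^ 15 ≤ (n : ℝ) ^ (15 * e / 32) := by
    calc (D : ℝ) ^ 15 ≤ ((n : ℝ) ^ (e / 32)) ^ 15 := by gcongr
      _ = (n : ℝ) ^ (15 * e / 32) := by
        rw [← Real.rpow_natCast, ← Real.rpow_mul hn0.le]
        congr 1; push_cast; ring
  have hA : (D : ℝ) ^ 4 * (n : ℝ) ^ (1 - ε) ≤ c / 2 * (n : ℝ) ^ (1 - e / 4) := by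
    have e1 : (n : ℝ) ^ (1 - ε) ≤ (n : ℝ) ^ (1 - e) :=
      Real.rpow_le_rpow_of_exponent_le hnr (by linarith)
    have e2 := hn1 n (by omega)
    calc (D : ℝ) ^ 4 * (n : ℝ) ^ (1 - ε) ≤ (n : ℝ) ^ (e / 8) * (n : ℝ) ^ (1 - e) := by gcongr
      _ = (n : ℝ) ^ (1 - 7 * e / 8) := by rw [← Real.rpow_add hn0]; congr 1; ring
      _ ≤ (n : ℝ) ^ (1 - e / 4 - e / 2) := Real.rpow_le_rpow_of_exponent_le hnr (by linarith)
      _ = (n : ℝ) ^ (1 - e / 4) / (n : ℝ) ^ (e / 2) := by rw [Real.rpow_sub hn0]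
      _ ≤ c / 2 * (n : ℝ) ^ (1 - e / 4) := by
        rw [div_le_iff₀ (by positivity)]
        have e3 : 1 ≤ c / 2 * (n : ℝ) ^ (e / 2) := by
          calc (1 : ℝ) = c / 2 * (2 / c) := by field_simp
            _ ≤ _ := by gcongr
        calc (n : ℝ) ^ (1 - e / 4) = (n : ℝ) ^ (1 - e / 4) * 1 := (mul_one _).symm
          _ ≤ (n : ℝ) ^ (1 - e / 4) * (c / 2 * (n : ℝ) ^ (e / 2)) := by gcongr
          _ = _ := by ring
  have hB : C * (D : ℝ) ^ 15 * (n : ℝ) ^ (19 / 20 : ℝ) ≤ c / 2 * (n : ℝ) ^ (1 - e / 4) := by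
    have e2 := hn2 n (by omega)
    calc C * (D : ℝ) ^ 15 * (n : ℝ) ^ (19 / 20 : ℝ) ≤ C * (n : ℝ) ^ (15 * e / 32) * (n : ℝ) ^ (19 / 20 : ℝ) := by gcongr
      _ = C * (n : ℝ) ^ (15 * e / 32 + 19 / 20) := by rw [mul_assoc, ← Real.rpow_add hn0]
      _ ≤ C * (n : ℝ) ^ (1 - e / 4 - 1 / 100) := by
        gcongr
        linarith
      _ = C * ((n : ℝ) ^ (1 - e / 4) / (n : ℝ) ^ (1 / 100 : ℝ)) := by rw [← Real.rpow_sub hn0]
      _ ≤ c / 2 * (n : ℝ) ^ (1 - e / 4) := by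
        rw [mul_div_assoc', div_le_iff₀ (by positivity)]
        have e3 : C ≤ c / 2 * (n : ℝ) ^ (1 / 100 : ℝ) := by
          calc C = c / 2 * (2 * C / c) := by field_simp
            _ ≤ _ := by gcongr
        calc C * (n : ℝ) ^ (1 - e / 4) ≤ (c / 2 * (n : ℝ) ^ (1 / 100 : ℝ)) * (n : ℝ) ^ (1 - e / 4) := by gcongr
          _ = _ := by ring
  have hfin : (D : ℝ) ^ 4 * (n : ℝ) ^ (1 - ε) ≤ (D : ℝ) ^ 4 * ((prc n D u).card : ℝ) := by
    have : c / 2 * (n : ℝ) ^ (1 - e / 4) + c / 2 * (n : ℝ) ^ (1 - e / 4) = c * (n : ℝ) ^ (1 - e / 4) := by ring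
    linarith
  exact le_of_mul_le_mul_left hfin (by positivity)

/-- the primitive representations in a class with prescribed residues -/
noncomputable def NrP (n M : ℕ) (v : Fin 4 → ℤ) (T : Finset ℕ) (c : (l : ℕ) → l ∈ T → (Fin 4 → ℤ)) : Finset (Fin 4 → ℤ) := by
  classical
  exact (prc n M v).filter (fun X => ∀ l (h : l ∈ T), red l X = c l h)

lemma NrP_eq (n M : ℕ) (h4 : 4 ∣ M) (v : Fin 4 → ℤ) (hv : GoodG n M v) (T : Finset ℕ)
    (hT : ∀ l ∈ T, l.Prime ∧ ¬ l ∣ M)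
    (c : (l : ℕ) → l ∈ T → (Fin 4 → ℤ)) (hc : c ∈ T.pi (fun l => Gl n l)) :
    ∃ u : Fin 4 → ℤ, GoodG n (M * ∏ l ∈ T, l) u ∧ NrP n M v T c = prc n (M * ∏ l ∈ T, l) u := by
  classical
  obtain ⟨u, hu1, hu2⟩ := Nr_eq n M h4 v hv T hT c hc
  refine ⟨u, hu1, ?_⟩
  unfold NrP prc
  rw [← hu2]
  unfold Nr
  ext X
  simp only [Finset.mem_filter]
  tauto

lemma sum_NrP (n M : ℕ) (v : Fin 4 → ℤ) (T : Finset ℕ) (S : ℕ → Finset (Fin 4 → ℤ)) :
    ∑ c ∈ T.pi S, (NrP n M v T c).card =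
      ((by classical exact (prc n M v).filter (fun X => ∀ l ∈ T, red l X ∈ S l)) : Finset (Fin 4 → ℤ)).card := by
  classical
  rw [Finset.card_eq_sum_card_fiberwise (f := fun X => fun l (_ : l ∈ T) => red l X) (t := T.pi S)]
  · apply Finset.sum_congr rfl
    intro c hc
    congr 1
    ext X
    unfold NrP
    rw [Finset.mem_filter, Finset.mem_filter, Finset.mem_filter]
    constructor
    · rintro ⟨h1, h2⟩
      refine ⟨⟨h1, fun l hl => ?_⟩, ?_⟩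
      · rw [h2 l hl]
        exact (Finset.mem_pi.1 hc) l hl
      · funext l hl
        exact h2 l hl
    · rintro ⟨⟨h1, _⟩, h2⟩
      refine ⟨h1, fun l hl => ?_⟩
      exact congrFun (congrFun h2 l) hl
  · intro X hX
    rw [Finset.mem_coe, Finset.mem_filter] at hX
    rw [Finset.mem_coe, Finset.mem_pi]
    intro l hl
    exact hX.2 l hl

/-- the residue of a primitive representation is not zero -/
lemma prc_Gl (n M : ℕ) (v : Fin 4 → ℤ) (l : ℕ) (hl : l.Prime) (X : Fin 4 → ℤ) (hX : X ∈ prc n M v) : red l X ∈ Gl n l := by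
  unfold prc at hX
  rw [Finset.mem_filter, mem_repsc] at hX
  obtain ⟨⟨h1, _⟩, h2⟩ := hX
  have hlz : (0 : ℤ) < l := by exact_mod_cast hl.pos
  have hr := red_dvd l X
  rw [mem_Gl]
  refine ⟨fun i => ⟨Int.emod_nonneg _ hlz.ne', Int.emod_lt_of_pos _ hlz⟩, ?_, ?_⟩
  · have h1 : (∑ i, red l X i ^ 2) - (n : ℤ) = -∑ i, (X i - red l X i) * (X i + red l X i) := by
      rw [← h1]
      simp only [Fin.sum_univ_four]
      ring
    rw [h1, dvd_neg]
    exact Finset.dvd_sum fun i _ => (hr i).mul_right _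
  · by_contra hz
    push Not at hz
    have h3 : l ∣ gc X := by
      rw [dvd_gc]
      intro i
      have := dvd_add (hr i) (hz i)
      simpa using this
    rw [h2] at h3
    exact hl.one_lt.ne' (Nat.dvd_one.1 h3)

/-- **distribution** of the primitive representations in a class modulo a multiple of 4 -/
theorem distP : ∃ C : ℝ, 0 < C ∧ ∀ (n M : ℕ), 1 ≤ n → 0 < M → 4 ∣ M →
    ∀ v : Fin 4 → ℤ, GoodG n M v → ∀ T : Finset ℕ, (∀ l ∈ T, l.Prime ∧ ¬ l ∣ M) →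
    ∀ S : ℕ → Finset (Fin 4 → ℤ), (∀ l ∈ T, S l ⊆ Gl n l) →
      |((((by classical exact (prc n M v).filter (fun X => ∀ l ∈ T, red l X ∈ S l)) : Finset (Fin 4 → ℤ)).card : ℕ) : ℝ) -
        (∏ l ∈ T, (((S l).card : ℝ) / (Gl n l).card)) * (((prc n M v).card : ℕ) : ℝ)| ≤
      C * (M : ℝ) ^ 11 * ((∏ l ∈ T, l : ℕ) : ℝ) ^ 15 * (n : ℝ) ^ (19 / 20 : ℝ) := by
  classical
  obtain ⟨C, hC, h⟩ := prim_boundG
  refine ⟨C, hC, ?_⟩
  intro n M hn hM h4 v hv T hT S hS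
  have hTne : ∀ l ∈ T, l ≠ 2 := by
    intro l hl h2
    apply (hT l hl).2
    rw [h2]
    exact (by norm_num : 2 ∣ 4).trans h4
  have hGpos : ∀ l ∈ T, (0 : ℝ) < (Gl n l).card := by
    intro l hl
    have h1 := count_lower l (hT l hl).1 (hTne l hl) n
    have h2 : (2 : ℝ) ≤ l := by exact_mod_cast (hT l hl).1.two_le
    have h3 : (0 : ℝ) < (l : ℝ) ^ 3 - l := by nlinarith [mul_pos (show (0:ℝ) < l by linarith) (show (0:ℝ) < l by linarith)]
    linarith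
  obtain ⟨D, hD⟩ : ∃ D : ℕ, D = ∏ l ∈ T, l := ⟨_, rfl⟩
  have hDpos : 0 < D := by rw [hD]; exact Finset.prod_pos fun l hl => (hT l hl).1.pos
  have hMD : 0 < M * D := Nat.mul_pos hM hDpos
  have h4D : 4 ∣ M * D := h4.mul_right _
  obtain ⟨E, hE⟩ : ∃ E : ℝ, E = C * ((M * D : ℕ) : ℝ) ^ 11 * (n : ℝ) ^ (19 / 20 : ℝ) := ⟨_, rfl⟩
  have hE0 : 0 ≤ E := by rw [hE]; positivity
  obtain ⟨Gs, hGs⟩ : ∃ Gs, Gs = T.pi (fun l => Gl n l) := ⟨_, rfl⟩
  obtain ⟨Ss, hSs⟩ : ∃ Ss, Ss = T.pi S := ⟨_, rfl⟩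
  have hsub : Ss ⊆ Gs := by
    intro c hc
    rw [hSs, Finset.mem_pi] at hc
    rw [hGs, Finset.mem_pi]
    intro l hl
    exact hS l hl (hc l hl)
  have hdiff : ∀ c ∈ Gs, ∀ c' ∈ Gs, |((NrP n M v T c).card : ℝ) - (NrP n M v T c').card| ≤ E := by
    intro c hc c' hc'
    rw [hGs] at hc hc'
    obtain ⟨u, hu1, hu2⟩ := NrP_eq n M h4 v hv T hT c hc
    obtain ⟨u', hu1', hu2'⟩ := NrP_eq n M h4 v hv T hT c' hc'
    rw [hu2, hu2', hE]
    rw [← hD] at hu1 hu1' ⊢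
    exact h n (M * D) hn hMD h4D u u' hu1 hu1'
  have hsumS : (((prc n M v).filter (fun X => ∀ l ∈ T, red l X ∈ S l)).card : ℝ) = ∑ c ∈ Ss, ((NrP n M v T c).card : ℝ) := by
    have := sum_NrP n M v T S
    rw [hSs, ← Nat.cast_sum, this]
  have hsumG : ((prc n M v).card : ℝ) = ∑ c ∈ Gs, ((NrP n M v T c).card : ℝ) := by
    have := sum_NrP n M v T (fun l => Gl n l)
    rw [hGs, ← Nat.cast_sum, this]
    congr 2
    ext X
    rw [Finset.mem_filter]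
    exact ⟨fun hX => ⟨hX, fun l hl => prc_Gl n M v l (hT l hl).1 X hX⟩, fun hX => hX.1⟩
  have hcG : (Gs.card : ℝ) = ∏ l ∈ T, ((Gl n l).card : ℝ) := by
    rw [hGs, Finset.card_pi]; push_cast; rfl
  have hcS : (Ss.card : ℝ) = ∏ l ∈ T, ((S l).card : ℝ) := by
    rw [hSs, Finset.card_pi]; push_cast; rfl
  have hG0 : (0 : ℝ) < Gs.card := by
    rw [hcG]
    exact Finset.prod_pos hGpos
  rw [Finset.prod_div_distrib, ← hcG, ← hcS]
  have e1 : ∑ c ∈ Ss, ((NrP n M v T c).card : ℝ) - ((Ss.card : ℝ) / Gs.card) * (∑ c ∈ Gs, ((NrP n M v T c).card : ℝ)) =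
      (1 / (Gs.card : ℝ)) * ∑ c ∈ Ss, ∑ c' ∈ Gs, (((NrP n M v T c).card : ℝ) - (NrP n M v T c').card) := by
    simp_rw [Finset.sum_sub_distrib]
    simp only [Finset.sum_const, nsmul_eq_mul]
    rw [← Finset.mul_sum]
    field_simp
  have e2 : |∑ c ∈ Ss, ∑ c' ∈ Gs, (((NrP n M v T c).card : ℝ) - (NrP n M v T c').card)| ≤ Ss.card * (Gs.card * E) := by
    refine (Finset.abs_sum_le_sum_abs _ _).trans ?_
    have : ∀ c ∈ Ss, |∑ c' ∈ Gs, (((NrP n M v T c).card : ℝ) - (NrP n M v T c').card)| ≤ Gs.card * E := by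
      intro c hc
      refine (Finset.abs_sum_le_sum_abs _ _).trans ?_
      refine (Finset.sum_le_sum fun c' hc' => hdiff c (hsub hc) c' hc').trans ?_
      rw [Finset.sum_const, nsmul_eq_mul]
    refine (Finset.sum_le_sum this).trans ?_
    rw [Finset.sum_const, nsmul_eq_mul]
  have hSle : (Ss.card : ℝ) ≤ (D : ℝ) ^ 4 := by
    rw [hcS, hD]
    push_cast
    rw [← Finset.prod_pow]
    apply Finset.prod_le_prod
    · intro l _; positivity
    · intro l hl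
      have h1 : (S l).card ≤ l ^ 4 := (Finset.card_le_card (hS l hl)).trans (card_Gl_le n l)
      exact_mod_cast h1
  have hfin : |∑ c ∈ Ss, ((NrP n M v T c).card : ℝ) - ((Ss.card : ℝ) / Gs.card) * (∑ c ∈ Gs, ((NrP n M v T c).card : ℝ))| ≤
      C * (M : ℝ) ^ 11 * ((∏ l ∈ T, l : ℕ) : ℝ) ^ 15 * (n : ℝ) ^ (19 / 20 : ℝ) := by
    rw [e1, abs_mul, abs_of_pos (by positivity), ← hD]
    calc 1 / (Gs.card : ℝ) * |∑ c ∈ Ss, ∑ c' ∈ Gs, (((NrP n M v T c).card : ℝ) - (NrP n M v T c').card)|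
        ≤ 1 / (Gs.card : ℝ) * (Ss.card * (Gs.card * E)) := by gcongr
      _ = Ss.card * E := by field_simp
      _ ≤ (D : ℝ) ^ 4 * E := by gcongr
      _ = _ := by
        rw [hE]
        push_cast
        ring
  rw [← hsumS, ← hsumG] at hfin
  convert hfin using 3

end Pool.Agent.X9.SQ
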