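import Pool.Agent.X9.SQ.SieveO
import Pool.Agent.X9.SQ.PrimG

/-!
# The pure sieve for representations with nonnegative coordinates: arbitrary bad residues
-/

set_option autoImplicit false
open Finset

namespace Pool.Agent.X9.SQ
open Pool.Agent.W65.FS Pool.Agent.TH696.FA

/-- vectors outside the bad residues have no bad rotation -/
lemma not_badP (n l : ℕ) (P Q N P' Q' N' a a' : ℤ) (hN : N ^ 2 ≠ 0) (hN' : N' ^ 2 ≠ 0)
    (ha : (l : ℤ) ∣ a * N ^ 2 - 1) (ha' : (l : ℤ) ∣ a' * N' ^ 2 - 1)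
    (B : (Fin 4 → ℤ) → Prop) (hB : ∀ X Y : Fin 4 → ℤ, (∀ i, (l : ℤ) ∣ X i - Y i) → B X → B Y)
    (X : Fin 4 → ℤ) (hXG : red l X ∈ Gl n l)
    (h0 : N ^ 2 ∣ X 0) (h1 : N ^ 2 ∣ X 1) (h2 : N' ^ 2 ∣ X 2) (h3 : N' ^ 2 ∣ X 3)
    (hXS : red l X ∉ SB n l P Q N P' Q' N' a a' B) (k : Fin 5 × Fin 5) : ¬ B (rotv P Q N P' Q' N' k X) := by
  classical
  intro hb
  have hr := red_dvd l X
  apply hXS
  unfold SB
  rw [Finset.mem_filter]
  exact ⟨hXG, k, hB _ _ (fun i => rotm_congr l P Q N P' Q' N' a a' hN hN' ha ha' X _ h0 h1 h2 h3 hr k i) hb⟩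

/-- **sieve for a class** -/
theorem sieve_orthP (ε : ℝ) (hε : 0 < ε) : ∃ C : ℝ, 0 < C ∧ ∃ δ : ℝ, 0 < δ ∧ ∃ n0 : ℕ, ∀ V : ℝ, 0 ≤ V →
    ∃ k : ℕ, (k : ℝ) ≤ 8 * V + 3 ∧ ∀ n D D0 : ℕ, n0 ≤ n → Odd n → 0 < D0 → 4 ∣ D → D ∣ D0 →
    (D0 : ℝ) ^ 71 ≤ (n : ℝ) ^ δ → ∀ u : Fin 4 → ℤ, GoodG n D u → ∀ (z : ℕ) (P : Finset ℕ),
    (∀ l ∈ P, l.Prime ∧ l ≤ z ∧ ¬ l ∣ D ∧ ¬ (l : ℤ) ∣ N1 D0 * N2 D0) →
    ∀ B : ℕ → (Fin 4 → ℤ) → Prop, (∀ l ∈ P, ∀ X Y : Fin 4 → ℤ, (∀ i, (l : ℤ) ∣ X i - Y i) → B l X → B l Y) →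
    ∀ β : ℕ → ℝ,
    (∀ l ∈ P, β l ≤ 1 / 2 ∧ 25 * ((((by classical exact (Gl n l).filter (fun c => B l c)) : Finset (Fin 4 → ℤ)).card : ℕ) : ℝ) ≤
      β l * (Gl n l).card) → ∑ l ∈ P, β l ≤ V →
    (n : ℝ) ^ (1 - ε) * (Real.exp (-(2 * V)) / 2) - C * ((z : ℝ) + 1) ^ (16 * k) * (n : ℝ) ^ (24 / 25 : ℝ) ≤
      25 * ((((by classical exact (orth n D u).filter (fun Y => ∀ l ∈ P, ¬ B l Y)) : Finset (Fin 4 → ℤ)).card : ℕ) : ℝ) := by
  classical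
  obtain ⟨C, hC, hdist⟩ := distP
  obtain ⟨δ1, hδ1, n1, hcount⟩ := class_countP ε hε
  refine ⟨C, hC, min δ1 (1 / 1100), lt_min hδ1 (by norm_num), n1, ?_⟩
  intro V hV
  obtain ⟨k, hk, hs⟩ := pure_sieve2 V hV
  refine ⟨k, hk, ?_⟩
  intro n D D0 hn hno hD0 h4 hDD hsize u hu z P hP B hBc β hβ hsum
  have hn1 : 1 ≤ n := hno.pos
  have hn0 : (0 : ℝ) < n := by exact_mod_cast hno.pos
  have hnr : (1 : ℝ) ≤ n := by exact_mod_cast hn1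
  have h40 : 4 ∣ D0 := h4.trans hDD
  have hD04 : 4 ≤ D0 := Nat.le_of_dvd hD0 h40
  have hDpos : 0 < D := Nat.pos_of_dvd_of_pos hDD hD0
  obtain ⟨PP, QQ, PP', QQ', r1, r2, hcop⟩ := rot_data D D0 hD0 h40 hDD
  obtain ⟨m1, hm1⟩ : ∃ m1 : ℕ, m1 = 41 * D0 ^ 2 + 10 * D0 + 1 := ⟨_, rfl⟩
  obtain ⟨m2, hm2⟩ : ∃ m2 : ℕ, m2 = 41 * (D0 * m1) ^ 2 + 10 * (D0 * m1) + 1 := ⟨_, rfl⟩
  have e1 : N1 D0 = (m1 : ℤ) := by rw [hm1]; unfold N1; push_cast; ring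
  have e2 : N2 D0 = (m2 : ℤ) := by
    have : N2 D0 = N1 (D0 * N1 D0) := rfl
    rw [this, e1, hm2]
    unfold N1
    push_cast
    ring
  have hm1pos : 0 < m1 := by omega
  have hm2pos : 0 < m2 := by omega
  obtain ⟨D', hD'⟩ : ∃ D' : ℕ, D' = D * m1 ^ 2 * m2 ^ 2 := ⟨_, rfl⟩
  obtain ⟨u', hu', hdv, hG⟩ := rot_engine n D h4 u hu PP QQ (N1 D0) PP' QQ' (N2 D0) r1 r2 hcop D'
    (by rw [hD', e1, e2]; push_cast; ring)
  have hD'pos : 0 < D' := by rw [hD']; positivity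
  have h4D' : 4 ∣ D' := by rw [hD']; exact (h4.mul_right _).mul_right _
  -- size of D'
  have hm1D : m1 ≤ D0 ^ 5 := by rw [hm1]; exact size_bound D0 hD04
  have hD2D : D0 * m1 ≤ D0 ^ 6 := by
    calc D0 * m1 ≤ D0 * D0 ^ 5 := Nat.mul_le_mul_left _ hm1D
      _ = D0 ^ 6 := by ring
  have hm2D : m2 ≤ D0 ^ 30 := by
    have h5 : 4 ≤ D0 * m1 := by
      calc 4 = 4 * 1 := by norm_num
        _ ≤ D0 * m1 := Nat.mul_le_mul hD04 hm1pos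
    calc m2 ≤ (D0 * m1) ^ 5 := by rw [hm2]; exact size_bound _ h5
      _ ≤ (D0 ^ 6) ^ 5 := Nat.pow_le_pow_left hD2D 5
      _ = D0 ^ 30 := by ring
  have hD'D : D' ≤ D0 ^ 71 := by
    calc D' ≤ D0 * (D0 ^ 5) ^ 2 * (D0 ^ 30) ^ 2 := by
          rw [hD']
          exact Nat.mul_le_mul (Nat.mul_le_mul (Nat.le_of_dvd hD0 hDD) (Nat.pow_le_pow_left hm1D 2)) (Nat.pow_le_pow_left hm2D 2)
      _ = D0 ^ 71 := by ring
  have hD'n : (D' : ℝ) ≤ (n : ℝ) ^ (min δ1 (1 / 1100) : ℝ) := by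
    refine le_trans ?_ hsize
    exact_mod_cast hD'D
  have hD'1 : (D' : ℝ) ≤ (n : ℝ) ^ δ1 :=
    hD'n.trans (Real.rpow_le_rpow_of_exponent_le hnr (min_le_left _ _))
  have hD'2 : (D' : ℝ) ^ 11 ≤ (n : ℝ) ^ (1 / 100 : ℝ) := by
    calc (D' : ℝ) ^ 11 ≤ ((n : ℝ) ^ (1 / 1100 : ℝ)) ^ 11 := by
          have := hD'n.trans (Real.rpow_le_rpow_of_exponent_le hnr (min_le_right δ1 (1 / 1100)))
          gcongr
      _ = (n : ℝ) ^ (1 / 100 : ℝ) := by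
          rw [← Real.rpow_natCast, ← Real.rpow_mul hn0.le]
          norm_num
  have hmass := hcount n D' hn hno hD'pos h4D' hD'1 u' hu'
  -- primes
  have hl2 : ∀ l ∈ P, l ≠ 2 := by
    intro l hl h
    apply (hP l hl).2.2.1
    rw [h]
    exact (by norm_num : 2 ∣ 4).trans h4
  have hlN1 : ∀ l ∈ P, ¬ (l : ℤ) ∣ N1 D0 := fun l hl h => (hP l hl).2.2.2 (h.mul_right _)
  have hlN2 : ∀ l ∈ P, ¬ (l : ℤ) ∣ N2 D0 := fun l hl h => (hP l hl).2.2.2 (h.mul_left _)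
  have hlD' : ∀ l ∈ P, ¬ l ∣ D' := by
    intro l hl h
    have hp := (hP l hl).1
    rw [hD'] at h
    rcases hp.dvd_mul.1 h with h | h
    · rcases hp.dvd_mul.1 h with h | h
      · exact (hP l hl).2.2.1 h
      · apply hlN1 l hl
        rw [e1]
        exact_mod_cast hp.dvd_of_dvd_pow h
    · apply hlN2 l hl
      rw [e2]
      exact_mod_cast hp.dvd_of_dvd_pow h
  have hinv : ∀ l : ℕ, ∃ a a' : ℤ, l ∈ P → (l : ℤ) ∣ a * N1 D0 ^ 2 - 1 ∧ (l : ℤ) ∣ a' * N2 D0 ^ 2 - 1 := by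
    intro l
    by_cases hl : l ∈ P
    · obtain ⟨a, ha⟩ := inv_sq l (hP l hl).1 _ (hlN1 l hl)
      obtain ⟨a', ha'⟩ := inv_sq l (hP l hl).1 _ (hlN2 l hl)
      exact ⟨a, a', fun _ => ⟨ha, ha'⟩⟩
    · exact ⟨0, 0, fun h => absurd h hl⟩
  choose a a' haa using hinv
  obtain ⟨S, hS⟩ : ∃ S : ℕ → Finset (Fin 4 → ℤ), ∀ l, S l = SB n l PP QQ (N1 D0) PP' QQ' (N2 D0) (a l) (a' l) (B l) :=
    ⟨_, fun _ => rfl⟩
  have hGpos : ∀ l ∈ P, (0 : ℝ) < (Gl n l).card := by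
    intro l hl
    have h1 := count_lower l (hP l hl).1 (hl2 l hl) n
    have h2 : (2 : ℝ) ≤ l := by exact_mod_cast (hP l hl).1.two_le
    have h3 : (0 : ℝ) < (l : ℝ) ^ 3 - l := by nlinarith [mul_pos (show (0:ℝ) < l by linarith) (show (0:ℝ) < l by linarith)]
    linarith
  have hScard : ∀ l ∈ P, ((S l).card : ℝ) / (Gl n l).card ≤ β l := by
    intro l hl
    have h1 := card_SB n l (hP l hl).1.pos PP QQ (N1 D0) PP' QQ' (N2 D0) (a l) (a' l) r1.sq r2.sq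
      (haa l hl).1 (haa l hl).2 (B l) (hBc l hl)
    rw [← hS] at h1
    rw [div_le_iff₀ (hGpos l hl)]
    refine le_trans ?_ (hβ l hl).2
    exact_mod_cast h1
  have hSsub : ∀ l ∈ P, S l ⊆ Gl n l := by
    intro l _
    rw [hS]
    unfold SB
    exact Finset.filter_subset _ _
  have hPcard : (P.card : ℝ) ≤ z := by
    have h2 : P ⊆ Finset.Icc 1 z := fun l hl => Finset.mem_Icc.2 ⟨(hP l hl).1.pos, (hP l hl).2.1⟩
    have h3 := Finset.card_le_card h2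
    rw [Nat.card_Icc] at h3
    exact_mod_cast (by omega : P.card ≤ z)
  -- the sieve
  have hmain := hs (prc n D' u') P (fun l X => red l X ∈ S l) (fun _ _ => True)
    (fun l => ((S l).card : ℝ) / (Gl n l).card)
    (fun l hl => ⟨by positivity, (hScard l hl).trans (hβ l hl).1⟩)
    ((Finset.sum_le_sum hScard).trans hsum)
    (C * (D' : ℝ) ^ 11 * (((z : ℝ) + 1) ^ k) ^ 15 * (n : ℝ) ^ (19 / 20 : ℝ))
    (fun T hT hTk => by
      have h1 := hdist n D' hn1 hD'pos h4D' u' hu' T (fun l hl => ⟨(hP l (hT hl)).1, hlD' l (hT hl)⟩) S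
        (fun l hl => hSsub l (hT hl))
      have h2 : ((∏ l ∈ T, l : ℕ) : ℝ) ≤ ((z : ℝ) + 1) ^ k := by
        push_cast
        calc ∏ l ∈ T, (l : ℝ) ≤ ∏ l ∈ T, ((z : ℝ) + 1) := by
              apply Finset.prod_le_prod
              · intro l _; positivity
              · intro l hl
                have : (l : ℝ) ≤ z := by exact_mod_cast (hP l (hT hl)).2.1
                linarith
          _ = ((z : ℝ) + 1) ^ T.card := by rw [Finset.prod_const]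
          _ ≤ ((z : ℝ) + 1) ^ k := by
              apply pow_le_pow_right₀ _ hTk
              have : (0 : ℝ) ≤ z := Nat.cast_nonneg z
              linarith
      have h3 : C * (D' : ℝ) ^ 11 * ((∏ l ∈ T, l : ℕ) : ℝ) ^ 15 * (n : ℝ) ^ (19 / 20 : ℝ) ≤
          C * (D' : ℝ) ^ 11 * (((z : ℝ) + 1) ^ k) ^ 15 * (n : ℝ) ^ (19 / 20 : ℝ) := by gcongr
      have e : ∀ (inst : DecidablePred (fun X : Fin 4 → ℤ => ∀ l ∈ T, True)),
          (@Finset.filter _ (fun X : Fin 4 → ℤ => ∀ l ∈ T, True) inst (prc n D' u')) = prc n D' u' := by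
        intro inst
        ext X
        simp
      rw [e]
      exact le_trans (le_of_eq (by congr!)) (le_trans h1 h3))
  -- from the sifted set to the orthant
  have hGo := hG (fun Y => ∀ l ∈ P, ¬ B l Y)
  have hsub : ((prc n D' u').filter (fun X => ∀ l ∈ P, ¬ red l X ∈ S l)).card ≤
      ((repsc n D' u').filter (fun X => ∀ k, ∀ l ∈ P, ¬ B l (rotv PP QQ (N1 D0) PP' QQ' (N2 D0) k X))).card := by
    apply Finset.card_le_card
    intro X hX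
    rw [Finset.mem_filter] at hX ⊢
    have hXr : X ∈ repsc n D' u' := by
      have := hX.1
      unfold prc at this
      exact (Finset.mem_filter.1 this).1
    refine ⟨hXr, fun k l hl => ?_⟩
    obtain ⟨d0, d1, d2, d3⟩ := hdv X hXr
    have hXS := hX.2 l hl
    rw [hS] at hXS
    exact not_badP n l PP QQ (N1 D0) PP' QQ' (N2 D0) (a l) (a' l) (by have := r1.hN; positivity) (by have := r2.hN; positivity)
      (haa l hl).1 (haa l hl).2 (B l) (hBc l hl) X (prc_Gl n D' u' l (hP l hl).1 X hX.1) d0 d1 d2 d3 hXS k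
  have hGo' : ((repsc n D' u').filter (fun X => ∀ k, ∀ l ∈ P, ¬ B l (rotv PP QQ (N1 D0) PP' QQ' (N2 D0) k X))).card ≤
        25 * ((orth n D u).filter (fun Y => ∀ l ∈ P, ¬ B l Y)).card := by
    convert hGo
  have hfin : ((((prc n D' u').filter (fun X => ∀ l ∈ P, ¬ red l X ∈ S l)).card : ℕ) : ℝ) ≤
      25 * ((((orth n D u).filter (fun Y => ∀ l ∈ P, ¬ B l Y)).card : ℕ) : ℝ) := by
    have h1 : ((prc n D' u').filter (fun X => ∀ l ∈ P, ¬ red l X ∈ S l)).card ≤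
        25 * ((orth n D u).filter (fun Y => ∀ l ∈ P, ¬ B l Y)).card := hsub.trans hGo'
    exact_mod_cast h1
  have hfin2 : ((prc n D' u').card : ℝ) * (Real.exp (-(2 * V)) / 2) - ((P.card : ℝ) + 1) ^ k *
      (C * (D' : ℝ) ^ 11 * (((z : ℝ) + 1) ^ k) ^ 15 * (n : ℝ) ^ (19 / 20 : ℝ)) ≤
      25 * ((((orth n D u).filter (fun Y => ∀ l ∈ P, ¬ B l Y)).card : ℕ) : ℝ) := by
    refine le_trans hmain (le_trans (le_of_eq ?_) hfin)
    congr!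
  have hz0 : (0 : ℝ) ≤ z := Nat.cast_nonneg z
  have hA : (n : ℝ) ^ (1 - ε) * (Real.exp (-(2 * V)) / 2) ≤ ((prc n D' u').card : ℝ) * (Real.exp (-(2 * V)) / 2) := by
    apply mul_le_mul_of_nonneg_right hmass
    positivity
  have hE : ((P.card : ℝ) + 1) ^ k * (C * (D' : ℝ) ^ 11 * (((z : ℝ) + 1) ^ k) ^ 15 * (n : ℝ) ^ (19 / 20 : ℝ)) ≤
      C * ((z : ℝ) + 1) ^ (16 * k) * (n : ℝ) ^ (24 / 25 : ℝ) := by
    calc ((P.card : ℝ) + 1) ^ k * (C * (D' : ℝ) ^ 11 * (((z : ℝ) + 1) ^ k) ^ 15 * (n : ℝ) ^ (19 / 20 : ℝ))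
        ≤ ((z : ℝ) + 1) ^ k * (C * (n : ℝ) ^ (1 / 100 : ℝ) * (((z : ℝ) + 1) ^ k) ^ 15 * (n : ℝ) ^ (19 / 20 : ℝ)) := by
          gcongr
      _ = C * ((z : ℝ) + 1) ^ (16 * k) * ((n : ℝ) ^ (1 / 100 : ℝ) * (n : ℝ) ^ (19 / 20 : ℝ)) := by
          rw [← pow_mul]
          have : ((z : ℝ) + 1) ^ (16 * k) = ((z : ℝ) + 1) ^ k * ((z : ℝ) + 1) ^ (k * 15) := by
            rw [← pow_add]; congr 1; ring
          rw [this]; ring
      _ = C * ((z : ℝ) + 1) ^ (16 * k) * (n : ℝ) ^ (24 / 25 : ℝ) := by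
          rw [← Real.rpow_add hn0]
          norm_num
  have hgoal : (n : ℝ) ^ (1 - ε) * (Real.exp (-(2 * V)) / 2) - C * ((z : ℝ) + 1) ^ (16 * k) * (n : ℝ) ^ (24 / 25 : ℝ) ≤
      25 * ((((orth n D u).filter (fun Y => ∀ l ∈ P, ¬ B l Y)).card : ℕ) : ℝ) := by linarith
  convert hgoal

end Pool.Agent.X9.SQ
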