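import Pool.Agent.X9.SQ.Ord2
import Pool.Agent.X9.SQ.SieveP

/-!
# The bad residues modulo `l` for the numbers `2 ^ x + 2 ^ y + 2 ^ z + 1`
-/

set_option autoImplicit false
open Finset

namespace Pool.Agent.X9.SQ
open Pool.Agent.W65.FS Pool.Agent.TH696.FA

/-- `q` divides a number `2 ^ x + 2 ^ y + 2 ^ z + 1` of the class `u` modulo `D` and `Y` modulo `l` -/
def BqF (D : ℕ) (u : Fin 4 → ℤ) (l q : ℕ) (Y : Fin 4 → ℤ) : Prop :=
  ∃ x y z : ℕ, (D : ℤ) ∣ x - u 0 ∧ (D : ℤ) ∣ y - u 1 ∧ (D : ℤ) ∣ z - u 2 ∧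
    (l : ℤ) ∣ Y 0 - x ∧ (l : ℤ) ∣ Y 1 - y ∧ (l : ℤ) ∣ Y 2 - z ∧ q ∣ 2 ^ x + 2 ^ y + 2 ^ z + 1

lemma BqF_congr (D : ℕ) (u : Fin 4 → ℤ) (l q : ℕ) (X Y : Fin 4 → ℤ) (h : ∀ i, (l : ℤ) ∣ X i - Y i)
    (hX : BqF D u l q X) : BqF D u l q Y := by
  obtain ⟨x, y, z, h1, h2, h3, h4, h5, h6, h7⟩ := hX
  refine ⟨x, y, z, h1, h2, h3, ?_, ?_, ?_, h7⟩
  · have e : Y 0 - x = (X 0 - x) - (X 0 - Y 0) := by ring
    rw [e]
    exact dvd_sub h4 (h 0)
  · have e : Y 1 - y = (X 1 - y) - (X 1 - Y 1) := by ring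
    rw [e]
    exact dvd_sub h5 (h 1)
  · have e : Y 2 - z = (X 2 - z) - (X 2 - Y 2) := by ring
    rw [e]
    exact dvd_sub h6 (h 2)

/-- for given first two coordinates the third one is determined modulo `l` -/
lemma BqF_det (D : ℕ) (u : Fin 4 → ℤ) (l q : ℕ) (hq : q.Prime) (hq2 : q ≠ 2) (hlo : l ∣ orderOf (2 : ZMod q))
    (hd : orderOf (2 : ZMod q) ∣ D * l) (hcop : Nat.Coprime l D) (X Y : Fin 4 → ℤ)
    (h0 : (l : ℤ) ∣ X 0 - Y 0) (h1 : (l : ℤ) ∣ X 1 - Y 1) (hX : BqF D u l q X) (hY : BqF D u l q Y) :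
    (l : ℤ) ∣ X 2 - Y 2 := by
  obtain ⟨x, y, z, a1, a2, a3, a4, a5, a6, a7⟩ := hX
  obtain ⟨x', y', z', b1, b2, b3, b4, b5, b6, b7⟩ := hY
  have : Fact q.Prime := ⟨hq⟩
  have hlD : IsCoprime (D : ℤ) (l : ℤ) := Nat.isCoprime_iff_coprime.2 hcop.symm
  have hDl : (2 : ZMod q) ^ (D * l) = 1 := orderOf_dvd_iff_pow_eq_one.1 hd
  have ex : (2 : ZMod q) ^ x = 2 ^ x' := by
    apply pow_eq_of_dvd q (D * l) x x' hDl
    push_cast
    apply IsCoprime.mul_dvd hlD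
    · have e : (x : ℤ) - x' = (x - u 0) - (x' - u 0) := by ring
      rw [e]; exact dvd_sub a1 b1
    · have e : (x : ℤ) - x' = (X 0 - Y 0) - (X 0 - x) + (Y 0 - x') := by ring
      rw [e]; exact dvd_add (dvd_sub h0 a4) b4
  have ey : (2 : ZMod q) ^ y = 2 ^ y' := by
    apply pow_eq_of_dvd q (D * l) y y' hDl
    push_cast
    apply IsCoprime.mul_dvd hlD
    · have e : (y : ℤ) - y' = (y - u 1) - (y' - u 1) := by ring
      rw [e]; exact dvd_sub a2 b2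
    · have e : (y : ℤ) - y' = (X 1 - Y 1) - (X 1 - y) + (Y 1 - y') := by ring
      rw [e]; exact dvd_add (dvd_sub h1 a5) b5
  have c1 : (2 : ZMod q) ^ x + 2 ^ y + 2 ^ z + 1 = 0 := by
    have h : ((2 ^ x + 2 ^ y + 2 ^ z + 1 : ℕ) : ZMod q) = 0 := (ZMod.natCast_eq_zero_iff _ _).2 a7
    push_cast at h
    exact h
  have c2 : (2 : ZMod q) ^ x' + 2 ^ y' + 2 ^ z' + 1 = 0 := by
    have h : ((2 ^ x' + 2 ^ y' + 2 ^ z' + 1 : ℕ) : ZMod q) = 0 := (ZMod.natCast_eq_zero_iff _ _).2 b7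
    push_cast at h
    exact h
  have h8 : (2 : ZMod q) ^ z = 2 ^ z' := by
    rw [ex, ey] at c1
    linear_combination c1 - c2
  have hfin : IsOfFinOrder (2 : ZMod q) := by
    have h20 : (2 : ZMod q) ≠ 0 := by
      intro h
      have h3 : ((2 : ℕ) : ZMod q) = 0 := by exact_mod_cast h
      rw [ZMod.natCast_eq_zero_iff] at h3
      exact hq2 ((Nat.prime_dvd_prime_iff_eq hq Nat.prime_two).1 h3)
    rw [isOfFinOrder_iff_pow_eq_one]
    exact ⟨q - 1, by have := hq.two_le; omega, ZMod.pow_card_sub_one_eq_one h20⟩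
  have h9 : z ≡ z' [MOD orderOf (2 : ZMod q)] := by
    have h20u : IsUnit (2 : ZMod q) := hfin.isUnit
    obtain ⟨w, hw⟩ := h20u
    rw [← hw] at h8 ⊢
    rw [orderOf_units]
    rw [← Units.val_pow_eq_pow_val, ← Units.val_pow_eq_pow_val] at h8
    exact pow_eq_pow_iff_modEq.1 (Units.ext h8)
  have h10 : z ≡ z' [MOD l] := h9.of_dvd hlo
  have h11 : (l : ℤ) ∣ (z : ℤ) - z' := by
    have := (Nat.modEq_iff_dvd).1 h10.symm
    exact this
  have e : X 2 - Y 2 = (X 2 - z) - (Y 2 - z') + (z - z') := by ring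
  rw [e]
  exact dvd_add (dvd_sub a6 b6) h11

/-- a set of residues of norm `n` for which the first two coordinates determine the third -/
lemma card_detF (n l : ℕ) (hl : l.Prime) (S : Finset (Fin 4 → ℤ)) (hS : S ⊆ Gl n l)
    (hdet : ∀ X ∈ S, ∀ Y ∈ S, X 0 = Y 0 → X 1 = Y 1 → (l : ℤ) ∣ X 2 - Y 2) : S.card ≤ 2 * l ^ 2 := by
  classical
  have hlz : (0 : ℤ) < l := by exact_mod_cast hl.pos
  have hlp : Prime (l : ℤ) := Nat.prime_iff_prime_int.1 hl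
  have h1 : (S.image (fun X => (X 0, X 1))).card ≤ l ^ 2 := by
    have h2 : S.image (fun X => (X 0, X 1)) ⊆ (Finset.Ico (0 : ℤ) l) ×ˢ (Finset.Ico (0 : ℤ) l) := by
      intro p hp
      rw [Finset.mem_image] at hp
      obtain ⟨X, hX, rfl⟩ := hp
      have := ((mem_Gl n l X).1 (hS hX)).1
      rw [Finset.mem_product, Finset.mem_Ico, Finset.mem_Ico]
      exact ⟨this 0, this 1⟩
    refine (Finset.card_le_card h2).trans ?_
    rw [Finset.card_product, Int.card_Ico]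
    simp [pow_two]
  have h2 : S.card ≤ 2 * (S.image (fun X => (X 0, X 1))).card := by
    apply Finset.card_le_mul_card_image
    intro p hp
    rw [Finset.mem_image] at hp
    obtain ⟨X, hX, hXp⟩ := hp
    have h3 : S.filter (fun Y => (Y 0, Y 1) = p) ⊆ {![X 0, X 1, X 2, X 3], ![X 0, X 1, X 2, (-X 3) % l]} := by
      intro Y hY
      rw [Finset.mem_filter] at hY
      obtain ⟨hYS, hYp⟩ := hY
      rw [← hXp] at hYp
      simp only [Prod.mk.injEq] at hYp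
      obtain ⟨y0, y1⟩ := hYp
      have hd := hdet Y hYS X hX y0 y1
      have gX := (mem_Gl n l X).1 (hS hX)
      have gY := (mem_Gl n l Y).1 (hS hYS)
      have eqm : ∀ a b : ℤ, 0 ≤ a ∧ a < l → 0 ≤ b ∧ b < l → (l : ℤ) ∣ a - b → a = b := by
        intro a b ha hb hab
        obtain ⟨t, ht⟩ := hab
        have t0 : t = 0 := by
          by_contra hne
          rcases lt_or_gt_of_ne hne with h | h
          · have : (l : ℤ) * t ≤ -l := by nlinarith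
            omega
          · have : (l : ℤ) ≤ l * t := by nlinarith
            omega
        rw [t0, mul_zero] at ht
        omega
      have y2 : Y 2 = X 2 := eqm _ _ (gY.1 2) (gX.1 2) hd
      have e1 : (l : ℤ) ∣ Y 3 ^ 2 - X 3 ^ 2 := by
        have := dvd_sub gY.2.1 gX.2.1
        rw [Fin.sum_univ_four, Fin.sum_univ_four, y0, y1, y2] at this
        have e : Y 3 ^ 2 - X 3 ^ 2 =
          X 0 ^ 2 + X 1 ^ 2 + X 2 ^ 2 + Y 3 ^ 2 - n - (X 0 ^ 2 + X 1 ^ 2 + X 2 ^ 2 + X 3 ^ 2 - n) := by ring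
        rw [e]
        exact this
      have e2 : (l : ℤ) ∣ (Y 3 - X 3) * (Y 3 + X 3) := by
        have e : (Y 3 - X 3) * (Y 3 + X 3) = Y 3 ^ 2 - X 3 ^ 2 := by ring
        rw [e]
        exact e1
      rw [Finset.mem_insert, Finset.mem_singleton]
      rcases hlp.dvd_or_dvd e2 with h | h
      · left
        have y3 := eqm _ _ (gY.1 3) (gX.1 3) h
        funext i
        fin_cases i
        · exact y0
        · exact y1
        · exact y2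
        · exact y3
      · right
        have y3 : Y 3 = (-X 3) % l := by
          apply eqm _ _ (gY.1 3) ⟨Int.emod_nonneg _ hlz.ne', Int.emod_lt_of_pos _ hlz⟩
          have h5 : (l : ℤ) ∣ (-X 3) - (-X 3) % l := Int.dvd_self_sub_emod
          have e : Y 3 - (-X 3) % l = (Y 3 + X 3) + ((-X 3) - (-X 3) % l) := by ring
          rw [e]
          exact dvd_add h h5
        funext i
        fin_cases i
        · exact y0
        · exact y1
        · exact y2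
        · exact y3
    exact (Finset.card_le_card h3).trans Finset.card_le_two
  calc S.card ≤ 2 * (S.image (fun X => (X 0, X 1))).card := h2
    _ ≤ 2 * l ^ 2 := Nat.mul_le_mul_left _ h1

/-- the bad residues modulo `l` -/
def BBF (D : ℕ) (u : Fin 4 → ℤ) (l : ℕ) (Q : Finset ℕ) (Y : Fin 4 → ℤ) : Prop :=
  ∃ q ∈ Q, q.Prime ∧ q ≠ 2 ∧ l ∣ orderOf (2 : ZMod q) ∧ orderOf (2 : ZMod q) ∣ D * l ∧ BqF D u l q Y

lemma BBF_congr (D : ℕ) (u : Fin 4 → ℤ) (l : ℕ) (Q : Finset ℕ) (X Y : Fin 4 → ℤ) (h : ∀ i, (l : ℤ) ∣ X i - Y i)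
    (hX : BBF D u l Q X) : BBF D u l Q Y := by
  obtain ⟨q, h1, h2, h3, h4, h5, h6⟩ := hX
  exact ⟨q, h1, h2, h3, h4, h5, BqF_congr D u l q X Y h h6⟩

lemma card_BBF (n D : ℕ) (u : Fin 4 → ℤ) (l : ℕ) (Q : Finset ℕ) (hl : l.Prime) (hcop : Nat.Coprime l D) :
    ((by classical exact (Gl n l).filter (fun c => BBF D u l Q c)) : Finset (Fin 4 → ℤ)).card ≤
      (Q.filter (fun q => q.Prime ∧ q ≠ 2 ∧ l ∣ orderOf (2 : ZMod q))).card * (2 * l ^ 2) := by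
  classical
  have h1 : (Gl n l).filter (fun c => BBF D u l Q c) ⊆
      (Q.filter (fun q => q.Prime ∧ q ≠ 2 ∧ l ∣ orderOf (2 : ZMod q))).biUnion
        (fun q => (Gl n l).filter (fun c => orderOf (2 : ZMod q) ∣ D * l ∧ BqF D u l q c)) := by
    intro c hc
    rw [Finset.mem_filter] at hc
    obtain ⟨hc1, q, h1, h2, h3, h4, h5, h6⟩ := hc
    rw [Finset.mem_biUnion]
    exact ⟨q, Finset.mem_filter.2 ⟨h1, h2, h3, h4⟩, Finset.mem_filter.2 ⟨hc1, h5, h6⟩⟩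
  refine (Finset.card_le_card (le_trans (le_of_eq (by congr!)) h1)).trans (Finset.card_biUnion_le.trans ?_)
  rw [← smul_eq_mul]
  apply Finset.sum_le_card_nsmul
  intro q hq
  rw [Finset.mem_filter] at hq
  obtain ⟨_, hq1, hq2, hq3⟩ := hq
  apply card_detF n l hl _ (Finset.filter_subset _ _)
  intro X hX Y hY h0 h1
  rw [Finset.mem_filter] at hX hY
  apply BqF_det D u l q hq1 hq2 hq3 hX.2.1 hcop X Y _ _ hX.2.2 hY.2.2
  · rw [h0, sub_self]
    exact dvd_zero _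
  · rw [h1, sub_self]
    exact dvd_zero _

/-- the density of the bad residues -/
lemma densF (n D : ℕ) (u : Fin 4 → ℤ) (l : ℕ) (Q : Finset ℕ) (hl : l.Prime) (hl2 : l ≠ 2) (hcop : Nat.Coprime l D) (b : ℝ)
    (h : 50 * ((Q.filter (fun q => q.Prime ∧ q ≠ 2 ∧ l ∣ orderOf (2 : ZMod q))).card : ℝ) * (l : ℝ) ^ 2 ≤
      b * ((l : ℝ) ^ 3 - l)) :
    25 * ((((by classical exact (Gl n l).filter (fun c => BBF D u l Q c)) : Finset (Fin 4 → ℤ)).card : ℕ) : ℝ) ≤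
      b * (Gl n l).card := by
  classical
  have h1 := card_BBF n D u l Q hl hcop
  have h2 : ((((by classical exact (Gl n l).filter (fun c => BBF D u l Q c)) : Finset (Fin 4 → ℤ)).card : ℕ) : ℝ) ≤
      ((Q.filter (fun q => q.Prime ∧ q ≠ 2 ∧ l ∣ orderOf (2 : ZMod q))).card : ℝ) * (2 * (l : ℝ) ^ 2) := by
    exact_mod_cast h1
  have h3 := count_lower l hl hl2 n
  have h5 : (2 : ℝ) ≤ l := by exact_mod_cast hl.two_le
  have h6 : (0 : ℝ) < (l : ℝ) ^ 3 - l := by nlinarith [mul_pos (show (0:ℝ) < l by linarith) (show (0:ℝ) < l by linarith)]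
  have h8 : (0 : ℝ) ≤ 50 * ((Q.filter (fun q => q.Prime ∧ q ≠ 2 ∧ l ∣ orderOf (2 : ZMod q))).card : ℝ) * (l : ℝ) ^ 2 := by positivity
  have hb0 : 0 ≤ b := by
    by_contra hneg
    push Not at hneg
    have h7 : b * ((l : ℝ) ^ 3 - l) < 0 := mul_neg_of_neg_of_pos hneg h6
    linarith
  have h9 : b * ((l : ℝ) ^ 3 - l) ≤ b * (Gl n l).card := mul_le_mul_of_nonneg_left h3 hb0
  refine le_trans ?_ (h.trans h9)
  have h10 := mul_le_mul_of_nonneg_left h2 (show (0 : ℝ) ≤ 25 by norm_num)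
  refine h10.trans (le_of_eq ?_)
  ring

/-- from integer vectors to quadruples of natural numbers, with half of the last coordinate -/
lemma to_natF (n D : ℕ) (h2 : 2 ∣ D) (u : Fin 4 → ℤ) (hu3 : (2 : ℤ) ∣ u 3) (G : (Fin 4 → ℤ) → Prop) :
    ∃ S : Finset (ℕ × ℕ × ℕ × ℕ),
    S.card = ((by classical exact (orth n D u).filter (fun Y => G Y)) : Finset (Fin 4 → ℤ)).card ∧
    ∀ x y z w : ℕ, (x, y, z, w) ∈ S → ∃ X : Fin 4 → ℤ, X 0 = x ∧ X 1 = y ∧ X 2 = z ∧ X 3 = 2 * w ∧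
      X ∈ orth n D u ∧ G X := by
  classical
  have h2D : (2 : ℤ) ∣ (D : ℤ) := by exact_mod_cast h2
  refine ⟨((orth n D u).filter (fun Y => G Y)).image (fun X => ((X 0).toNat, (X 1).toNat, (X 2).toNat, (X 3).toNat / 2)), ?_, ?_⟩
  · rw [Finset.card_image_of_injOn]
    · intro X hX Y hY hXY
      rw [Finset.mem_coe, Finset.mem_filter, mem_orth] at hX hY
      simp only [Prod.mk.injEq] at hXY
      obtain ⟨e0, e1, e2, e3⟩ := hXY
      have g := hX.1.2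
      have g' := hY.1.2
      have k3 := h2D.trans (hX.1.1.2 3)
      have k3' := h2D.trans (hY.1.1.2 3)
      funext i
      fin_cases i
      · have a1 := g 0; have a2 := g' 0
        show X 0 = Y 0
        omega
      · have a1 := g 1; have a2 := g' 1
        show X 1 = Y 1
        omega
      · have a1 := g 2; have a2 := g' 2
        show X 2 = Y 2
        omega
      · have a1 := g 3; have a2 := g' 3
        show X 3 = Y 3
        omega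
  · intro x y z w hxyzw
    rw [Finset.mem_image] at hxyzw
    obtain ⟨X, hX, hXe⟩ := hxyzw
    rw [Finset.mem_filter] at hX
    obtain ⟨hXo, hG⟩ := hX
    have hpos := ((mem_orth n D u X).1 hXo).2
    have hcong := ((mem_orth n D u X).1 hXo).1.2
    have k3 := h2D.trans (hcong 3)
    simp only [Prod.mk.injEq] at hXe
    obtain ⟨e0, e1, e2, e3⟩ := hXe
    have x0 : X 0 = x := by have := hpos 0; omega
    have x1 : X 1 = y := by have := hpos 1; omega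
    have x2 : X 2 = z := by have := hpos 2; omega
    have x3 : X 3 = 2 * w := by have := hpos 3; omega
    exact ⟨X, x0, x1, x2, x3, hXo, hG⟩

/-- **the sieve for `2 ^ x + 2 ^ y + 2 ^ z + 1`** in a class -/
theorem sieveF (ε : ℝ) (hε : 0 < ε) : ∃ C : ℝ, 0 < C ∧ ∃ δ : ℝ, 0 < δ ∧ ∃ n0 : ℕ, ∀ V : ℝ, 0 ≤ V →
    ∃ k : ℕ, (k : ℝ) ≤ 8 * V + 3 ∧ ∀ n D D0 : ℕ, n0 ≤ n → Odd n → 0 < D0 → 4 ∣ D → D ∣ D0 →
    (D0 : ℝ) ^ 71 ≤ (n : ℝ) ^ δ → ∀ u : Fin 4 → ℤ, GoodG n D u → (2 : ℤ) ∣ u 3 →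
    ∀ (z : ℕ) (P : Finset ℕ) (Q : ℕ → Finset ℕ),
    (∀ l ∈ P, l.Prime ∧ l ≤ z ∧ ¬ l ∣ D ∧ ¬ (l : ℤ) ∣ N1 D0 * N2 D0) →
    ∀ β : ℕ → ℝ,
    (∀ l ∈ P, β l ≤ 1 / 2 ∧ 50 * (((Q l).filter (fun q => q.Prime ∧ q ≠ 2 ∧ l ∣ orderOf (2 : ZMod q))).card : ℝ) * (l : ℝ) ^ 2 ≤
      β l * ((l : ℝ) ^ 3 - l)) → ∑ l ∈ P, β l ≤ V →
    ∃ S : Finset (ℕ × ℕ × ℕ × ℕ),
      (n : ℝ) ^ (1 - ε) * (Real.exp (-(2 * V)) / 2) - C * ((z : ℝ) + 1) ^ (16 * k) * (n : ℝ) ^ (24 / 25 : ℝ) ≤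
        25 * (S.card : ℝ) ∧
      ∀ x y z w : ℕ, (x, y, z, w) ∈ S → n = x ^ 2 + y ^ 2 + z ^ 2 + 4 * w ^ 2 ∧
        (D : ℤ) ∣ (x : ℤ) - u 0 ∧ (D : ℤ) ∣ (y : ℤ) - u 1 ∧ (D : ℤ) ∣ (z : ℤ) - u 2 ∧
        ∀ l ∈ P, ∀ q ∈ Q l, q.Prime → q ≠ 2 → l ∣ orderOf (2 : ZMod q) → orderOf (2 : ZMod q) ∣ D * l →
          ¬ q ∣ 2 ^ x + 2 ^ y + 2 ^ z + 1 := by
  classical
  obtain ⟨C, hC, δ, hδ, n1, h⟩ := sieve_orthP ε hε
  refine ⟨C, hC, δ, hδ, n1, ?_⟩
  intro V hV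
  obtain ⟨k, hk, h'⟩ := h V hV
  refine ⟨k, hk, ?_⟩
  intro n D D0 hn hno hD0 h4 hDD hsize u hu hu3 z P Q hP β hβ hsum
  have hlodd : ∀ l ∈ P, l ≠ 2 := by
    intro l hl h2
    apply (hP l hl).2.2.1
    rw [h2]
    exact (by norm_num : 2 ∣ 4).trans h4
  have hlcop : ∀ l ∈ P, Nat.Coprime l D := by
    intro l hl
    rw [Nat.Prime.coprime_iff_not_dvd (hP l hl).1]
    exact (hP l hl).2.2.1
  have hcount := h' n D D0 hn hno hD0 h4 hDD hsize u hu z P hP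
    (fun l Y => BBF D u l (Q l) Y) (fun l _ X Y => BBF_congr D u l (Q l) X Y) β
    (fun l hl => ⟨(hβ l hl).1, densF n D u l (Q l) (hP l hl).1 (hlodd l hl) (hlcop l hl) (β l) (hβ l hl).2⟩) hsum
  obtain ⟨S, hS1, hS2⟩ := to_natF n D ((by norm_num : 2 ∣ 4).trans h4) u hu3 (fun Y => ∀ l ∈ P, ¬ BBF D u l (Q l) Y)
  refine ⟨S, ?_, ?_⟩
  · rw [hS1]
    convert hcount
  · intro x y z w hxyzw
    obtain ⟨X, x0, x1, x2, x3, hXo, hnot⟩ := hS2 x y z w hxyzw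
    rw [mem_orth] at hXo
    obtain ⟨⟨hs, hcong⟩, hpos⟩ := hXo
    rw [Fin.sum_univ_four, x0, x1, x2, x3] at hs
    have c0 := hcong 0
    have c1 := hcong 1
    have c2 := hcong 2
    rw [x0] at c0
    rw [x1] at c1
    rw [x2] at c2
    refine ⟨?_, c0, c1, c2, ?_⟩
    · have : (n : ℤ) = ((x ^ 2 + y ^ 2 + z ^ 2 + 4 * w ^ 2 : ℕ) : ℤ) := by
        push_cast
        linear_combination -hs
      exact_mod_cast this
    · intro l hl q hq hqp hq2 hlq hqK hdvd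
      apply hnot l hl
      refine ⟨q, hq, hqp, hq2, hlq, hqK, x, y, z, c0, c1, c2, ?_, ?_, ?_, hdvd⟩
      · rw [x0]; simp
      · rw [x1]; simp
      · rw [x2]; simp

end Pool.Agent.X9.SQ
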