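import Mathlib

/-!
# Brun's pure sieve in abstract form
-/

set_option autoImplicit false
open Finset

namespace Pool.Agent.X9.SQ

/-- truncated alternating sum over the subsets of `A` -/
noncomputable def tr (β : ℕ → ℝ) (k : ℕ) (A : Finset ℕ) : ℝ :=
  ∑ T ∈ A.powerset, if T.card ≤ k then (-1 : ℝ) ^ T.card * ∏ l ∈ T, β l else 0

lemma tr_zero (β : ℕ → ℝ) (A : Finset ℕ) : tr β 0 A = 1 := by
  classical
  unfold tr
  rw [Finset.sum_eq_single ∅]
  · simp
  · intro T _ hT
    rw [if_neg]
    intro h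
    exact hT (Finset.card_eq_zero.1 (Nat.le_zero.1 h))
  · intro h
    exact absurd (Finset.empty_mem_powerset A) h

lemma tr_empty (β : ℕ → ℝ) (k : ℕ) : tr β k ∅ = 1 := by
  unfold tr
  simp

lemma tr_insert (β : ℕ → ℝ) (k : ℕ) (a : ℕ) (A : Finset ℕ) (ha : a ∉ A) :
    tr β (k + 1) (insert a A) = tr β (k + 1) A - β a * tr β k A := by
  classical
  unfold tr
  rw [Finset.sum_powerset_insert ha]
  have h : ∑ T ∈ A.powerset, (if (insert a T).card ≤ k + 1 then (-1 : ℝ) ^ (insert a T).card * ∏ l ∈ insert a T, β l else 0) =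
      - (β a * ∑ T ∈ A.powerset, (if T.card ≤ k then (-1 : ℝ) ^ T.card * ∏ l ∈ T, β l else 0)) := by
    rw [Finset.mul_sum, ← Finset.sum_neg_distrib]
    apply Finset.sum_congr rfl
    intro T hT
    have haT : a ∉ T := fun h => ha (Finset.mem_powerset.1 hT h)
    rw [Finset.card_insert_of_notMem haT, Finset.prod_insert haT]
    by_cases hk : T.card ≤ k
    · rw [if_pos hk, if_pos (by omega), pow_succ]
      ring
    · rw [if_neg hk, if_neg (by omega)]
      ring
  rw [h]
  ring

lemma pow_aux (V b : ℝ) (hV : 0 ≤ V) (hb : 0 ≤ b) (m : ℕ) :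
    V ^ (m + 1) + (m + 1) * b * V ^ m ≤ (V + b) ^ (m + 1) := by
  induction m with
  | zero => simp
  | succ m ih =>
    have h1 : (V + b) * (V ^ (m + 1) + (m + 1) * b * V ^ m) ≤ (V + b) * (V + b) ^ (m + 1) :=
      mul_le_mul_of_nonneg_left ih (by positivity)
    have h2 : (V + b) ^ (m + 1 + 1) = (V + b) * (V + b) ^ (m + 1) := by ring
    have h3 : (V + b) * (V ^ (m + 1) + (m + 1) * b * V ^ m) =
        V ^ (m + 1 + 1) + ((m : ℝ) + 2) * b * V ^ (m + 1) + (m + 1) * b ^ 2 * V ^ m := by ring
    have h4 : (0 : ℝ) ≤ (m + 1) * b ^ 2 * V ^ m := by positivity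
    rw [h2]
    push_cast
    have h5 : V ^ (m + 1 + 1) + ((m : ℝ) + 1 + 1) * b * V ^ (m + 1) =
        V ^ (m + 1 + 1) + ((m : ℝ) + 2) * b * V ^ (m + 1) := by ring
    linarith

lemma tr_bounds (β : ℕ → ℝ) (A : Finset ℕ) (h : ∀ l ∈ A, 0 ≤ β l ∧ β l ≤ 1) : ∀ k : ℕ,
    0 ≤ (-1 : ℝ) ^ k * (tr β k A - ∏ l ∈ A, (1 - β l)) ∧
    (-1 : ℝ) ^ k * (tr β k A - ∏ l ∈ A, (1 - β l)) ≤ (∑ l ∈ A, β l) ^ (k + 1) / (k + 1).factorial := by
  classical
  induction A using Finset.induction_on with
  | empty =>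
    intro k
    rw [tr_empty]
    simp
  | insert a A ha ih =>
    have hA : ∀ l ∈ A, 0 ≤ β l ∧ β l ≤ 1 := fun l hl => h l (Finset.mem_insert_of_mem hl)
    have ih' := ih hA
    have hb := h a (Finset.mem_insert_self a A)
    set V := ∑ l ∈ A, β l with hV
    set W := ∏ l ∈ A, (1 - β l) with hW
    have hV0 : 0 ≤ V := Finset.sum_nonneg fun l hl => (hA l hl).1
    have hW0 : 0 ≤ W := Finset.prod_nonneg fun l hl => by linarith [(hA l hl).2]
    have hW1 : W ≤ 1 := Finset.prod_le_one (fun l hl => by linarith [(hA l hl).2]) (fun l hl => by linarith [(hA l hl).1])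
    intro k
    rw [Finset.prod_insert ha, Finset.sum_insert ha]
    cases k with
    | zero =>
      rw [tr_zero]
      have h0 := ih' 0
      rw [tr_zero] at h0
      simp only [pow_zero, one_mul, zero_add, pow_one, Nat.factorial_one, Nat.cast_one, div_one] at h0 ⊢
      constructor
      · nlinarith [h0.1, h0.2, mul_nonneg hb.1 hW0]
      · nlinarith [h0.1, h0.2, mul_le_mul_of_nonneg_left hW1 hb.1]
    | succ k =>
      rw [tr_insert β k a A ha]
      have h1 := ih' (k + 1)
      have h0 := ih' k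
      have e : (-1 : ℝ) ^ (k + 1) * (tr β (k + 1) A - β a * tr β k A - (1 - β a) * W) =
          (-1 : ℝ) ^ (k + 1) * (tr β (k + 1) A - W) + β a * ((-1 : ℝ) ^ k * (tr β k A - W)) := by
        rw [pow_succ]; ring
      rw [e]
      constructor
      · have := mul_nonneg hb.1 h0.1
        linarith [h1.1]
      · have h2 := mul_le_mul_of_nonneg_left h0.2 hb.1
        have h3 := pow_aux V (β a) hV0 hb.1 (k + 1)
        have hf : (0 : ℝ) < (k + 1 + 1).factorial := by exact_mod_cast Nat.factorial_pos _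
        have hf' : (0 : ℝ) < (k + 1).factorial := by exact_mod_cast Nat.factorial_pos _
        have hfe : ((k + 1 + 1).factorial : ℝ) = ((k : ℝ) + 1 + 1) * ((k + 1).factorial : ℝ) := by
          rw [Nat.factorial_succ (k + 1)]; push_cast; ring
        have h4 : β a * (V ^ (k + 1) / ((k + 1).factorial : ℝ)) =
            (((k : ℝ) + 1 + 1) * β a * V ^ (k + 1)) / ((k + 1 + 1).factorial : ℝ) := by
          rw [hfe]; field_simp
        calc (-1 : ℝ) ^ (k + 1) * (tr β (k + 1) A - W) + β a * ((-1 : ℝ) ^ k * (tr β k A - W))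
            ≤ V ^ (k + 1 + 1) / ((k + 1 + 1).factorial : ℝ) + β a * (V ^ (k + 1) / ((k + 1).factorial : ℝ)) := by
              linarith [h1.2]
          _ = (V ^ (k + 1 + 1) + ((k : ℝ) + 1 + 1) * β a * V ^ (k + 1)) / ((k + 1 + 1).factorial : ℝ) := by
              rw [h4]; ring
          _ ≤ (V + β a) ^ (k + 1 + 1) / ((k + 1 + 1).factorial : ℝ) := by
              apply div_le_div_of_nonneg_right _ hf.le
              push_cast at h3
              exact h3
          _ = _ := by rw [add_comm V (β a)]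

/-- number of small subsets -/
lemma card_small (P : Finset ℕ) (k : ℕ) :
    (((P.powerset.filter (fun T : Finset ℕ => T.card ≤ k)).card : ℕ) : ℝ) ≤ ((P.card : ℝ) + 1) ^ k := by
  classical
  have h1 : (P.powerset.filter (fun T : Finset ℕ => T.card ≤ k)).card ≤ ∑ j ∈ Finset.range (k + 1), P.card.choose j := by
    have h2 : P.powerset.filter (fun T : Finset ℕ => T.card ≤ k) ⊆
        (Finset.range (k + 1)).biUnion (fun j => P.powersetCard j) := by
      intro T hT
      rw [Finset.mem_filter, Finset.mem_powerset] at hT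
      rw [Finset.mem_biUnion]
      exact ⟨T.card, Finset.mem_range.2 (by omega), Finset.mem_powersetCard.2 ⟨hT.1, rfl⟩⟩
    refine (Finset.card_le_card h2).trans (Finset.card_biUnion_le.trans ?_)
    apply Finset.sum_le_sum
    intro j _
    rw [Finset.card_powersetCard]
  have h2 : ∑ j ∈ Finset.range (k + 1), P.card.choose j ≤ (P.card + 1) ^ k := by
    rw [add_pow]
    apply Finset.sum_le_sum
    intro j hj
    rw [Finset.mem_range] at hj
    have h3 : P.card.choose j ≤ P.card ^ j := Nat.choose_le_pow P.card j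
    have h4 : 1 ≤ k.choose j := Nat.choose_pos (by omega)
    calc P.card.choose j ≤ P.card ^ j := h3
      _ = P.card ^ j * 1 ^ (k - j) * 1 := by simp
      _ ≤ P.card ^ j * 1 ^ (k - j) * k.choose j := Nat.mul_le_mul_left _ h4
  have h3 := h1.trans h2
  calc (((P.powerset.filter (fun T : Finset ℕ => T.card ≤ k)).card : ℕ) : ℝ) ≤ (((P.card + 1) ^ k : ℕ) : ℝ) := by
        exact_mod_cast h3
    _ = _ := by push_cast; rfl

/-- **pure sieve**: lower bound for the number of elements of `R` for which no `bad l` holds. The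
events `bad l` have density `β l` and are independent, under the condition `ok l`. -/
theorem pure_sieve {α : Type*} (R : Finset α) (P : Finset ℕ) (bad ok : ℕ → α → Prop) (β : ℕ → ℝ)
    (hβ : ∀ l ∈ P, 0 ≤ β l ∧ β l ≤ 1) (k : ℕ) (hk : Odd k) (E : ℝ)
    (herr : ∀ T ⊆ P, T.card ≤ k →
      |((((by classical exact R.filter (fun X => ∀ l ∈ T, bad l X)) : Finset α).card : ℕ) : ℝ) -
        (∏ l ∈ T, β l) * (((by classical exact R.filter (fun X => ∀ l ∈ T, ok l X)) : Finset α).card : ℕ)| ≤ E) :
    (R.card : ℝ) * (∏ l ∈ P, (1 - β l) - (∑ l ∈ P, β l) ^ (k + 1) / (k + 1).factorial) -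
      ((P.card : ℝ) + 1) ^ k * E ≤
      (((by classical exact R.filter (fun X => ∀ l ∈ P, ¬ bad l X)) : Finset α).card : ℕ) := by
  classical
  have hE : 0 ≤ E := (abs_nonneg _).trans (herr ∅ (Finset.empty_subset _) (by simp))
  -- the signs
  set s : Finset ℕ → ℝ := fun T => if T.card ≤ k then (-1 : ℝ) ^ T.card else 0 with hs
  have hsE : ∀ T, |s T| ≤ 1 := by
    intro T
    rw [hs]
    simp only
    split_ifs
    · rw [abs_pow, abs_neg, abs_one, one_pow]
    · simp
  -- step 1: Bonferroni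
  have h1 : ∑ T ∈ P.powerset, s T * ((R.filter (fun X => ∀ l ∈ T, bad l X)).card : ℝ) ≤
      ((R.filter (fun X => ∀ l ∈ P, ¬ bad l X)).card : ℝ) := by
    have e1 : ∀ T ∈ P.powerset, s T * ((R.filter (fun X => ∀ l ∈ T, bad l X)).card : ℝ) =
        ∑ X ∈ R, if (∀ l ∈ T, bad l X) then s T else 0 := by
      intro T _
      rw [← Finset.sum_filter, Finset.sum_const, nsmul_eq_mul]
      ring
    rw [Finset.sum_congr rfl e1, Finset.sum_comm]
    rw [Finset.card_eq_sum_ones, Finset.sum_filter]
    push_cast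
    apply Finset.sum_le_sum
    intro X _
    have e2 : ∑ T ∈ P.powerset, (if (∀ l ∈ T, bad l X) then s T else 0) = tr (fun _ => 1) k (P.filter (fun l => bad l X)) := by
      unfold tr
      rw [← Finset.sum_filter]
      have e3 : P.powerset.filter (fun T => ∀ l ∈ T, bad l X) = (P.filter (fun l => bad l X)).powerset := by
        ext T
        rw [Finset.mem_filter, Finset.mem_powerset, Finset.mem_powerset]
        constructor
        · rintro ⟨a, b⟩ l hl
          exact Finset.mem_filter.2 ⟨a hl, b l hl⟩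
        · intro a
          exact ⟨fun l hl => (Finset.mem_filter.1 (a hl)).1, fun l hl => (Finset.mem_filter.1 (a hl)).2⟩
      rw [e3]
      apply Finset.sum_congr rfl
      intro T _
      rw [hs]
      simp
    rw [e2]
    by_cases hno : ∀ l ∈ P, ¬ bad l X
    · rw [if_pos hno]
      have e4 : P.filter (fun l => bad l X) = ∅ := by
        apply Finset.filter_false_of_mem
        exact hno
      rw [e4, tr_empty]
    · rw [if_neg hno]
      push Not at hno
      obtain ⟨l, hl, hlb⟩ := hno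
      have h5 := (tr_bounds (fun _ => 1) (P.filter (fun l => bad l X)) (fun _ _ => ⟨zero_le_one, le_refl _⟩) k).1
      have e5 : ∏ l ∈ P.filter (fun l => bad l X), (1 - (1 : ℝ)) = 0 := by
        apply Finset.prod_eq_zero (i := l) (Finset.mem_filter.2 ⟨hl, hlb⟩)
        norm_num
      rw [e5, hk.neg_one_pow] at h5
      linarith
  -- step 2: the errors
  have h2 : ∑ T ∈ P.powerset, s T * ((∏ l ∈ T, β l) * ((R.filter (fun X => ∀ l ∈ T, ok l X)).card : ℝ)) -
      ((P.card : ℝ) + 1) ^ k * E ≤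
      ∑ T ∈ P.powerset, s T * ((R.filter (fun X => ∀ l ∈ T, bad l X)).card : ℝ) := by
    have e1 : ∑ T ∈ P.powerset, (s T * ((∏ l ∈ T, β l) * ((R.filter (fun X => ∀ l ∈ T, ok l X)).card : ℝ)) -
        s T * ((R.filter (fun X => ∀ l ∈ T, bad l X)).card : ℝ)) ≤
        ∑ T ∈ P.powerset, (if T.card ≤ k then E else 0) := by
      apply Finset.sum_le_sum
      intro T hT
      rw [Finset.mem_powerset] at hT
      by_cases hTk : T.card ≤ k
      · rw [if_pos hTk]
        have h3 := herr T hT hTk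
        have h4 := hsE T
        rw [← mul_sub]
        refine (le_abs_self _).trans ?_
        rw [abs_mul]
        calc |s T| * |(∏ l ∈ T, β l) * ((R.filter (fun X => ∀ l ∈ T, ok l X)).card : ℝ) -
              ((R.filter (fun X => ∀ l ∈ T, bad l X)).card : ℝ)| ≤ 1 * E := by
              apply mul_le_mul h4 _ (abs_nonneg _) zero_le_one
              rw [abs_sub_comm]
              convert h3 using 3
          _ = E := one_mul _
      · rw [if_neg hTk]
        have : s T = 0 := by rw [hs]; simp only; rw [if_neg hTk]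
        rw [this]
        simp
    rw [Finset.sum_sub_distrib, ← Finset.sum_filter, Finset.sum_const, nsmul_eq_mul] at e1
    have h3 := card_small P k
    have h4 := mul_le_mul_of_nonneg_right h3 hE
    linarith
  -- step 3: the model
  have h3 : (R.card : ℝ) * (∏ l ∈ P, (1 - β l) - (∑ l ∈ P, β l) ^ (k + 1) / (k + 1).factorial) ≤
      ∑ T ∈ P.powerset, s T * ((∏ l ∈ T, β l) * ((R.filter (fun X => ∀ l ∈ T, ok l X)).card : ℝ)) := by
    have e1 : ∀ T ∈ P.powerset, s T * ((∏ l ∈ T, β l) * ((R.filter (fun X => ∀ l ∈ T, ok l X)).card : ℝ)) =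
        ∑ X ∈ R, if (∀ l ∈ T, ok l X) then s T * ∏ l ∈ T, β l else 0 := by
      intro T _
      rw [← Finset.sum_filter, Finset.sum_const, nsmul_eq_mul]
      ring
    rw [Finset.sum_congr rfl e1, Finset.sum_comm, ← nsmul_eq_mul, ← Finset.sum_const]
    apply Finset.sum_le_sum
    intro X _
    have e2 : ∑ T ∈ P.powerset, (if (∀ l ∈ T, ok l X) then s T * ∏ l ∈ T, β l else 0) =
        tr β k (P.filter (fun l => ok l X)) := by
      unfold tr
      rw [← Finset.sum_filter]
      have e3 : P.powerset.filter (fun T => ∀ l ∈ T, ok l X) = (P.filter (fun l => ok l X)).powerset := by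
        ext T
        rw [Finset.mem_filter, Finset.mem_powerset, Finset.mem_powerset]
        constructor
        · rintro ⟨a, b⟩ l hl
          exact Finset.mem_filter.2 ⟨a hl, b l hl⟩
        · intro a
          exact ⟨fun l hl => (Finset.mem_filter.1 (a hl)).1, fun l hl => (Finset.mem_filter.1 (a hl)).2⟩
      rw [e3]
      apply Finset.sum_congr rfl
      intro T _
      rw [hs]
      simp only
      split_ifs
      · rfl
      · ring
    rw [e2]
    set A := P.filter (fun l => ok l X) with hA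
    have hAP : A ⊆ P := Finset.filter_subset _ _
    have h5 := tr_bounds β A (fun l hl => hβ l (hAP hl)) k
    rw [hk.neg_one_pow] at h5
    have h6 : ∏ l ∈ P, (1 - β l) ≤ ∏ l ∈ A, (1 - β l) := by
      rw [← Finset.prod_sdiff hAP]
      have a1 : ∏ l ∈ P \ A, (1 - β l) ≤ 1 := Finset.prod_le_one
        (fun l hl => by linarith [(hβ l (Finset.mem_sdiff.1 hl).1).2])
        (fun l hl => by linarith [(hβ l (Finset.mem_sdiff.1 hl).1).1])
      have a2 : 0 ≤ ∏ l ∈ A, (1 - β l) := Finset.prod_nonneg fun l hl => by linarith [(hβ l (hAP hl)).2]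
      calc (∏ l ∈ P \ A, (1 - β l)) * ∏ l ∈ A, (1 - β l) ≤ 1 * ∏ l ∈ A, (1 - β l) :=
            mul_le_mul_of_nonneg_right a1 a2
        _ = _ := one_mul _
    have h7 : ∑ l ∈ A, β l ≤ ∑ l ∈ P, β l :=
      Finset.sum_le_sum_of_subset_of_nonneg hAP (fun l hl _ => (hβ l hl).1)
    have h8 : 0 ≤ ∑ l ∈ A, β l := Finset.sum_nonneg fun l hl => (hβ l (hAP hl)).1
    have h9 : (∑ l ∈ A, β l) ^ (k + 1) / ((k + 1).factorial : ℝ) ≤ (∑ l ∈ P, β l) ^ (k + 1) / ((k + 1).factorial : ℝ) := by
      gcongr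
    linarith [h5.2]
  have h4 := h1
  have h5 := h2
  have h6 := h3
  convert (by linarith : (R.card : ℝ) * (∏ l ∈ P, (1 - β l) - (∑ l ∈ P, β l) ^ (k + 1) / (k + 1).factorial) -
      ((P.card : ℝ) + 1) ^ k * E ≤ ((R.filter (fun X => ∀ l ∈ P, ¬ bad l X)).card : ℝ)) using 3

end Pool.Agent.X9.SQ
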