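import Pool.Agent.X9.SQ.Pure

/-!
# The pure sieve with a choice of the truncation
-/

set_option autoImplicit false
open Finset

namespace Pool.Agent.X9.SQ

lemma choose_k (V : ℝ) (hV : 0 ≤ V) : ∃ k : ℕ, Odd k ∧ (k : ℝ) ≤ 8 * V + 3 ∧
    V ^ (k + 1) / (k + 1).factorial ≤ Real.exp (-(2 * V)) / 2 := by
  obtain ⟨m, hm⟩ : ∃ m : ℕ, m = ⌈4 * V⌉₊ := ⟨_, rfl⟩
  have h1 : 4 * V ≤ m := by rw [hm]; exact Nat.le_ceil _
  have h2 : (m : ℝ) < 4 * V + 1 := by rw [hm]; exact Nat.ceil_lt_add_one (by positivity)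
  refine ⟨2 * m + 1, ⟨m, rfl⟩, by push_cast; linarith, ?_⟩
  have hf : (0 : ℝ) < ((2 * m + 1 + 1).factorial : ℝ) := by exact_mod_cast Nat.factorial_pos _
  have h3 := Real.pow_div_factorial_le_exp (Real.exp 2 * V) (by positivity) (2 * m + 1 + 1)
  have he : Real.exp 2 ≤ 7.4 := by
    have h4 := Real.exp_one_lt_d9
    have h5 : Real.exp 2 = Real.exp 1 * Real.exp 1 := by rw [← Real.exp_add]; norm_num
    rw [h5]
    nlinarith [Real.exp_pos 1]
  have e1 : V ^ (2 * m + 1 + 1) / ((2 * m + 1 + 1).factorial : ℝ) =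
      (Real.exp 2 * V) ^ (2 * m + 1 + 1) / ((2 * m + 1 + 1).factorial : ℝ) * Real.exp (-(2 * (2 * m + 2))) := by
    rw [mul_pow]
    have e2 : Real.exp 2 ^ (2 * m + 1 + 1) = Real.exp (2 * (2 * m + 2)) := by
      rw [← Real.exp_nat_mul]
      congr 1
      push_cast
      ring
    rw [e2]
    have e3 : Real.exp (2 * (2 * (m : ℝ) + 2)) * Real.exp (-(2 * (2 * m + 2))) = 1 := by
      rw [← Real.exp_add, add_neg_cancel, Real.exp_zero]
    calc V ^ (2 * m + 1 + 1) / ((2 * m + 1 + 1).factorial : ℝ) =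
        V ^ (2 * m + 1 + 1) / ((2 * m + 1 + 1).factorial : ℝ) *
          (Real.exp (2 * (2 * (m : ℝ) + 2)) * Real.exp (-(2 * (2 * m + 2)))) := by rw [e3, mul_one]
      _ = _ := by ring
  rw [e1]
  calc (Real.exp 2 * V) ^ (2 * m + 1 + 1) / ((2 * m + 1 + 1).factorial : ℝ) * Real.exp (-(2 * (2 * m + 2)))
      ≤ Real.exp (Real.exp 2 * V) * Real.exp (-(2 * (2 * m + 2))) :=
        mul_le_mul_of_nonneg_right h3 (Real.exp_pos _).le
    _ = Real.exp (Real.exp 2 * V + -(2 * (2 * m + 2))) := (Real.exp_add _ _).symm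
    _ ≤ Real.exp (-(2 * V) + -1) := by
        apply Real.exp_le_exp.2
        nlinarith
    _ = Real.exp (-(2 * V)) * Real.exp (-1) := Real.exp_add _ _
    _ ≤ Real.exp (-(2 * V)) * (1 / 2) := by
        apply mul_le_mul_of_nonneg_left _ (Real.exp_pos _).le
        rw [Real.exp_neg]
        have h4 := Real.exp_one_gt_d9
        rw [inv_le_comm₀ (Real.exp_pos _) (by norm_num)]
        norm_num
        linarith
    _ = _ := by ring

lemma exp_le_one_sub (g : ℝ) (h0 : 0 ≤ g) (h1 : g ≤ 1 / 2) : Real.exp (-(2 * g)) ≤ 1 - g := by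
  have h4 := Real.add_one_le_exp (2 * g)
  have h5 : 1 ≤ (1 - g) * Real.exp (2 * g) := by
    have : 1 ≤ (1 - g) * (2 * g + 1) := by nlinarith
    have h6 : (1 - g) * (2 * g + 1) ≤ (1 - g) * Real.exp (2 * g) := by
      apply mul_le_mul_of_nonneg_left h4
      linarith
    linarith
  rw [Real.exp_neg, inv_le_iff_one_le_mul₀ (Real.exp_pos _)]
  exact h5

/-- the pure sieve, with `k` depending on the bound `V` for the sum of the densities -/
theorem pure_sieve2 (V : ℝ) (hV : 0 ≤ V) : ∃ k : ℕ, (k : ℝ) ≤ 8 * V + 3 ∧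
    ∀ {α : Type} (R : Finset α) (P : Finset ℕ) (bad ok : ℕ → α → Prop) (β : ℕ → ℝ),
    (∀ l ∈ P, 0 ≤ β l ∧ β l ≤ 1 / 2) → ∑ l ∈ P, β l ≤ V → ∀ (E : ℝ),
    (∀ T ⊆ P, T.card ≤ k →
      |((((by classical exact R.filter (fun X => ∀ l ∈ T, bad l X)) : Finset α).card : ℕ) : ℝ) -
        (∏ l ∈ T, β l) * (((by classical exact R.filter (fun X => ∀ l ∈ T, ok l X)) : Finset α).card : ℕ)| ≤ E) →
    (R.card : ℝ) * (Real.exp (-(2 * V)) / 2) - ((P.card : ℝ) + 1) ^ k * E ≤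
      (((by classical exact R.filter (fun X => ∀ l ∈ P, ¬ bad l X)) : Finset α).card : ℕ) := by
  classical
  obtain ⟨k, hk1, hk2, hk3⟩ := choose_k V hV
  refine ⟨k, hk2, ?_⟩
  intro α R P bad ok β hβ hsum E herr
  have h1 := pure_sieve R P bad ok β (fun l hl => ⟨(hβ l hl).1, by linarith [(hβ l hl).2]⟩) k hk1 E herr
  have h2 : Real.exp (-(2 * V)) ≤ ∏ l ∈ P, (1 - β l) := by
    calc Real.exp (-(2 * V)) ≤ Real.exp (-(2 * ∑ l ∈ P, β l)) := by
          apply Real.exp_le_exp.2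
          linarith
      _ = ∏ l ∈ P, Real.exp (-(2 * β l)) := by
        rw [← Real.exp_sum]
        congr 1
        rw [Finset.mul_sum, ← Finset.sum_neg_distrib]
      _ ≤ _ := Finset.prod_le_prod (fun p _ => (Real.exp_pos _).le)
        (fun l hl => exp_le_one_sub (β l) (hβ l hl).1 (hβ l hl).2)
  have h3 : (∑ l ∈ P, β l) ^ (k + 1) / ((k + 1).factorial : ℝ) ≤ V ^ (k + 1) / ((k + 1).factorial : ℝ) := by
    have : 0 ≤ ∑ l ∈ P, β l := Finset.sum_nonneg fun l hl => (hβ l hl).1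
    gcongr
  have h4 : (R.card : ℝ) * (Real.exp (-(2 * V)) / 2) ≤
      (R.card : ℝ) * (∏ l ∈ P, (1 - β l) - (∑ l ∈ P, β l) ^ (k + 1) / (k + 1).factorial) := by
    apply mul_le_mul_of_nonneg_left _ (Nat.cast_nonneg _)
    linarith
  linarith

end Pool.Agent.X9.SQ
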