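import Pool.Agent.X9.SQ.RotS

/-!
# The rotations modulo a prime
-/

set_option autoImplicit false
open Finset

namespace Pool.Agent.X9.SQ
open Pool.Agent.W65.FS Pool.Agent.TH696.FA

/-- the rotation of a residue vector -/
def rotm (P Q N P' Q' N' a a' : ℤ) (k : Fin 5 × Fin 5) (c : Fin 4 → ℤ) : Fin 4 → ℤ :=
  ![rc P Q N k.1 * (a * c 0) - rs P Q N k.1 * (a * c 1),
    rs P Q N k.1 * (a * c 0) + rc P Q N k.1 * (a * c 1),
    rc P' Q' N' k.2 * (a' * c 2) - rs P' Q' N' k.2 * (a' * c 3),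
    rs P' Q' N' k.2 * (a' * c 2) + rc P' Q' N' k.2 * (a' * c 3)]

lemma quot_congr (l N a x c : ℤ) (hN : N ^ 2 ≠ 0) (ha : l ∣ a * N ^ 2 - 1) (hx : N ^ 2 ∣ x) (hc : l ∣ x - c) :
    l ∣ x / N ^ 2 - a * c := by
  obtain ⟨w, rfl⟩ := hx
  rw [Int.mul_ediv_cancel_left _ hN]
  have e : w - a * c = a * (N ^ 2 * w - c) - (a * N ^ 2 - 1) * w := by ring
  rw [e]
  exact dvd_sub (hc.mul_left _) (ha.mul_right _)

lemma rotm_congr (l : ℤ) (P Q N P' Q' N' a a' : ℤ) (hN : N ^ 2 ≠ 0) (hN' : N' ^ 2 ≠ 0)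
    (ha : l ∣ a * N ^ 2 - 1) (ha' : l ∣ a' * N' ^ 2 - 1) (X c : Fin 4 → ℤ)
    (h0 : N ^ 2 ∣ X 0) (h1 : N ^ 2 ∣ X 1) (h2 : N' ^ 2 ∣ X 2) (h3 : N' ^ 2 ∣ X 3)
    (hc : ∀ i, l ∣ X i - c i) (k : Fin 5 × Fin 5) (i : Fin 4) :
    l ∣ rotv P Q N P' Q' N' k X i - rotm P Q N P' Q' N' a a' k c i := by
  have g0 := quot_congr l N a _ _ hN ha h0 (hc 0)
  have g1 := quot_congr l N a _ _ hN ha h1 (hc 1)
  have g2 := quot_congr l N' a' _ _ hN' ha' h2 (hc 2)
  have g3 := quot_congr l N' a' _ _ hN' ha' h3 (hc 3)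
  fin_cases i
  · show l ∣ rotv P Q N P' Q' N' k X 0 - rotm P Q N P' Q' N' a a' k c 0
    simp only [rotv, rotm, Matrix.cons_val_zero]
    have e : rc P Q N k.1 * (X 0 / N ^ 2) - rs P Q N k.1 * (X 1 / N ^ 2) -
      (rc P Q N k.1 * (a * c 0) - rs P Q N k.1 * (a * c 1)) =
      rc P Q N k.1 * (X 0 / N ^ 2 - a * c 0) - rs P Q N k.1 * (X 1 / N ^ 2 - a * c 1) := by ring
    rw [e]
    exact dvd_sub (g0.mul_left _) (g1.mul_left _)
  · show l ∣ rotv P Q N P' Q' N' k X 1 - rotm P Q N P' Q' N' a a' k c 1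
    simp only [rotv, rotm, Matrix.cons_val_one, Matrix.cons_val_zero]
    have e : rs P Q N k.1 * (X 0 / N ^ 2) + rc P Q N k.1 * (X 1 / N ^ 2) -
      (rs P Q N k.1 * (a * c 0) + rc P Q N k.1 * (a * c 1)) =
      rs P Q N k.1 * (X 0 / N ^ 2 - a * c 0) + rc P Q N k.1 * (X 1 / N ^ 2 - a * c 1) := by ring
    rw [e]
    exact dvd_add (g0.mul_left _) (g1.mul_left _)
  · show l ∣ rotv P Q N P' Q' N' k X 2 - rotm P Q N P' Q' N' a a' k c 2
    simp only [rotv, rotm, Matrix.cons_val]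
    have e : rc P' Q' N' k.2 * (X 2 / N' ^ 2) - rs P' Q' N' k.2 * (X 3 / N' ^ 2) -
      (rc P' Q' N' k.2 * (a' * c 2) - rs P' Q' N' k.2 * (a' * c 3)) =
      rc P' Q' N' k.2 * (X 2 / N' ^ 2 - a' * c 2) - rs P' Q' N' k.2 * (X 3 / N' ^ 2 - a' * c 3) := by ring
    rw [e]
    exact dvd_sub (g2.mul_left _) (g3.mul_left _)
  · show l ∣ rotv P Q N P' Q' N' k X 3 - rotm P Q N P' Q' N' a a' k c 3
    simp only [rotv, rotm, Matrix.cons_val]
    have e : rs P' Q' N' k.2 * (X 2 / N' ^ 2) + rc P' Q' N' k.2 * (X 3 / N' ^ 2) -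
      (rs P' Q' N' k.2 * (a' * c 2) + rc P' Q' N' k.2 * (a' * c 3)) =
      rs P' Q' N' k.2 * (X 2 / N' ^ 2 - a' * c 2) + rc P' Q' N' k.2 * (X 3 / N' ^ 2 - a' * c 3) := by ring
    rw [e]
    exact dvd_add (g2.mul_left _) (g3.mul_left _)

/-- a rotation modulo `l` is injective -/
lemma pair_inj (l N a c s x y x' y' : ℤ) (h : c ^ 2 + s ^ 2 = N ^ 4) (ha : l ∣ a * N ^ 2 - 1)
    (h1 : l ∣ (c * (a * x) - s * (a * y)) - (c * (a * x') - s * (a * y')))
    (h2 : l ∣ (s * (a * x) + c * (a * y)) - (s * (a * x') + c * (a * y'))) : l ∣ x - x' ∧ l ∣ y - y' := by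
  constructor
  · have e : x - x' = a * (c * ((c * (a * x) - s * (a * y)) - (c * (a * x') - s * (a * y'))) +
        s * ((s * (a * x) + c * (a * y)) - (s * (a * x') + c * (a * y')))) -
        (a * N ^ 2 - 1) * ((a * N ^ 2 + 1) * (x - x')) := by
      linear_combination (-(a ^ 2 * (x - x'))) * h
    rw [e]
    exact dvd_sub (Dvd.dvd.mul_left (dvd_add (h1.mul_left _) (h2.mul_left _)) _) (ha.mul_right _)
  · have e : y - y' = a * (c * ((s * (a * x) + c * (a * y)) - (s * (a * x') + c * (a * y'))) -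
        s * ((c * (a * x) - s * (a * y)) - (c * (a * x') - s * (a * y')))) -
        (a * N ^ 2 - 1) * ((a * N ^ 2 + 1) * (y - y')) := by
      linear_combination (-(a ^ 2 * (y - y'))) * h
    rw [e]
    exact dvd_sub (Dvd.dvd.mul_left (dvd_sub (h2.mul_left _) (h1.mul_left _)) _) (ha.mul_right _)

lemma rotm_inj (l : ℤ) (P Q N P' Q' N' a a' : ℤ) (hP : P ^ 2 + Q ^ 2 = N ^ 2) (hP' : P' ^ 2 + Q' ^ 2 = N' ^ 2)
    (ha : l ∣ a * N ^ 2 - 1) (ha' : l ∣ a' * N' ^ 2 - 1) (c c' : Fin 4 → ℤ) (k : Fin 5 × Fin 5)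
    (h : ∀ i, l ∣ rotm P Q N P' Q' N' a a' k c i - rotm P Q N P' Q' N' a a' k c' i) : ∀ i, l ∣ c i - c' i := by
  have g0 := h 0
  have g1 := h 1
  have g2 := h 2
  have g3 := h 3
  simp only [rotm, Matrix.cons_val_zero, Matrix.cons_val_one, Matrix.cons_val] at g0 g1 g2 g3
  obtain ⟨t0, t1⟩ := pair_inj l N a _ _ _ _ _ _ (rc_rs P Q N hP k.1) ha g0 g1
  obtain ⟨t2, t3⟩ := pair_inj l N' a' _ _ _ _ _ _ (rc_rs P' Q' N' hP' k.2) ha' g2 g3
  intro i
  fin_cases i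
  · exact t0
  · exact t1
  · exact t2
  · exact t3

lemma rotm_norm (l : ℤ) (P Q N P' Q' N' a a' : ℤ) (hP : P ^ 2 + Q ^ 2 = N ^ 2) (hP' : P' ^ 2 + Q' ^ 2 = N' ^ 2)
    (ha : l ∣ a * N ^ 2 - 1) (ha' : l ∣ a' * N' ^ 2 - 1) (c : Fin 4 → ℤ) (k : Fin 5 × Fin 5) :
    l ∣ ∑ i, rotm P Q N P' Q' N' a a' k c i ^ 2 - ∑ i, c i ^ 2 := by
  have e1 := rc_rs P Q N hP k.1
  have e2 := rc_rs P' Q' N' hP' k.2
  rw [Fin.sum_univ_four, Fin.sum_univ_four]
  simp only [rotm, Matrix.cons_val_zero, Matrix.cons_val_one, Matrix.cons_val]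
  have e : (rc P Q N k.1 * (a * c 0) - rs P Q N k.1 * (a * c 1)) ^ 2 +
      (rs P Q N k.1 * (a * c 0) + rc P Q N k.1 * (a * c 1)) ^ 2 +
      (rc P' Q' N' k.2 * (a' * c 2) - rs P' Q' N' k.2 * (a' * c 3)) ^ 2 +
      (rs P' Q' N' k.2 * (a' * c 2) + rc P' Q' N' k.2 * (a' * c 3)) ^ 2 - (c 0 ^ 2 + c 1 ^ 2 + c 2 ^ 2 + c 3 ^ 2) =
      (a * N ^ 2 - 1) * ((a * N ^ 2 + 1) * (c 0 ^ 2 + c 1 ^ 2)) +
      (a' * N' ^ 2 - 1) * ((a' * N' ^ 2 + 1) * (c 2 ^ 2 + c 3 ^ 2)) := by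
    linear_combination (a ^ 2 * (c 0 ^ 2 + c 1 ^ 2)) * e1 + (a' ^ 2 * (c 2 ^ 2 + c 3 ^ 2)) * e2
  rw [e]
  exact dvd_add (ha.mul_right _) (ha'.mul_right _)

/-- the residues that are bad after some rotation -/
noncomputable def SB (n l : ℕ) (P Q N P' Q' N' a a' : ℤ) (B : (Fin 4 → ℤ) → Prop) : Finset (Fin 4 → ℤ) := by
  classical
  exact (Gl n l).filter (fun c => ∃ k, B (rotm P Q N P' Q' N' a a' k c))

lemma card_SB (n l : ℕ) (hl : 0 < l) (P Q N P' Q' N' a a' : ℤ) (hP : P ^ 2 + Q ^ 2 = N ^ 2) (hP' : P' ^ 2 + Q' ^ 2 = N' ^ 2)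
    (ha : (l : ℤ) ∣ a * N ^ 2 - 1) (ha' : (l : ℤ) ∣ a' * N' ^ 2 - 1)
    (B : (Fin 4 → ℤ) → Prop) (hB : ∀ X Y : Fin 4 → ℤ, (∀ i, (l : ℤ) ∣ X i - Y i) → B X → B Y) :
    (SB n l P Q N P' Q' N' a a' B).card ≤ 25 * ((by classical exact (Gl n l).filter (fun c => B c)) : Finset (Fin 4 → ℤ)).card := by
  classical
  have h1 : SB n l P Q N P' Q' N' a a' B ⊆ (Finset.univ : Finset (Fin 5 × Fin 5)).biUnion
      (fun k => (Gl n l).filter (fun c => B (rotm P Q N P' Q' N' a a' k c))) := by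
    intro c hc
    unfold SB at hc
    rw [Finset.mem_filter] at hc
    obtain ⟨k, hk⟩ := hc.2
    rw [Finset.mem_biUnion]
    exact ⟨k, Finset.mem_univ _, Finset.mem_filter.2 ⟨hc.1, hk⟩⟩
  have h2 : ∀ k ∈ (Finset.univ : Finset (Fin 5 × Fin 5)),
      ((Gl n l).filter (fun c => B (rotm P Q N P' Q' N' a a' k c))).card ≤ ((Gl n l).filter (fun c => B c)).card := by
    intro k _
    apply Finset.card_le_card_of_injOn (fun c => red l (rotm P Q N P' Q' N' a a' k c))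
    · intro c hc
      rw [Finset.mem_coe, Finset.mem_filter, mem_Gl] at hc
      obtain ⟨⟨_, hc2, hc3⟩, hc4⟩ := hc
      rw [Finset.mem_coe, Finset.mem_filter, mem_Gl]
      have hlz : (0 : ℤ) < l := by exact_mod_cast hl
      have hr := red_dvd l (rotm P Q N P' Q' N' a a' k c)
      refine ⟨⟨fun i => ⟨Int.emod_nonneg _ hlz.ne', Int.emod_lt_of_pos _ hlz⟩, ?_, ?_⟩, ?_⟩
      · have h3 : (∑ i, red l (rotm P Q N P' Q' N' a a' k c) i ^ 2) - (n : ℤ) =
            (-∑ i, (rotm P Q N P' Q' N' a a' k c i - red l (rotm P Q N P' Q' N' a a' k c) i) *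
              (rotm P Q N P' Q' N' a a' k c i + red l (rotm P Q N P' Q' N' a a' k c) i)) +
            ((∑ i, rotm P Q N P' Q' N' a a' k c i ^ 2 - ∑ i, c i ^ 2) + ((∑ i, c i ^ 2) - n)) := by
          simp only [Fin.sum_univ_four]
          ring
        rw [h3]
        exact dvd_add ((Finset.dvd_sum fun i _ => (hr i).mul_right _).neg_right)
          (dvd_add (rotm_norm l P Q N P' Q' N' a a' hP hP' ha ha' c k) hc2)
      · by_contra hall
        push Not at hall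
        have h3 : ∀ i, (l : ℤ) ∣ rotm P Q N P' Q' N' a a' k c i - rotm P Q N P' Q' N' a a' k 0 i := by
          intro i
          have h4 : (l : ℤ) ∣ rotm P Q N P' Q' N' a a' k c i := by
            have := dvd_add (hr i) (hall i)
            simpa using this
          have h5 : rotm P Q N P' Q' N' a a' k 0 i = 0 := by
            fin_cases i <;> simp [rotm]
          rw [h5, sub_zero]
          exact h4
        have h4 := rotm_inj l P Q N P' Q' N' a a' hP hP' ha ha' c 0 k h3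
        obtain ⟨i, hi⟩ := hc3
        apply hi
        have := h4 i
        simpa using this
      · exact hB _ _ hr hc4
    · intro c hc c' hc' hcc
      rw [Finset.mem_coe, Finset.mem_filter, mem_Gl] at hc hc'
      simp only at hcc
      have hr := red_dvd l (rotm P Q N P' Q' N' a a' k c)
      have hr' := red_dvd l (rotm P Q N P' Q' N' a a' k c')
      rw [← hcc] at hr'
      have h3 : ∀ i, (l : ℤ) ∣ rotm P Q N P' Q' N' a a' k c i - rotm P Q N P' Q' N' a a' k c' i := by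
        intro i
        have := dvd_sub (hr i) (hr' i)
        simpa using this
      have h4 := rotm_inj l P Q N P' Q' N' a a' hP hP' ha ha' c c' k h3
      funext i
      have h5 := h4 i
      obtain ⟨t, ht⟩ := h5
      have b1 := hc.1.1 i
      have b2 := hc'.1.1 i
      have hlz : (0 : ℤ) < l := by exact_mod_cast hl
      have t0 : t = 0 := by
        by_contra hne
        rcases lt_or_gt_of_ne hne with h | h
        · have : (l : ℤ) * t ≤ -l := by nlinarith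
          omega
        · have : (l : ℤ) ≤ l * t := by nlinarith
          omega
      rw [t0, mul_zero] at ht
      omega
  refine (Finset.card_le_card h1).trans (Finset.card_biUnion_le.trans ((Finset.sum_le_sum h2).trans ?_))
  rw [Finset.sum_const, smul_eq_mul]
  simp

/-- vectors outside the bad residues have no bad rotation -/
lemma not_bad (n l : ℕ) (P Q N P' Q' N' a a' : ℤ) (hN : N ^ 2 ≠ 0) (hN' : N' ^ 2 ≠ 0)
    (ha : (l : ℤ) ∣ a * N ^ 2 - 1) (ha' : (l : ℤ) ∣ a' * N' ^ 2 - 1)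
    (B : (Fin 4 → ℤ) → Prop) (hB : ∀ X Y : Fin 4 → ℤ, (∀ i, (l : ℤ) ∣ X i - Y i) → B X → B Y)
    (hB0 : ¬ B 0) (hl : 0 < l) (X : Fin 4 → ℤ) (hX : ∑ i, X i ^ 2 = n)
    (h0 : N ^ 2 ∣ X 0) (h1 : N ^ 2 ∣ X 1) (h2 : N' ^ 2 ∣ X 2) (h3 : N' ^ 2 ∣ X 3)
    (hXS : red l X ∉ SB n l P Q N P' Q' N' a a' B) (k : Fin 5 × Fin 5) : ¬ B (rotv P Q N P' Q' N' k X) := by
  classical
  intro hb
  have hr := red_dvd l X
  have hlz : (0 : ℤ) < l := by exact_mod_cast hl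
  by_cases hz : ∃ i, ¬ (l : ℤ) ∣ red l X i
  · apply hXS
    unfold SB
    rw [Finset.mem_filter, mem_Gl]
    refine ⟨⟨fun i => ⟨Int.emod_nonneg _ hlz.ne', Int.emod_lt_of_pos _ hlz⟩, ?_, hz⟩, k, ?_⟩
    · have h1 : (∑ i, red l X i ^ 2) - (n : ℤ) = -∑ i, (X i - red l X i) * (X i + red l X i) := by
        rw [← hX]
        simp only [Fin.sum_univ_four]
        ring
      rw [h1, dvd_neg]
      exact Finset.dvd_sum fun i _ => (hr i).mul_right _
    · exact hB _ _ (fun i => rotm_congr l P Q N P' Q' N' a a' hN hN' ha ha' X _ h0 h1 h2 h3 hr k i) hb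
  · push Not at hz
    apply hB0
    have hX0 : ∀ i, (l : ℤ) ∣ X i - (0 : Fin 4 → ℤ) i := by
      intro i
      have := dvd_add (hr i) (hz i)
      simpa using this
    have h5 := fun i => rotm_congr l P Q N P' Q' N' a a' hN hN' ha ha' X 0 h0 h1 h2 h3 hX0 k i
    apply hB _ _ _ hb
    intro i
    have h6 : rotm P Q N P' Q' N' a a' k 0 i = 0 := by
      fin_cases i <;> simp [rotm]
    have h7 := h5 i
    rw [h6] at h7
    simpa using h7

end Pool.Agent.X9.SQ
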